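import Pool.Agent.Helper86.Tri.CubeDefs

set_option autoImplicit false

open Finset

namespace Pool.Agent.Helper86.Tri

theorem avg_prod {M : ℕ} (f : Fin M → Bool → ℝ) :
    avg (fun u : Q M => ∏ i, f i (u i)) = ∏ i, ((f i true + f i false) / 2) := by
  unfold avg
  have h1 : ∑ u : Q M, ∏ i, f i (u i) = ∏ i, (f i true + f i false) := by
    have h2 := Finset.prod_univ_sum (fun _ : Fin M => (univ : Finset Bool)) f
    rw [Fintype.piFinset_univ] at h2
    rw [← h2]
    refine Finset.prod_congr rfl fun i _ => ?_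
    rw [Fintype.sum_bool]
  rw [h1, Finset.prod_div_distrib, Finset.prod_const, Finset.card_univ, Fintype.card_fin]
  congr 1
  simp

theorem chi_eq {M : ℕ} (S : Finset (Fin M)) (u : Q M) :
    chi S u = ∏ i, (if i ∈ S then sg (u i) else 1) := by
  unfold chi
  rw [Finset.prod_ite_mem, Finset.univ_inter]

theorem chi_orth {M : ℕ} (S T : Finset (Fin M)) :
    avg (fun u : Q M => chi S u * chi T u) = if S = T then 1 else 0 := by
  have h1 : (fun u : Q M => chi S u * chi T u) = fun u =>
      ∏ i, (fun (i : Fin M) (b : Bool) => (if i ∈ S then sg b else 1) *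
        (if i ∈ T then sg b else 1)) i (u i) := by
    funext u
    rw [chi_eq, chi_eq, ← Finset.prod_mul_distrib]
  refine (congrArg avg h1).trans ((avg_prod (fun (i : Fin M) (b : Bool) =>
    (if i ∈ S then sg b else 1) * (if i ∈ T then sg b else 1))).trans ?_)
  by_cases h : S = T
  · rw [if_pos h, h]
    apply Finset.prod_eq_one
    intro i _
    by_cases hi : i ∈ T
    · simp [hi, sg]
    · simp [hi]
  · rw [if_neg h]
    have : ∃ i, ¬ (i ∈ S ↔ i ∈ T) := by
      by_contra hcon
      push Not at hcon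
      exact h (Finset.ext hcon)
    obtain ⟨i, hi⟩ := this
    apply Finset.prod_eq_zero (Finset.mem_univ i)
    by_cases hS : i ∈ S
    · have hT : i ∉ T := fun hT => hi ⟨fun _ => hT, fun _ => hS⟩
      simp [hS, hT, sg]
    · have hT : i ∈ T := by
        by_contra hT
        exact hi ⟨fun h => absurd h hS, fun h => absurd h hT⟩
      simp [hS, hT, sg]

theorem Rk_eq_sum (M : ℕ) (u s : Q M) :
    Rk M u s = ∑ S : Finset (Fin M), (1 / 2) ^ S.card * (chi S u * chi S s) := by
  unfold Rk
  rw [Finset.prod_one_add, Finset.powerset_univ]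
  refine Finset.sum_congr rfl fun S _ => ?_
  unfold chi
  rw [Finset.prod_mul_distrib, Finset.prod_mul_distrib, Finset.prod_const]

theorem Rk_nonneg (M : ℕ) (u s : Q M) : 0 ≤ Rk M u s := by
  unfold Rk
  apply Finset.prod_nonneg
  intro i _
  unfold sg
  split_ifs <;> norm_num

theorem Rk_avg (M : ℕ) (s : Q M) : avg (fun u => Rk M u s) = 1 := by
  have h1 : (fun u : Q M => Rk M u s) = fun u =>
      ∏ i, (fun (i : Fin M) (b : Bool) => 1 + (1 / 2) * (sg b * sg (s i))) i (u i) := rfl
  refine (congrArg avg h1).trans ((avg_prod (fun (i : Fin M) (b : Bool) =>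
    1 + (1 / 2) * (sg b * sg (s i)))).trans ?_)
  apply Finset.prod_eq_one
  intro i _
  have h2 : sg true = 1 := by simp [sg]
  have h3 : sg false = -1 := by simp [sg]
  simp only [h2, h3]
  ring

end Pool.Agent.Helper86.Tri
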