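import Pool.Agent.Helper86.Tri.A1

set_option autoImplicit false

open Finset

namespace Pool.Agent.Helper86.Tri

theorem j5500_avg_sum {ι κ : Type*} [Fintype ι] (S : Finset κ) (f : κ → ι → ℝ) :
    avg (fun i => ∑ k ∈ S, f k i) = ∑ k ∈ S, avg (f k) := by
  unfold avg
  rw [Finset.sum_comm, Finset.sum_div]

theorem j5500_avg_mul {ι : Type*} [Fintype ι] (c : ℝ) (f : ι → ℝ) :
    avg (fun i => c * f i) = c * avg f := by
  unfold avg
  rw [← Finset.mul_sum, mul_div_assoc]

theorem j5500_avg_add {ι : Type*} [Fintype ι] (f g : ι → ℝ) :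
    avg (fun i => f i + g i) = avg f + avg g := by
  unfold avg
  rw [Finset.sum_add_distrib, add_div]

theorem j5500_avg_sub {ι : Type*} [Fintype ι] (f g : ι → ℝ) :
    avg (fun i => f i - g i) = avg f - avg g := by
  unfold avg
  rw [Finset.sum_sub_distrib, sub_div]

theorem j5500_avg_nonneg {ι : Type*} [Fintype ι] (f : ι → ℝ) (h : ∀ i, 0 ≤ f i) : 0 ≤ avg f := by
  unfold avg
  exact div_nonneg (Finset.sum_nonneg fun i _ => h i) (Nat.cast_nonneg _)

theorem parseval_poly {M : ℕ} (c : Finset (Fin M) → ℝ) :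
    avg (fun u : Q M => (∑ S, c S * chi S u) ^ 2) = ∑ S, c S ^ 2 := by
  have e : (fun u : Q M => (∑ S, c S * chi S u) ^ 2) =
      fun u => ∑ S, ∑ T, (c S * c T) * (chi S u * chi T u) := by
    funext u
    rw [sq, Finset.sum_mul_sum]
    refine Finset.sum_congr rfl fun S _ => Finset.sum_congr rfl fun T _ => ?_
    ring
  rw [e, j5500_avg_sum]
  refine Finset.sum_congr rfl fun S _ => ?_
  rw [j5500_avg_sum]
  have : ∀ T ∈ (univ : Finset (Finset (Fin M))), avg (fun u : Q M => (c S * c T) * (chi S u * chi T u)) =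
      if S = T then c S * c T else 0 := by
    intro T _
    rw [j5500_avg_mul, chi_orth]
    split_ifs <;> simp
  rw [Finset.sum_congr rfl this, Finset.sum_ite_eq]
  simp [sq]

theorem bessel_four {M : ℕ} (g : Q M → ℝ) :
    ∑ S, (four g S) ^ 2 ≤ avg (fun u => (g u) ^ 2) := by
  have h0 := j5500_avg_nonneg (fun u : Q M => (g u - ∑ S, four g S * chi S u) ^ 2) (fun u => sq_nonneg _)
  have e : (fun u : Q M => (g u - ∑ S, four g S * chi S u) ^ 2) =
      fun u => ((g u) ^ 2 - 2 * ∑ S, four g S * (g u * chi S u)) + (∑ S, four g S * chi S u) ^ 2 := by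
    funext u
    have : ∑ S, four g S * (g u * chi S u) = g u * ∑ S, four g S * chi S u := by
      rw [Finset.mul_sum]
      refine Finset.sum_congr rfl fun S _ => ?_
      ring
    rw [this]; ring
  rw [e, j5500_avg_add, j5500_avg_sub, parseval_poly, j5500_avg_mul, j5500_avg_sum] at h0
  have e2 : ∀ S ∈ (univ : Finset (Finset (Fin M))), avg (fun u : Q M => four g S * (g u * chi S u)) = (four g S) ^ 2 := by
    intro S _
    rw [j5500_avg_mul, sq]
    rfl
  rw [Finset.sum_congr rfl e2] at h0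
  linarith

end Pool.Agent.Helper86.Tri
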