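import Pool.Agent.Helper86.Tri.A2

set_option autoImplicit false

open Finset

namespace Pool.Agent.Helper86.Tri

section avgaux

variable {ι κ : Type*} [Fintype ι] [Fintype κ]

theorem avg_add_A3 (f g : ι → ℝ) : avg (fun i => f i + g i) = avg f + avg g := by
  unfold avg
  rw [Finset.sum_add_distrib, add_div]

theorem avg_sub_A3 (f g : ι → ℝ) : avg (fun i => f i - g i) = avg f - avg g := by
  unfold avg
  rw [Finset.sum_sub_distrib, sub_div]

theorem avg_const_mul' (c : ℝ) (f : ι → ℝ) : avg (fun i => c * f i) = c * avg f := by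
  unfold avg
  rw [← Finset.mul_sum, mul_div_assoc]

theorem avg_mono_A3 {f g : ι → ℝ} (h : ∀ i, f i ≤ g i) : avg f ≤ avg g := by
  unfold avg
  exact div_le_div_of_nonneg_right (Finset.sum_le_sum fun i _ => h i) (Nat.cast_nonneg _)

theorem abs_avg_le_A3 (f : ι → ℝ) : |avg f| ≤ avg (fun i => |f i|) := by
  unfold avg
  rw [abs_div, Nat.abs_cast]
  exact div_le_div_of_nonneg_right (Finset.abs_sum_le_sum_abs _ _) (Nat.cast_nonneg _)

theorem avg_comm_A3 (F : ι → κ → ℝ) : avg (fun i => avg fun j => F i j) = avg (fun j => avg fun i => F i j) := by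
  unfold avg
  rw [← Finset.sum_div, ← Finset.sum_div, Finset.sum_comm, div_div, div_div, mul_comm]

theorem avg_sum_A3 (A : Finset κ) (F : κ → ι → ℝ) : avg (fun i => ∑ j ∈ A, F j i) = ∑ j ∈ A, avg (F j) := by
  unfold avg
  rw [Finset.sum_comm, Finset.sum_div]

theorem avg_const_A3 [Nonempty ι] (c : ℝ) : avg (fun _ : ι => c) = c := by
  unfold avg
  rw [Finset.sum_const, Finset.card_univ, nsmul_eq_mul]
  have : (Fintype.card ι : ℝ) ≠ 0 := by exact_mod_cast Fintype.card_ne_zero
  field_simp

end avgaux

theorem contraction (M k : ℕ) (g : Q M → ℝ) (hg : ∀ s, |g s| ≤ 1) :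
    avg (fun u => |avg fun s => Kk M k u s * g s|) ≤ avg (fun s => |g s|) + (1 / 2) ^ (k + 1) := by
  set c : ℝ := (1 / 2) ^ (k + 1) with hc
  have hc0 : 0 < c := by positivity
  set cf : Finset (Fin M) → ℝ := fun S => if S.card ≤ k then 0 else (1 / 2) ^ S.card * four g S with hcf
  have htail : ∀ u : Q M, (avg fun s => Rk M u s * g s) - (avg fun s => Kk M k u s * g s) =
      ∑ S, cf S * chi S u := by
    intro u
    rw [← avg_sub_A3]
    have h1 : (fun s => Rk M u s * g s - Kk M k u s * g s) = fun s => ∑ S : Finset (Fin M),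
        ((if S.card ≤ k then 0 else (1 / 2) ^ S.card) * chi S u) * (g s * chi S s) := by
      funext s
      rw [← sub_mul, Rk_eq_sum, Kk, Finset.sum_filter, ← Finset.sum_sub_distrib, Finset.sum_mul]
      refine Finset.sum_congr rfl fun S _ => ?_
      split_ifs
      · ring
      · ring
    rw [h1, avg_sum_A3 Finset.univ (fun (S : Finset (Fin M)) (s : Q M) =>
      ((if S.card ≤ k then 0 else (1 / 2) ^ S.card) * chi S u) * (g s * chi S s))]
    refine Finset.sum_congr rfl fun S _ => ?_
    rw [avg_const_mul']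
    simp only [hcf, four]
    split_ifs
    · ring
    · ring
  have h1 : ∀ u : Q M, |avg fun s => Kk M k u s * g s| ≤
      (avg fun s => Rk M u s * |g s|) + ((∑ S, cf S * chi S u) ^ 2 / c + c) / 2 := by
    intro u
    have e1 : (avg fun s => Kk M k u s * g s) = (avg fun s => Rk M u s * g s) - ∑ S, cf S * chi S u := by
      linarith [htail u]
    rw [e1]
    refine (abs_sub _ _).trans ?_
    apply add_le_add
    · refine (abs_avg_le_A3 _).trans (le_of_eq ?_)
      congr 1
      funext s
      rw [abs_mul, abs_of_nonneg (Rk_nonneg M u s)]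
    · set x := ∑ S, cf S * chi S u
      have e2 : 0 ≤ (|x| - c) ^ 2 := sq_nonneg _
      have e3 : |x| ^ 2 = x ^ 2 := sq_abs x
      rw [le_div_iff₀ (by norm_num : (0:ℝ) < 2)]
      have e4 : x ^ 2 / c + c = (x ^ 2 + c ^ 2) / c := by field_simp
      rw [e4, le_div_iff₀ hc0]
      nlinarith
  refine (avg_mono_A3 h1).trans ?_
  rw [avg_add_A3]
  apply add_le_add
  · rw [avg_comm_A3 (fun u s => Rk M u s * |g s|)]
    apply le_of_eq
    congr 1
    funext s
    have e1 : (fun u => Rk M u s * |g s|) = fun u => |g s| * Rk M u s := by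
      funext u; ring
    rw [e1, avg_const_mul', Rk_avg, mul_one]
  · have e1 : (fun u : Q M => ((∑ S, cf S * chi S u) ^ 2 / c + c) / 2) =
        fun u => (1 / (2 * c)) * (∑ S, cf S * chi S u) ^ 2 + c / 2 := by
      funext u
      field_simp
    rw [e1, avg_add_A3, avg_const_mul', parseval_poly, avg_const_A3]
    have e2 : ∑ S, cf S ^ 2 ≤ c ^ 2 := by
      calc ∑ S, cf S ^ 2 ≤ ∑ S, c ^ 2 * (four g S) ^ 2 := by
            refine Finset.sum_le_sum fun S _ => ?_
            simp only [hcf]
            split_ifs with h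
            · rw [zero_pow two_ne_zero]; positivity
            · rw [mul_pow]
              apply mul_le_mul_of_nonneg_right _ (sq_nonneg _)
              apply pow_le_pow_left₀ (by positivity)
              rw [hc]
              exact pow_le_pow_of_le_one (by norm_num) (by norm_num) (by omega)
        _ = c ^ 2 * ∑ S, (four g S) ^ 2 := by rw [Finset.mul_sum]
        _ ≤ c ^ 2 * 1 := by
            apply mul_le_mul_of_nonneg_left _ (by positivity)
            refine (bessel_four g).trans ?_
            calc avg (fun u => (g u) ^ 2) ≤ avg (fun _ : Q M => (1:ℝ)) := by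
                  apply avg_mono_A3
                  intro u
                  have := hg u
                  rw [← sq_abs]
                  nlinarith [abs_nonneg (g u)]
              _ = 1 := avg_const_A3 1
        _ = c ^ 2 := mul_one _
    have e3 : 1 / (2 * c) * ∑ S, cf S ^ 2 ≤ 1 / (2 * c) * c ^ 2 :=
      mul_le_mul_of_nonneg_left e2 (by positivity)
    have e4 : 1 / (2 * c) * c ^ 2 = c / 2 := by field_simp
    linarith

end Pool.Agent.Helper86.Tri
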