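import Pool.Agent.Helper86.Tri.CubeDefs

set_option autoImplicit false

open Finset

namespace Pool.Agent.Helper86.Tri

theorem sampling {Ω ι : Type} [Fintype Ω] [Nonempty Ω] [Fintype ι] [Nonempty ι]
    (F : ι → Ω → ℝ) (B δ : ℝ) (hB : 1 ≤ B) (hF0 : ∀ i ω, 0 ≤ F i ω) (hF : ∀ i ω, F i ω ≤ B)
    (hδ : 0 < δ) (hδ1 : δ ≤ 1) (m : ℕ) (hm0 : 0 < m)
    (hm : 4 * B ^ 2 * Real.log (Fintype.card ι) / δ ^ 2 ≤ m) :
    ∃ X : Fin m → Ω, ∀ i, avg (fun j => F i (X j)) ≤ avg (F i) + δ := by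
  classical
  have hcΩ : (0 : ℝ) < Fintype.card Ω := by exact_mod_cast Fintype.card_pos
  have hcι : (0 : ℝ) < Fintype.card ι := by exact_mod_cast Fintype.card_pos
  have hmr : (0 : ℝ) < m := by exact_mod_cast hm0
  have hB0 : 0 < B := by linarith
  obtain ⟨l, hl⟩ : ∃ l : ℝ, l = δ / (2 * B ^ 2) := ⟨_, rfl⟩
  have hl0 : 0 < l := by rw [hl]; positivity
  have hlB : l * B ≤ 1 := by
    rw [hl, div_mul_eq_mul_div, div_le_one (by positivity)]
    nlinarith
  obtain ⟨Y, hY⟩ : ∃ Y : ι → Ω → ℝ, Y = fun i ω => F i ω - avg (F i) := ⟨_, rfl⟩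
  have havg0 : ∀ i, 0 ≤ avg (F i) := fun i =>
    div_nonneg (Finset.sum_nonneg fun ω _ => hF0 i ω) hcΩ.le
  have havgB : ∀ i, avg (F i) ≤ B := by
    intro i
    unfold avg
    rw [div_le_iff₀ hcΩ]
    calc ∑ ω, F i ω ≤ ∑ _ω : Ω, B := Finset.sum_le_sum fun ω _ => hF i ω
      _ = B * Fintype.card Ω := by simp [mul_comm]
  have hYabs : ∀ i ω, |Y i ω| ≤ B := by
    intro i ω
    rw [hY, abs_le]
    have h1 := hF0 i ω
    have h2 := hF i ω
    have h3 := havg0 i
    have h4 := havgB i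
    constructor <;> simp only <;> linarith
  have hYsum : ∀ i, ∑ ω, Y i ω = 0 := by
    intro i
    rw [hY]
    simp only [Finset.sum_sub_distrib, Finset.sum_const, Finset.card_univ, nsmul_eq_mul]
    unfold avg
    field_simp
    ring
  have hexp : ∀ i ω, Real.exp (l * Y i ω) ≤ 1 + l * Y i ω + l ^ 2 * B ^ 2 := by
    intro i ω
    have h1 := hYabs i ω
    have h2 : |l * Y i ω| ≤ 1 := by
      rw [abs_mul, abs_of_pos hl0]
      exact (mul_le_mul_of_nonneg_left h1 hl0.le).trans hlB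
    have h3 := Real.abs_exp_sub_one_sub_id_le h2
    have h4 := (abs_le.1 h3).2
    have h5 : (l * Y i ω) ^ 2 ≤ l ^ 2 * B ^ 2 := by
      rw [mul_pow]
      apply mul_le_mul_of_nonneg_left _ (by positivity)
      rw [← sq_abs]
      exact pow_le_pow_left₀ (abs_nonneg _) h1 2
    linarith
  have hsum1 : ∀ i, ∑ ω, Real.exp (l * Y i ω) ≤ Fintype.card Ω * Real.exp (l ^ 2 * B ^ 2) := by
    intro i
    calc ∑ ω, Real.exp (l * Y i ω) ≤ ∑ ω, (1 + l * Y i ω + l ^ 2 * B ^ 2) :=
          Finset.sum_le_sum fun ω _ => hexp i ω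
      _ = Fintype.card Ω * (1 + l ^ 2 * B ^ 2) := by
          simp only [Finset.sum_add_distrib, ← Finset.mul_sum, hYsum, Finset.sum_const,
            Finset.card_univ, nsmul_eq_mul]
          ring
      _ ≤ Fintype.card Ω * Real.exp (l ^ 2 * B ^ 2) := by
          apply mul_le_mul_of_nonneg_left _ hcΩ.le
          have := Real.add_one_le_exp (l ^ 2 * B ^ 2)
          linarith
  have hsum2 : ∀ i, ∑ X : Fin m → Ω, Real.exp (l * ∑ j, Y i (X j)) ≤
      (Fintype.card Ω * Real.exp (l ^ 2 * B ^ 2)) ^ m := by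
    intro i
    calc ∑ X : Fin m → Ω, Real.exp (l * ∑ j, Y i (X j))
        = ∑ X : Fin m → Ω, ∏ j, Real.exp (l * Y i (X j)) := by
          refine Finset.sum_congr rfl fun X _ => ?_
          rw [Finset.mul_sum, Real.exp_sum]
      _ = (∑ ω, Real.exp (l * Y i ω)) ^ m := (Fintype.sum_pow (fun ω => Real.exp (l * Y i ω)) m).symm
      _ ≤ _ := pow_le_pow_left₀ (Finset.sum_nonneg fun ω _ => (Real.exp_pos _).le) (hsum1 i) m
  have hex : ∃ X ∈ (Finset.univ : Finset (Fin m → Ω)), ∑ i, Real.exp (l * ∑ j, Y i (X j)) ≤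
      Fintype.card ι * (Real.exp (l ^ 2 * B ^ 2)) ^ m := by
    apply Finset.exists_le_of_sum_le
    · exact Finset.univ_nonempty
    · rw [Finset.sum_comm]
      calc ∑ i, ∑ X : Fin m → Ω, Real.exp (l * ∑ j, Y i (X j))
          ≤ ∑ _i : ι, (Fintype.card Ω * Real.exp (l ^ 2 * B ^ 2)) ^ m :=
            Finset.sum_le_sum fun i _ => hsum2 i
        _ = ∑ _X : Fin m → Ω, Fintype.card ι * (Real.exp (l ^ 2 * B ^ 2)) ^ m := by
            simp only [Finset.sum_const, Finset.card_univ, nsmul_eq_mul, Fintype.card_pi,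
              Finset.prod_const, Fintype.card_fin, mul_pow]
            push_cast
            ring
  obtain ⟨X, -, hX⟩ := hex
  refine ⟨X, fun i => ?_⟩
  have h1 : Real.exp (l * ∑ j, Y i (X j)) ≤ Fintype.card ι * (Real.exp (l ^ 2 * B ^ 2)) ^ m :=
    (Finset.single_le_sum (f := fun i => Real.exp (l * ∑ j, Y i (X j)))
      (fun i _ => (Real.exp_pos _).le) (Finset.mem_univ i)).trans hX
  have h2 : l * ∑ j, Y i (X j) ≤ Real.log (Fintype.card ι) + m * (l ^ 2 * B ^ 2) := by
    have h3 := Real.log_le_log (Real.exp_pos _) h1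
    rw [Real.log_exp, Real.log_mul hcι.ne' (by positivity), ← Real.exp_nat_mul, Real.log_exp] at h3
    exact h3
  have h4 : avg (fun j => F i (X j)) = avg (F i) + (∑ j, Y i (X j)) / m := by
    rw [hY]
    simp only [Finset.sum_sub_distrib, Finset.sum_const, Finset.card_univ, nsmul_eq_mul,
      Fintype.card_fin]
    unfold avg
    rw [Fintype.card_fin]
    field_simp
    ring
  rw [h4]
  have h5 : (∑ j, Y i (X j)) / m ≤ δ := by
    rw [div_le_iff₀ hmr]
    rw [div_le_iff₀ (by positivity)] at hm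
    have e1 : l * (2 * B ^ 2) = δ := by
      rw [hl]
      field_simp
    -- multiply by l
    have h6 : l * ∑ j, Y i (X j) ≤ l * (δ * m) := by
      refine h2.trans ?_
      have e2 : l ^ 2 * B ^ 2 = l * δ / 2 := by
        rw [← e1]
        ring
      rw [e2]
      have h7 : Real.log (Fintype.card ι) ≤ l * δ * m / 2 := by
        have h8 : 4 * B ^ 2 * Real.log (Fintype.card ι) ≤ 4 * B ^ 2 * (l * δ * m / 2) := by
          have e3 : 4 * B ^ 2 * (l * δ * m / 2) = (m : ℝ) * (δ * (l * (2 * B ^ 2))) := by ring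
          rw [e3, e1]
          linarith
        exact le_of_mul_le_mul_left h8 (by positivity)
      linarith
    exact le_of_mul_le_mul_left h6 hl0
  linarith

end Pool.Agent.Helper86.Tri

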