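import Pool.Agent.Helper86.Tri.A4

set_option autoImplicit false

open Finset

namespace Pool.Agent.Helper86.Tri

theorem avg_mono {ι : Type*} [Fintype ι] {f g : ι → ℝ} (h : ∀ i, f i ≤ g i) : avg f ≤ avg g := by
  unfold avg
  exact div_le_div_of_nonneg_right (Finset.sum_le_sum fun i _ => h i) (Nat.cast_nonneg _)

theorem avg_add_const {ι : Type*} [Fintype ι] [Nonempty ι] (f : ι → ℝ) (c : ℝ) :
    avg (fun i => f i + c) = avg f + c := by
  unfold avg
  have : (Fintype.card ι : ℝ) ≠ 0 := by exact_mod_cast Fintype.card_ne_zero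
  rw [Finset.sum_add_distrib, Finset.sum_const, Finset.card_univ, nsmul_eq_mul]
  field_simp

theorem abs_chi_one {M : ℕ} (S : Finset (Fin M)) (u : Q M) : |chi S u| = 1 := by
  unfold chi
  rw [Finset.abs_prod]
  apply Finset.prod_eq_one
  intro i _
  unfold sg
  split_ifs <;> simp

theorem net (M k : ℕ) (δ : ℝ) (hδ : 0 < δ) (hδ1 : δ ≤ 1) (D : ℕ)
    (hD : D = (univ.filter (fun S : Finset (Fin M) => S.card ≤ k)).card) (m : ℕ) (hm0 : 0 < m)
    (hm : 160 * (D : ℝ) ^ 4 / δ ^ 3 ≤ m) :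
    ∃ X : Fin m → Q M, ∀ c : Finset (Fin M) → ℝ, (∀ S, |c S| ≤ 1) →
      avg (fun j => |∑ S ∈ univ.filter (fun S : Finset (Fin M) => S.card ≤ k), c S * chi S (X j)|)
        ≤ avg (fun u : Q M =>
          |∑ S ∈ univ.filter (fun S : Finset (Fin M) => S.card ≤ k), c S * chi S u|) + δ := by
  classical
  set T : Finset (Finset (Fin M)) := univ.filter (fun S : Finset (Fin M) => S.card ≤ k) with hT
  have hD1 : 1 ≤ D := by
    rw [hD, Nat.one_le_iff_ne_zero, ← Nat.pos_iff_ne_zero, Finset.card_pos]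
    exact ⟨∅, by simp [hT]⟩
  have hDr : (1 : ℝ) ≤ D := by exact_mod_cast hD1
  set L : ℕ := ⌈4 * (D : ℝ) / δ⌉₊ with hL
  have hDδ : (1 : ℝ) ≤ D / δ := by
    rw [le_div_iff₀ hδ]; linarith
  have hL1 : 4 * (D : ℝ) / δ ≤ L := Nat.le_ceil _
  have hL2 : (L : ℝ) ≤ 5 * (D / δ) := by
    have h1 : (L : ℝ) < 4 * (D : ℝ) / δ + 1 := Nat.ceil_lt_add_one (by positivity)
    have h2 : 4 * (D : ℝ) / δ = 4 * (D / δ) := by ring
    linarith
  have hLpos : (0 : ℝ) < L := by
    have : 0 < 4 * (D : ℝ) / δ := by positivity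
    linarith
  have hDL : (D : ℝ) / L ≤ δ / 4 := by
    rw [div_le_iff₀ hLpos]
    rw [div_le_iff₀ hδ] at hL1
    linarith
  let coef : ((↥T) → Fin (2 * L + 1)) → (↥T) → ℝ := fun z S => (((z S : ℕ) : ℝ) - L) / L
  have hcoef : ∀ z S, |coef z S| ≤ 1 := by
    intro z S
    have h1 : ((z S : ℕ) : ℝ) ≤ 2 * L := by
      have := (z S).2
      have h2 : ((z S : ℕ)) ≤ 2 * L := by omega
      exact_mod_cast h2
    have h0 : (0 : ℝ) ≤ ((z S : ℕ) : ℝ) := Nat.cast_nonneg _
    show |(((z S : ℕ) : ℝ) - L) / L| ≤ 1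
    rw [abs_div, abs_of_pos hLpos, div_le_one hLpos, abs_le]
    constructor <;> linarith
  let F : ((↥T) → Fin (2 * L + 1)) → Q M → ℝ := fun z u => |∑ S : ↥T, coef z S * chi S.1 u|
  have hcard : Fintype.card ((↥T) → Fin (2 * L + 1)) = (2 * L + 1) ^ D := by
    rw [Fintype.card_fun, Fintype.card_fin, Fintype.card_coe, ← hD]
  have hsum : ∀ (a : (↥T) → ℝ) (r : ℝ), (∀ S, |a S| ≤ r) → ∀ u : Q M,
      |∑ S : ↥T, a S * chi S.1 u| ≤ D * r := by
    intro a r ha u
    calc |∑ S : ↥T, a S * chi S.1 u| ≤ ∑ S : ↥T, |a S * chi S.1 u| := Finset.abs_sum_le_sum_abs _ _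
      _ ≤ ∑ S : ↥T, r := by
          apply Finset.sum_le_sum
          intro S _
          rw [abs_mul, abs_chi_one, mul_one]
          exact ha S
      _ = D * r := by
          rw [Finset.sum_const, Finset.card_univ, Fintype.card_coe, ← hD, nsmul_eq_mul]
  obtain ⟨X, hX⟩ := sampling F D (δ / 2) hDr (fun z u => abs_nonneg _)
    (fun z u => by
      have := hsum (coef z) 1 (hcoef z) u
      rwa [mul_one] at this) (by positivity) (by linarith) m hm0 (by
      refine le_trans ?_ hm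
      rw [hcard]
      push_cast
      rw [Real.log_pow]
      have h1 : Real.log (2 * (L : ℝ) + 1) ≤ 10 * (D / δ) := by
        have := Real.log_le_sub_one_of_pos (show (0 : ℝ) < 2 * L + 1 by positivity)
        linarith
      calc 4 * (D : ℝ) ^ 2 * (D * Real.log (2 * (L : ℝ) + 1)) / (δ / 2) ^ 2
          ≤ 4 * (D : ℝ) ^ 2 * (D * (10 * (D / δ))) / (δ / 2) ^ 2 := by gcongr
        _ = _ := by field_simp; ring)
  refine ⟨X, fun c hc => ?_⟩
  -- rounding
  have hfl : ∀ S : ↥T, ⌊(c S.1 + 1) * L⌋₊ < 2 * L + 1 := by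
    intro S
    rw [Nat.lt_succ_iff]
    have h1 := (abs_le.1 (hc S.1)).2
    apply Nat.floor_le_of_le
    push_cast
    nlinarith
  let z : (↥T) → Fin (2 * L + 1) := fun S => ⟨⌊(c S.1 + 1) * L⌋₊, hfl S⟩
  have hz : ∀ S : ↥T, |c S.1 - coef z S| ≤ 1 / L := by
    intro S
    have h1 := (abs_le.1 (hc S.1)).1
    have h2 : (0 : ℝ) ≤ (c S.1 + 1) * L := mul_nonneg (by linarith) hLpos.le
    have h3 := Nat.floor_le h2
    have h4 := Nat.lt_floor_add_one ((c S.1 + 1) * (L : ℝ))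
    have e : c S.1 - coef z S = ((c S.1 + 1) * L - (⌊(c S.1 + 1) * (L : ℝ)⌋₊ : ℝ)) / L := by
      show c S.1 - ((⌊(c S.1 + 1) * (L : ℝ)⌋₊ : ℝ) - L) / L = _
      field_simp
      ring
    rw [e, abs_div, abs_of_pos hLpos]
    apply div_le_div_of_nonneg_right _ hLpos.le
    rw [abs_le]
    constructor <;> linarith
  have hconv : ∀ u : Q M, ∑ S ∈ T, c S * chi S u = ∑ S : ↥T, c S.1 * chi S.1 u := by
    intro u
    exact (Finset.sum_coe_sort T (fun S => c S * chi S u)).symm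
  have hclose : ∀ u : Q M, |(∑ S ∈ T, c S * chi S u) - ∑ S : ↥T, coef z S * chi S.1 u| ≤ δ / 4 := by
    intro u
    rw [hconv, ← Finset.sum_sub_distrib]
    have h1 := hsum (fun S => c S.1 - coef z S) (1 / L) hz u
    have h2 : (∑ S : ↥T, (c S.1 * chi S.1 u - coef z S * chi S.1 u)) =
        ∑ S : ↥T, (c S.1 - coef z S) * chi S.1 u := by
      apply Finset.sum_congr rfl
      intro S _
      ring
    rw [h2]
    refine h1.trans ?_
    rw [mul_one_div]
    exact hDL
  have : Nonempty (Fin m) := ⟨⟨0, hm0⟩⟩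
  calc avg (fun j => |∑ S ∈ T, c S * chi S (X j)|) ≤ avg (fun j => F z (X j) + δ / 4) := by
        apply avg_mono
        intro j
        have h1 := hclose (X j)
        have h2 := abs_sub_abs_le_abs_sub (∑ S ∈ T, c S * chi S (X j))
          (∑ S : ↥T, coef z S * chi S.1 (X j))
        show _ ≤ |∑ S : ↥T, coef z S * chi S.1 (X j)| + δ / 4
        linarith
    _ = avg (fun j => F z (X j)) + δ / 4 := avg_add_const _ _
    _ ≤ avg (F z) + δ / 2 + δ / 4 := by linarith [hX z]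
    _ ≤ avg (fun u : Q M => |∑ S ∈ T, c S * chi S u| + δ / 4) + δ / 2 + δ / 4 := by
        have : avg (F z) ≤ avg (fun u : Q M => |∑ S ∈ T, c S * chi S u| + δ / 4) := by
          apply avg_mono
          intro u
          have h1 := hclose u
          have h2 := abs_sub_abs_le_abs_sub (∑ S : ↥T, coef z S * chi S.1 u)
            (∑ S ∈ T, c S * chi S u)
          rw [abs_sub_comm] at h2
          show |∑ S : ↥T, coef z S * chi S.1 u| ≤ _
          linarith
        linarith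
    _ = avg (fun u : Q M => |∑ S ∈ T, c S * chi S u|) + δ / 4 + δ / 2 + δ / 4 := by
        rw [avg_add_const]
    _ = _ := by ring

end Pool.Agent.Helper86.Tri
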