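import Pool.Agent.Helper86.Tri.CubeDefs

set_option autoImplicit false

open Finset

namespace Pool.Agent.Helper86.Tri

theorem avg_exp (M : ℕ) (l : ℝ) (u : Q M) :
    avg (fun s : Q M => Real.exp (l * ∑ i, sg (u i) * sg (s i))) = Real.cosh l ^ M := by
  unfold avg
  have h1 : ∀ s : Q M, Real.exp (l * ∑ i, sg (u i) * sg (s i)) =
      ∏ i, Real.exp (l * (sg (u i) * sg (s i))) := by
    intro s
    rw [Finset.mul_sum, Real.exp_sum]
  have h2 : ∀ i : Fin M, ∑ b : Bool, Real.exp (l * (sg (u i) * sg b)) = 2 * Real.cosh l := by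
    intro i
    rw [Fintype.sum_bool, Real.cosh_eq]
    cases u i <;> simp [sg] <;> ring
  have h3 : ∑ s : Q M, ∏ i, Real.exp (l * (sg (u i) * sg (s i))) = (2 * Real.cosh l) ^ M := by
    have := Finset.prod_univ_sum (fun _ : Fin M => (Finset.univ : Finset Bool))
      (fun i b => Real.exp (l * (sg (u i) * sg b)))
    rw [Fintype.piFinset_univ] at this
    rw [← this, Finset.prod_congr rfl (fun i _ => h2 i), Finset.prod_const, Finset.card_univ,
      Fintype.card_fin]
  rw [Finset.sum_congr rfl (fun s _ => h1 s), h3, Fintype.card_fun, Fintype.card_bool,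
    Fintype.card_fin, mul_pow]
  push_cast
  field_simp

theorem bad_set (M : ℕ) (a : ℝ) (ha : 0 < a) (u : Q M) :
    avg (fun s : Q M => if a * M < |∑ i, sg (u i) * sg (s i)| then (1 : ℝ) else 0)
      ≤ 2 * Real.exp (-(a ^ 2 * M / 2)) := by
  have h1 : avg (fun s : Q M => if a * M < |∑ i, sg (u i) * sg (s i)| then (1 : ℝ) else 0) ≤
      Real.exp (-(a ^ 2 * M)) * avg (fun s : Q M => Real.exp (a * ∑ i, sg (u i) * sg (s i))) +
      Real.exp (-(a ^ 2 * M)) *
        avg (fun s : Q M => Real.exp ((-a) * ∑ i, sg (u i) * sg (s i))) := by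
    unfold avg
    rw [← mul_add, ← add_div, ← Finset.sum_add_distrib, ← mul_div_assoc, Finset.mul_sum]
    apply div_le_div_of_nonneg_right _ (Nat.cast_nonneg _)
    apply Finset.sum_le_sum
    intro s _
    set X := ∑ i, sg (u i) * sg (s i)
    split_ifs with h
    · rw [mul_add, ← Real.exp_add, ← Real.exp_add]
      rcases lt_abs.1 h with h2 | h2
      · have h3 : 0 ≤ -(a ^ 2 * M) + a * X := by nlinarith
        have h4 := Real.one_le_exp h3
        have h5 := (Real.exp_pos (-(a ^ 2 * M) + -a * X)).le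
        linarith
      · have h3 : 0 ≤ -(a ^ 2 * M) + -a * X := by nlinarith
        have h4 := Real.one_le_exp h3
        have h5 := (Real.exp_pos (-(a ^ 2 * M) + a * X)).le
        linarith
    · positivity
  rw [avg_exp, avg_exp, Real.cosh_neg] at h1
  refine h1.trans ?_
  have h2 : Real.cosh a ^ M ≤ Real.exp (a ^ 2 * M / 2) := by
    have h3 : Real.exp (a ^ 2 * M / 2) = Real.exp (a ^ 2 / 2) ^ M := by
      rw [← Real.exp_nat_mul]
      congr 1
      ring
    rw [h3]
    exact pow_le_pow_left₀ (Real.cosh_pos a).le (Real.cosh_le_exp_half_sq a) M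
  have h4 : Real.exp (-(a ^ 2 * M)) * Real.exp (a ^ 2 * M / 2) =
      Real.exp (-(a ^ 2 * M / 2)) := by
    rw [← Real.exp_add]
    congr 1
    ring
  have h5 := mul_le_mul_of_nonneg_left h2 (Real.exp_pos (-(a ^ 2 * M))).le
  rw [h4] at h5
  linarith

end Pool.Agent.Helper86.Tri
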