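import Pool.Agent.Helper86.Tri.CubeDefs

set_option autoImplicit false

open Finset

namespace Pool.Agent.Helper86.Tri

theorem card_low (M k : ℕ) :
    (univ.filter (fun S : Finset (Fin M) => S.card ≤ k)).card ≤ (M + 1) ^ k := by
  have h1 : (univ.filter (fun S : Finset (Fin M) => S.card ≤ k)) ⊆
      (Finset.range (k + 1)).biUnion (fun i => Finset.powersetCard i (univ : Finset (Fin M))) := by
    intro S hS
    rw [Finset.mem_filter] at hS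
    rw [Finset.mem_biUnion]
    exact ⟨S.card, Finset.mem_range.mpr (Nat.lt_succ_of_le hS.2), Finset.mem_powersetCard.mpr ⟨Finset.subset_univ _, rfl⟩⟩
  calc (univ.filter (fun S : Finset (Fin M) => S.card ≤ k)).card
      ≤ ((Finset.range (k + 1)).biUnion (fun i => Finset.powersetCard i (univ : Finset (Fin M)))).card :=
        Finset.card_le_card h1
    _ ≤ ∑ i ∈ Finset.range (k + 1), (Finset.powersetCard i (univ : Finset (Fin M))).card := Finset.card_biUnion_le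
    _ = ∑ i ∈ Finset.range (k + 1), M.choose i := by
        refine Finset.sum_congr rfl fun i _ => ?_
        rw [Finset.card_powersetCard, Finset.card_univ, Fintype.card_fin]
    _ ≤ ∑ i ∈ Finset.range (k + 1), M ^ i * 1 ^ (k - i) * k.choose i := by
        refine Finset.sum_le_sum fun i hi => ?_
        have h2 : 1 ≤ k.choose i := Nat.choose_pos (Nat.lt_succ_iff.mp (Finset.mem_range.mp hi))
        calc M.choose i ≤ M ^ i := Nat.choose_le_pow M i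
          _ = M ^ i * 1 ^ (k - i) * 1 := by simp
          _ ≤ M ^ i * 1 ^ (k - i) * k.choose i := Nat.mul_le_mul_left _ h2
    _ = (M + 1) ^ k := by rw [add_pow]; simp

theorem choose_M (k : ℕ) (a δ : ℝ) (ha : 0 < a) (hδ : 0 < δ) :
    ∃ M : ℕ, 0 < M ∧ ∀ D : ℕ, D ≤ (M + 1) ^ k → 
      (160 * (D : ℝ) ^ 4 / δ ^ 3 + 2) * (2 * Real.exp (-(a ^ 2 * M / 2))) * D ≤ 1 / 4 := by
  have ha2 : 0 < a ^ 2 / 2 := by positivity
  have hlim := Real.tendsto_pow_mul_exp_neg_atTop_nhds_zero (5 * k)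
  have hx : Filter.Tendsto (fun M : ℕ => a ^ 2 / 2 * ((M : ℝ) + 1)) Filter.atTop Filter.atTop := by
    apply Filter.Tendsto.const_mul_atTop ha2
    exact Filter.tendsto_atTop_add_const_right _ _ tendsto_natCast_atTop_atTop
  have hlim2 := (hlim.comp hx).const_mul ((160 / δ ^ 3 + 2) * 2 * (Real.exp (a ^ 2 / 2) / (a ^ 2 / 2) ^ (5 * k)))
  rw [mul_zero] at hlim2
  have hev := hlim2.eventually (gt_mem_nhds (show (0 : ℝ) < 1 / 4 by norm_num))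
  obtain ⟨M, hM, hM0⟩ := (hev.and (Filter.eventually_gt_atTop 0)).exists
  refine ⟨M, hM0, fun D hD => ?_⟩
  have hD' : (D : ℝ) ≤ ((M : ℝ) + 1) ^ k := by exact_mod_cast hD
  have hDnn : (0 : ℝ) ≤ D := Nat.cast_nonneg _
  have hM1 : (1 : ℝ) ≤ (M : ℝ) + 1 := by
    have : (0 : ℝ) ≤ M := Nat.cast_nonneg _
    linarith
  have hB : (1 : ℝ) ≤ (((M : ℝ) + 1) ^ k) ^ 4 := one_le_pow₀ (one_le_pow₀ hM1)
  simp only [Function.comp_apply] at hM
  have h1 : (160 * (D : ℝ) ^ 4 / δ ^ 3 + 2) ≤ (160 / δ ^ 3 + 2) * (((M : ℝ) + 1) ^ k) ^ 4 := by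
    have h2 : 160 * (D : ℝ) ^ 4 / δ ^ 3 ≤ 160 * (((M : ℝ) + 1) ^ k) ^ 4 / δ ^ 3 := by gcongr
    calc 160 * (D : ℝ) ^ 4 / δ ^ 3 + 2 ≤ 160 * (((M : ℝ) + 1) ^ k) ^ 4 / δ ^ 3 + 2 * (((M : ℝ) + 1) ^ k) ^ 4 := by
          linarith
      _ = (160 / δ ^ 3 + 2) * (((M : ℝ) + 1) ^ k) ^ 4 := by ring
  have hpos1 : (0 : ℝ) ≤ 160 * (D : ℝ) ^ 4 / δ ^ 3 + 2 := by positivity
  have hexp : Real.exp (-(a ^ 2 * M / 2)) = Real.exp (a ^ 2 / 2) * Real.exp (-(a ^ 2 / 2 * ((M : ℝ) + 1))) := by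
    rw [← Real.exp_add]
    congr 1
    ring
  have h3 : (160 * (D : ℝ) ^ 4 / δ ^ 3 + 2) * (2 * Real.exp (-(a ^ 2 * M / 2))) * D ≤
      ((160 / δ ^ 3 + 2) * (((M : ℝ) + 1) ^ k) ^ 4) * (2 * Real.exp (-(a ^ 2 * M / 2))) * ((M : ℝ) + 1) ^ k := by
    gcongr
  have h4 : ((160 / δ ^ 3 + 2) * (((M : ℝ) + 1) ^ k) ^ 4) * (2 * Real.exp (-(a ^ 2 * M / 2))) * ((M : ℝ) + 1) ^ k =
      (160 / δ ^ 3 + 2) * 2 * (Real.exp (a ^ 2 / 2) / (a ^ 2 / 2) ^ (5 * k)) *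
        ((a ^ 2 / 2 * ((M : ℝ) + 1)) ^ (5 * k) * Real.exp (-(a ^ 2 / 2 * ((M : ℝ) + 1)))) := by
    rw [hexp, mul_pow (a ^ 2 / 2)]
    have h5 : (((M : ℝ) + 1) ^ k) ^ 4 * ((M : ℝ) + 1) ^ k = ((M : ℝ) + 1) ^ (5 * k) := by
      rw [← pow_mul, ← pow_add]
      congr 1
      ring
    have h6 : (a ^ 2 / 2) ^ (5 * k) ≠ 0 := by positivity
    rw [← h5]
    generalize Real.exp (-(a ^ 2 / 2 * ((M : ℝ) + 1))) = E
    generalize Real.exp (a ^ 2 / 2) = F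
    generalize (a ^ 2 / 2) ^ (5 * k) = G at *
    field_simp
  rw [h4] at h3
  exact h3.trans hM.le

end Pool.Agent.Helper86.Tri
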