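import Pool.Agent.Helper86.Tri.A1
import Pool.Agent.Helper86.Tri.A2
import Pool.Agent.Helper86.Tri.A3
import Pool.Agent.Helper86.Tri.A5
import Pool.Agent.Helper86.Tri.A6
import Pool.Agent.Helper86.Tri.A7

set_option autoImplicit false

open Finset

namespace Pool.Agent.Helper86.Tri

theorem avg_mul_left_A8 {ι : Type*} [Fintype ι] (c : ℝ) (f : ι → ℝ) :
    avg (fun i => c * f i) = c * avg f := by
  unfold avg
  rw [← Finset.mul_sum, mul_div_assoc]

theorem avg_sum_A8 {ι κ : Type*} [Fintype ι] (s : Finset κ) (f : κ → ι → ℝ) :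
    avg (fun i => ∑ k ∈ s, f k i) = ∑ k ∈ s, avg (f k) := by
  unfold avg
  rw [Finset.sum_comm, Finset.sum_div]

theorem avg_sub_A8 {ι : Type*} [Fintype ι] (f g : ι → ℝ) :
    avg (fun i => f i - g i) = avg f - avg g := by
  unfold avg
  rw [Finset.sum_sub_distrib, sub_div]

theorem avg_mono_A8 {ι : Type*} [Fintype ι] (f g : ι → ℝ) (h : ∀ i, f i ≤ g i) :
    avg f ≤ avg g := by
  unfold avg
  exact div_le_div_of_nonneg_right (Finset.sum_le_sum fun i _ => h i) (Nat.cast_nonneg _)

theorem avg_const_A8 {ι : Type*} [Fintype ι] [Nonempty ι] (c : ℝ) :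
    avg (fun _ : ι => c) = c := by
  unfold avg
  rw [Finset.sum_const, Finset.card_univ, nsmul_eq_mul, mul_div_cancel_left₀]
  exact_mod_cast Fintype.card_ne_zero

theorem abs_avg_le_A8 {ι : Type*} [Fintype ι] (f : ι → ℝ) : |avg f| ≤ avg (fun i => |f i|) := by
  unfold avg
  rw [abs_div, Nat.abs_cast]
  exact div_le_div_of_nonneg_right (Finset.abs_sum_le_sum_abs _ _) (Nat.cast_nonneg _)

theorem abs_avg_le_one' {ι : Type*} [Fintype ι] (f : ι → ℝ) (h : ∀ i, |f i| ≤ 1) :
    |avg f| ≤ 1 := by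
  rcases isEmpty_or_nonempty ι with hι | hι
  · unfold avg
    simp
  · exact (abs_avg_le_A8 f).trans ((avg_mono_A8 _ _ h).trans (avg_const_A8 1).le)

theorem avg_comm_A8 {ι κ : Type*} [Fintype ι] [Fintype κ] (f : ι → κ → ℝ) :
    avg (fun i => avg (fun k => f i k)) = avg (fun k => avg (fun i => f i k)) := by
  unfold avg
  rw [← Finset.sum_div, ← Finset.sum_div, Finset.sum_comm, div_right_comm]

theorem abs_sg' (b : Bool) : |sg b| = 1 := by
  unfold sg
  cases b <;> simp

theorem sg_mul_self' (b : Bool) : sg b * sg b = 1 := by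
  unfold sg
  cases b <;> simp

theorem abs_chi' {M : ℕ} (S : Finset (Fin M)) (u : Q M) : |chi S u| = 1 := by
  unfold chi
  rw [Finset.abs_prod]
  apply Finset.prod_eq_one
  intro i _
  exact abs_sg' _

theorem chi_single' {M : ℕ} (i : Fin M) (u : Q M) : chi {i} u = sg (u i) := by
  unfold chi
  rw [Finset.prod_singleton]

theorem half_pow_le_one' (n : ℕ) : |((1 : ℝ) / 2) ^ n| ≤ 1 := by
  rw [abs_of_nonneg (by positivity)]
  exact pow_le_one₀ (by norm_num) (by norm_num)

theorem avg_Kk_sg' {M k : ℕ} (hk : 1 ≤ k) (u : Q M) (i : Fin M) :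
    avg (fun s => Kk M k u s * sg (s i)) = 1 / 2 * sg (u i) := by
  have h1 : (fun s : Q M => Kk M k u s * sg (s i)) = fun s =>
      ∑ S ∈ univ.filter (fun S : Finset (Fin M) => S.card ≤ k),
        ((1 / 2) ^ S.card * chi S u) * (chi S s * chi {i} s) := by
    funext s
    unfold Kk
    rw [Finset.sum_mul]
    apply Finset.sum_congr rfl
    intro S _
    rw [chi_single']
    ring
  rw [h1, avg_sum_A8]
  have h2 : ∀ S : Finset (Fin M), avg (fun s => ((1 / 2) ^ S.card * chi S u) * (chi S s * chi {i} s))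
      = ((1 / 2) ^ S.card * chi S u) * (if S = {i} then 1 else 0) := by
    intro S
    rw [avg_mul_left_A8, chi_orth]
  rw [Finset.sum_congr rfl fun S _ => h2 S, Finset.sum_eq_single {i}]
  · rw [if_pos rfl, Finset.card_singleton, chi_single', pow_one, mul_one]
  · intro S _ hS
    rw [if_neg hS, mul_zero]
  · intro h
    exact absurd (Finset.mem_filter.2 ⟨Finset.mem_univ _, by rw [Finset.card_singleton]; exact hk⟩) h

theorem avg_Kk_half' {M k : ℕ} (hM : 0 < M) (hk : 1 ≤ k) (u : Q M) :
    avg (fun s => Kk M k u s * avg fun i => sg (u i) * sg (s i)) = 1 / 2 := by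
  have h1 : (fun s : Q M => Kk M k u s * avg fun i => sg (u i) * sg (s i)) = fun s =>
      avg fun i => sg (u i) * (Kk M k u s * sg (s i)) := by
    funext s
    rw [← avg_mul_left_A8]
    congr 1
    funext i
    ring
  rw [h1, avg_comm_A8]
  have h2 : (fun i : Fin M => avg fun s => sg (u i) * (Kk M k u s * sg (s i)))
      = fun _ => (1 / 2 : ℝ) := by
    funext i
    rw [avg_mul_left_A8, avg_Kk_sg' hk]
    have := sg_mul_self' (u i)
    linear_combination (1 / 2) * this
  rw [h2]
  have : Nonempty (Fin M) := ⟨⟨0, hM⟩⟩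
  exact avg_const_A8 _

theorem abs_Kk' {M k : ℕ} (u s : Q M) :
    |Kk M k u s| ≤ (univ.filter (fun S : Finset (Fin M) => S.card ≤ k)).card := by
  unfold Kk
  apply (Finset.abs_sum_le_sum_abs _ _).trans
  calc ∑ S ∈ univ.filter (fun S : Finset (Fin M) => S.card ≤ k),
        |(1 / 2) ^ S.card * (chi S u * chi S s)|
      ≤ ∑ _S ∈ univ.filter (fun S : Finset (Fin M) => S.card ≤ k), (1 : ℝ) := by
        apply Finset.sum_le_sum
        intro S _
        rw [abs_mul, abs_mul, abs_chi', abs_chi', mul_one, mul_one]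
        exact half_pow_le_one' _
    _ = _ := by rw [Finset.sum_const, nsmul_eq_mul, mul_one]

theorem avg_Kk_g' {M k : ℕ} (g : Q M → ℝ) (u : Q M) :
    avg (fun s => Kk M k u s * g s) =
      ∑ S ∈ univ.filter (fun S : Finset (Fin M) => S.card ≤ k),
        ((1 / 2) ^ S.card * four g S) * chi S u := by
  have h1 : (fun s : Q M => Kk M k u s * g s) = fun s =>
      ∑ S ∈ univ.filter (fun S : Finset (Fin M) => S.card ≤ k),
        ((1 / 2) ^ S.card * chi S u) * (g s * chi S s) := by
    funext s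
    unfold Kk
    rw [Finset.sum_mul]
    apply Finset.sum_congr rfl
    intro S _
    ring
  rw [h1, avg_sum_A8]
  apply Finset.sum_congr rfl
  intro S _
  rw [avg_mul_left_A8]
  unfold four
  ring

/-- Fake kernels, cube version. -/
theorem fake_cube (δ a : ℝ) (hδ : 0 < δ) (ha : 0 < a) :
    ∃ (M m : ℕ) (K : Fin m → Q M → ℝ) (α : Fin M → Fin m → ℝ) (φ : Fin M → Q M → ℝ),
      0 < M ∧ 0 < m ∧ (∀ i j, |α i j| ≤ 1) ∧ (∀ i s, |φ i s| ≤ 1) ∧
      (∀ g : Q M → ℝ, (∀ s, |g s| ≤ 1) →
        avg (fun j => |avg fun s => K j s * g s|) ≤ avg (fun s => |g s|) + δ) ∧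
      (∀ j s, |avg fun i => α i j * φ i s| ≤ a) ∧
      1 / 4 ≤ avg fun j => avg fun s => K j s * avg fun i => α i j * φ i s := by
  classical
  obtain ⟨k, hk1, hk⟩ : ∃ k : ℕ, 1 ≤ k ∧ ((1 : ℝ) / 2) ^ (k + 1) ≤ δ / 2 := by
    obtain ⟨n, hn⟩ := exists_pow_lt_of_lt_one (half_pos hδ) (by norm_num : (1 : ℝ) / 2 < 1)
    refine ⟨n + 1, by omega, ?_⟩
    have h1 : ((1 : ℝ) / 2) ^ (n + 1 + 1) ≤ (1 / 2) ^ n :=
      pow_le_pow_of_le_one (by norm_num) (by norm_num) (by omega)
    linarith
  obtain ⟨d, hd⟩ : ∃ d, d = min (δ / 2) 1 := ⟨_, rfl⟩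
  have hd0 : 0 < d := by rw [hd]; exact lt_min (half_pos hδ) one_pos
  have hd1 : d ≤ 1 := by rw [hd]; exact min_le_right _ _
  have hdδ : d ≤ δ / 2 := by rw [hd]; exact min_le_left _ _
  obtain ⟨M, hM, hMD⟩ := choose_M k a d ha hd0
  obtain ⟨D, hD⟩ : ∃ D, D = (univ.filter (fun S : Finset (Fin M) => S.card ≤ k)).card := ⟨_, rfl⟩
  have hDM : D ≤ (M + 1) ^ k := by rw [hD]; exact card_low M k
  have hMD' := hMD D hDM
  obtain ⟨m, hm⟩ : ∃ m, m = ⌈160 * (D : ℝ) ^ 4 / d ^ 3⌉₊ + 1 := ⟨_, rfl⟩
  have hm0 : 0 < m := by rw [hm]; omega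
  have hm1 : 160 * (D : ℝ) ^ 4 / d ^ 3 ≤ m := by
    rw [hm]
    push_cast
    have := Nat.le_ceil (160 * (D : ℝ) ^ 4 / d ^ 3)
    linarith
  have hm2 : (m : ℝ) ≤ 160 * (D : ℝ) ^ 4 / d ^ 3 + 2 := by
    rw [hm]
    push_cast
    have := Nat.ceil_lt_add_one (a := 160 * (D : ℝ) ^ 4 / d ^ 3) (by positivity)
    linarith
  obtain ⟨X, hX⟩ := net M k d hd0 hd1 D hD m hm0 hm1
  obtain ⟨bad, hbad⟩ : ∃ bad : Q M → Prop, bad = fun s =>
      ∃ j, a * M < |∑ i, sg (X j i) * sg (s i)| := ⟨_, rfl⟩
  have hM' : (0 : ℝ) < M := by exact_mod_cast hM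
  refine ⟨M, m, fun j s => Kk M k (X j) s, fun i j => sg (X j i),
    fun i s => if bad s then 0 else sg (s i), hM, hm0, ?_, ?_, ?_, ?_, ?_⟩
  · intro i j
    exact (abs_sg' _).le
  · intro i s
    show |if bad s then 0 else sg (s i)| ≤ 1
    split_ifs
    · simp
    · exact (abs_sg' _).le
  · intro g hg
    obtain ⟨c, hc⟩ : ∃ c : Finset (Fin M) → ℝ, c = fun S => (1 / 2) ^ S.card * four g S := ⟨_, rfl⟩
    have hc1 : ∀ S, |c S| ≤ 1 := by
      intro S
      rw [hc]
      show |(1 / 2) ^ S.card * four g S| ≤ 1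
      rw [abs_mul]
      have h1 : |four g S| ≤ 1 := by
        unfold four
        apply abs_avg_le_one'
        intro s
        rw [abs_mul, abs_chi', mul_one]
        exact hg s
      have h2 := half_pow_le_one' S.card
      calc |((1 : ℝ) / 2) ^ S.card| * |four g S| ≤ 1 * 1 :=
            mul_le_mul h2 h1 (abs_nonneg _) zero_le_one
        _ = 1 := one_mul 1
    have h1 := hX c hc1
    have h2 := contraction M k g hg
    have h3 : ∀ u : Q M, avg (fun s => Kk M k u s * g s) =
        ∑ S ∈ univ.filter (fun S : Finset (Fin M) => S.card ≤ k), c S * chi S u := by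
      intro u
      rw [avg_Kk_g', hc]
    have h4 : avg (fun j => |avg fun s => Kk M k (X j) s * g s|)
        = avg (fun j => |∑ S ∈ univ.filter (fun S : Finset (Fin M) => S.card ≤ k),
          c S * chi S (X j)|) := by
      congr 1
      funext j
      rw [h3]
    have h5 : avg (fun u => |avg fun s => Kk M k u s * g s|)
        = avg (fun u : Q M => |∑ S ∈ univ.filter (fun S : Finset (Fin M) => S.card ≤ k),
          c S * chi S u|) := by
      congr 1
      funext u
      rw [h3]
    rw [h5] at h2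
    show avg (fun j => |avg fun s => Kk M k (X j) s * g s|) ≤ _
    rw [h4]
    linarith
  · intro j s
    show |avg fun i => sg (X j i) * (if bad s then 0 else sg (s i))| ≤ a
    by_cases hs : bad s
    · simp only [if_pos hs, mul_zero]
      unfold avg
      simp [ha.le]
    · simp only [if_neg hs]
      have h1 : ¬ a * M < |∑ i, sg (X j i) * sg (s i)| := by
        intro h
        apply hs
        rw [hbad]
        exact ⟨j, h⟩
      rw [not_lt] at h1
      unfold avg
      rw [abs_div, Fintype.card_fin, Nat.abs_cast, div_le_iff₀ hM']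
      exact h1
  · haveI : Nonempty (Fin m) := ⟨⟨0, hm0⟩⟩
    have hPbad : avg (fun s : Q M => if bad s then (1 : ℝ) else 0)
        ≤ m * (2 * Real.exp (-(a ^ 2 * M / 2))) := by
      have h1 : ∀ s : Q M, (if bad s then (1 : ℝ) else 0) ≤
          ∑ j : Fin m, if a * M < |∑ i, sg (X j i) * sg (s i)| then (1 : ℝ) else 0 := by
        intro s
        split_ifs with hs
        · rw [hbad] at hs
          obtain ⟨j, hj⟩ := hs
          calc (1 : ℝ) = if a * M < |∑ i, sg (X j i) * sg (s i)| then (1 : ℝ) else 0 := by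
                rw [if_pos hj]
            _ ≤ _ := Finset.single_le_sum (f := fun j : Fin m =>
                if a * M < |∑ i, sg (X j i) * sg (s i)| then (1 : ℝ) else 0)
                (fun j _ => by split_ifs <;> norm_num) (Finset.mem_univ j)
        · apply Finset.sum_nonneg
          intro j _
          split_ifs <;> norm_num
      apply (avg_mono_A8 _ _ h1).trans
      rw [avg_sum_A8]
      calc ∑ j : Fin m, avg (fun s : Q M =>
            if a * M < |∑ i, sg (X j i) * sg (s i)| then (1 : ℝ) else 0)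
          ≤ ∑ _j : Fin m, 2 * Real.exp (-(a ^ 2 * M / 2)) :=
            Finset.sum_le_sum fun j _ => bad_set M a ha (X j)
        _ = _ := by rw [Finset.sum_const, Finset.card_univ, Fintype.card_fin, nsmul_eq_mul]
    have hD0 : (0 : ℝ) ≤ D := Nat.cast_nonneg D
    have hfin : (D : ℝ) * (m * (2 * Real.exp (-(a ^ 2 * M / 2)))) ≤ 1 / 4 := by
      have h1 : 0 ≤ 2 * Real.exp (-(a ^ 2 * M / 2)) := by positivity
      have h2 : (m : ℝ) * (2 * Real.exp (-(a ^ 2 * M / 2))) ≤
          (160 * (D : ℝ) ^ 4 / d ^ 3 + 2) * (2 * Real.exp (-(a ^ 2 * M / 2))) :=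
        mul_le_mul_of_nonneg_right hm2 h1
      calc (D : ℝ) * (m * (2 * Real.exp (-(a ^ 2 * M / 2))))
          ≤ D * ((160 * (D : ℝ) ^ 4 / d ^ 3 + 2) * (2 * Real.exp (-(a ^ 2 * M / 2)))) :=
            mul_le_mul_of_nonneg_left h2 hD0
        _ ≤ 1 / 4 := by rw [mul_comm]; exact hMD'
    have hj : ∀ j : Fin m, 1 / 4 ≤ avg fun s => Kk M k (X j) s *
        avg fun i => sg (X j i) * (if bad s then 0 else sg (s i)) := by
      intro j
      have h1 : (fun s => Kk M k (X j) s *
          avg fun i => sg (X j i) * (if bad s then 0 else sg (s i)))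
          = fun s => Kk M k (X j) s * (avg fun i => sg (X j i) * sg (s i)) -
            (if bad s then Kk M k (X j) s * (avg fun i => sg (X j i) * sg (s i)) else 0) := by
        funext s
        by_cases hs : bad s
        · simp only [if_pos hs, mul_zero]
          unfold avg
          simp
        · simp only [if_neg hs, sub_zero]
      rw [h1, avg_sub_A8, avg_Kk_half' hM hk1]
      have h2 : avg (fun s => if bad s then Kk M k (X j) s *
          (avg fun i => sg (X j i) * sg (s i)) else 0) ≤ 1 / 4 := by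
        have h3 : ∀ s : Q M, (if bad s then Kk M k (X j) s *
            (avg fun i => sg (X j i) * sg (s i)) else 0) ≤ D * (if bad s then (1 : ℝ) else 0) := by
          intro s
          split_ifs
          · rw [mul_one]
            apply (le_abs_self _).trans
            rw [abs_mul]
            have h4 : |Kk M k (X j) s| ≤ D := by rw [hD]; exact abs_Kk' _ _
            have h5 : |avg fun i => sg (X j i) * sg (s i)| ≤ 1 := by
              apply abs_avg_le_one'
              intro i
              rw [abs_mul, abs_sg', abs_sg', mul_one]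
            calc |Kk M k (X j) s| * |avg fun i => sg (X j i) * sg (s i)| ≤ D * 1 :=
                  mul_le_mul h4 h5 (abs_nonneg _) hD0
              _ = D := mul_one _
          · rw [mul_zero]
        apply (avg_mono_A8 _ _ h3).trans
        rw [avg_mul_left_A8]
        exact (mul_le_mul_of_nonneg_left hPbad hD0).trans hfin
      linarith
    calc (1 : ℝ) / 4 = avg (fun _ : Fin m => (1 : ℝ) / 4) := (avg_const_A8 _).symm
      _ ≤ _ := avg_mono_A8 _ _ hj

end Pool.Agent.Helper86.Tri
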