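import Pool.Agent.Helper86.Tri.A8

set_option autoImplicit false

open Finset

namespace Pool.Agent.Helper86.Tri

theorem avg_equiv {ι κ : Type*} [Fintype ι] [Fintype κ] (e : ι ≃ κ) (f : κ → ℝ) :
    avg (fun i => f (e i)) = avg f := by
  unfold avg
  rw [Equiv.sum_comp e f, Fintype.card_congr e]

theorem exists_fake {δ a : ℝ} (hδ : 0 < δ) (ha : 0 < a) : Nonempty (Fake δ a) := by
  obtain ⟨M, m, K, α, φ, hM, hm, h1, h2, h3, h4, h5⟩ := fake_cube δ a hδ ha
  let e : Fin (Fintype.card (Q M)) ≃ Q M := (Fintype.equivFin (Q M)).symm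
  refine ⟨{
    n := Fintype.card (Q M)
    hn := Fintype.card_pos
    m := m
    hm := hm
    N := M
    hN := hM
    K := fun j s => K j (e s)
    α := α
    φ := fun i s => φ i (e s)
    hα := h1
    hφ := fun i s => h2 i (e s)
    hK := ?_
    hw := fun j s => h4 j (e s)
    hU := ?_ }⟩
  · intro g hg
    have h6 := h3 (fun s => g (e.symm s)) (fun s => hg _)
    have e1 : ∀ j, avg (fun s => K j (e s) * g s) = avg (fun s => K j s * g (e.symm s)) := by
      intro j
      rw [← avg_equiv e (fun s => K j s * g (e.symm s))]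
      simp
    have e2 : avg (fun s => |g s|) = avg (fun s => |g (e.symm s)|) := by
      rw [← avg_equiv e (fun s => |g (e.symm s)|)]
      simp
    simp_rw [e1]
    rw [e2]
    exact h6
  · have e1 : ∀ j, avg (fun s => K j (e s) * avg fun i => α i j * φ i (e s)) =
        avg (fun s => K j s * avg fun i => α i j * φ i s) :=
      fun j => avg_equiv e (fun s => K j s * avg fun i => α i j * φ i s)
    simp_rw [e1]
    exact h5

end Pool.Agent.Helper86.Tri
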