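import Pool.Agent.Helper86.Tri.ProbDefs

set_option autoImplicit false

open Finset

namespace Pool.Agent.Helper86.Tri

open MeasureTheory in
theorem map_update_infinitePi {X : ℕ → Type} [∀ i, MeasurableSpace (X i)] (m : ∀ i, Measure (X i))
    [∀ i, IsProbabilityMeasure (m i)] (l : ℕ) :
    ((Measure.infinitePi m).prod (m l)).map (fun z => Function.update z.1 l z.2) =
      Measure.infinitePi m := by
  apply Measure.eq_infinitePi
  intro s t ht
  rw [Measure.map_apply measurable_update' (MeasurableSet.pi s.countable_toSet fun i _ => ht i)]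
  have h1 : (fun z : (∀ i, X i) × X l => Function.update z.1 l z.2) ⁻¹' (Set.pi s t) =
      (Set.pi (s.erase l : Finset ℕ) t) ×ˢ (if l ∈ s then t l else Set.univ) := by
    ext ⟨κ, p⟩
    simp only [Set.mem_preimage, Set.mem_pi, Set.mem_prod, Finset.coe_erase, Finset.mem_coe]
    constructor
    · intro h
      refine ⟨fun i hi => ?_, ?_⟩
      · have hi1 : i ∈ s := hi.1
        have hi2 : i ≠ l := hi.2
        have := h i hi1
        rwa [Function.update_of_ne hi2] at this
      · split_ifs with hl
        · have := h l hl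
          rwa [Function.update_self] at this
        · trivial
    · rintro ⟨h2, h3⟩ i hi
      by_cases hil : i = l
      · subst hil
        rw [if_pos hi] at h3
        rwa [Function.update_self]
      · rw [Function.update_of_ne hil]
        exact h2 i ⟨hi, hil⟩
  rw [h1, Measure.prod_prod, Measure.infinitePi_pi _ (fun i _ => ht i)]
  by_cases hl : l ∈ s
  · rw [if_pos hl, Finset.prod_erase_mul _ _ hl]
  · rw [if_neg hl, measure_univ, mul_one, Finset.erase_eq_of_notMem hl]

open MeasureTheory in
theorem exists_mean (n : ℕ → ℕ) (hn : ∀ r, 0 < n r) :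
    ∃ I : C(Pt n, ℝ) →ₗ[ℝ] ℝ, I 1 = 1 ∧ (∀ f : C(Pt n, ℝ), (∀ κ, 0 ≤ f κ) → 0 ≤ I f) ∧
      ∀ (l : ℕ) (h : C(Pt n, ℝ)) (q : Fin (n l) × Bool → ℝ),
        (∀ κ p, h (Function.update κ l p) = h κ) → I (h * crd n l q) = I h * avg q := by
  have : ∀ r, Nonempty (Fin (n r)) := fun r => ⟨⟨0, hn r⟩⟩
  let m : ∀ r, Measure (Fin (n r) × Bool) := fun r => (PMF.uniformOfFintype (Fin (n r) × Bool)).toMeasure
  have hm : ∀ r, IsProbabilityMeasure (m r) := fun r => PMF.toMeasure.isProbabilityMeasure _
  let μ : Measure (Pt n) := Measure.infinitePi m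
  have hμ : IsProbabilityMeasure μ := by show IsProbabilityMeasure (Measure.infinitePi m); infer_instance
  have hint : ∀ f : C(Pt n, ℝ), Integrable (fun κ => f κ) μ := fun f =>
    f.continuous.integrable_of_hasCompactSupport (HasCompactSupport.of_compactSpace f)
  refine ⟨{ toFun := fun f => ∫ κ, f κ ∂μ
            map_add' := fun f g => integral_add (hint f) (hint g)
            map_smul' := fun c f => integral_const_mul c _ }, ?_, ?_, ?_⟩
  · show ∫ κ : Pt n, (1 : ℝ) ∂μ = 1
    simp
  · intro f hf
    exact integral_nonneg hf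
  · intro l h q hinv
    show ∫ κ, h κ * q (κ l) ∂μ = (∫ κ, h κ ∂μ) * avg q
    have hmap : (μ.prod (m l)).map (fun z => Function.update z.1 l z.2) = μ :=
      map_update_infinitePi m l
    have hcont : Continuous (fun κ : Pt n => h κ * q (κ l)) := (h * crd n l q).continuous
    calc ∫ κ, h κ * q (κ l) ∂μ = ∫ κ, h κ * q (κ l) ∂((μ.prod (m l)).map (fun z => Function.update z.1 l z.2)) := by
          rw [hmap]
      _ = ∫ z, h (Function.update z.1 l z.2) * q (Function.update z.1 l z.2 l) ∂(μ.prod (m l)) :=
          integral_map measurable_update'.aemeasurable hcont.aestronglyMeasurable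
      _ = ∫ z, h z.1 * q z.2 ∂(μ.prod (m l)) := by
          congr 1; funext z; rw [hinv, Function.update_self]
      _ = (∫ κ, h κ ∂μ) * ∫ p, q p ∂(m l) := integral_prod_mul (fun κ => h κ) q
      _ = (∫ κ, h κ ∂μ) * avg q := by
          congr 1
          show ∫ p, q p ∂((PMF.uniformOfFintype (Fin (n l) × Bool)).toMeasure) = avg q
          rw [PMF.integral_eq_sum]
          unfold avg
          rw [Finset.sum_div]
          apply Finset.sum_congr rfl
          intro p _
          rw [PMF.uniformOfFintype_apply, ENNReal.toReal_inv, ENNReal.toReal_natCast, smul_eq_mul]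
          rw [div_eq_inv_mul]

end Pool.Agent.Helper86.Tri
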