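import Pool.Agent.Helper86.Tri.ProbDefs

set_option autoImplicit false

open Finset

namespace Pool.Agent.Helper86.Tri

/-- truncation of the coordinates -/
def trn (n : ℕ → ℕ) (hn : ∀ r, 0 < n r) (R : ℕ) (κ : Pt n) : Pt n :=
  fun i => if i < R then κ i else (⟨0, hn i⟩, false)

theorem trn_cont (n : ℕ → ℕ) (hn : ∀ r, 0 < n r) (R : ℕ) : Continuous (trn n hn R) := by
  apply continuous_pi
  intro i
  by_cases h : i < R
  · simp only [trn, h, if_true]; exact continuous_apply i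
  · simp only [trn, h, if_false]; exact continuous_const

theorem exists_trunc (n : ℕ → ℕ) (hn : ∀ r, 0 < n r) (f : C(Pt n, ℝ)) (η : ℝ) (hη : 0 < η) :
    ∃ (R : ℕ) (g : C(Pt n, ℝ)), ‖f - g‖ ≤ η ∧
      ∀ κ κ' : Pt n, (∀ i, i < R → κ i = κ' i) → g κ = g κ' := by
  classical
  have h1 : ∀ κ : Pt n, ∃ R : ℕ, ∀ κ' : Pt n, (∀ i, i < R → κ' i = κ i) → |f κ' - f κ| < η / 2 := by
    intro κ
    have hop : IsOpen (f ⁻¹' Metric.ball (f κ) (η / 2)) := Metric.isOpen_ball.preimage f.continuous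
    obtain ⟨I, u, hu, hsub⟩ := isOpen_pi_iff.1 hop κ (Metric.mem_ball_self (by positivity))
    refine ⟨I.sup id + 1, fun κ' hκ' => ?_⟩
    have : κ' ∈ f ⁻¹' Metric.ball (f κ) (η / 2) := by
      apply hsub
      intro i hi
      have hi' : i ∈ I := Finset.mem_coe.1 hi
      have hle : i ≤ I.sup id := Finset.le_sup (f := id) hi'
      rw [hκ' i (Nat.lt_succ_of_le hle)]
      exact (hu i hi').2
    simpa [Real.dist_eq] using this
  choose Rk hRk using h1
  have hnh : ∀ κ ∈ (Set.univ : Set (Pt n)), {κ' : Pt n | ∀ i ∈ range (Rk κ), κ' i = κ i} ∈ nhds κ := by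
    intro κ _
    have : ∀ᶠ κ' in nhds κ, ∀ i ∈ range (Rk κ), κ' i = κ i := by
      rw [Filter.eventually_all_finset]
      intro i _
      have hop : IsOpen ((fun κ' : Pt n => κ' i) ⁻¹' ({κ i} : Set (Fin (n i) × Bool))) :=
        (isOpen_discrete ({κ i} : Set (Fin (n i) × Bool))).preimage (continuous_apply i)
      exact hop.mem_nhds rfl
    exact this
  obtain ⟨t, -, ht⟩ := isCompact_univ.elim_nhds_subcover _ hnh
  refine ⟨t.sup Rk, ⟨fun κ => f (trn n hn (t.sup Rk) κ), f.continuous.comp (trn_cont n hn _)⟩, ?_, ?_⟩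
  · rw [ContinuousMap.norm_le _ hη.le]
    intro κ
    have hκ := ht (Set.mem_univ κ)
    simp only [Set.mem_iUnion] at hκ
    obtain ⟨κ0, hκ0t, hκ0⟩ := hκ
    have hle : Rk κ0 ≤ t.sup Rk := Finset.le_sup hκ0t
    have e1 := hRk κ0 κ (fun i hi => hκ0 i (mem_range.2 hi))
    have e2 := hRk κ0 (trn n hn (t.sup Rk) κ) (fun i hi => by
      show (if i < t.sup Rk then κ i else (⟨0, hn i⟩, false)) = κ0 i
      rw [if_pos (lt_of_lt_of_le hi hle)]
      exact hκ0 i (mem_range.2 hi))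
    show ‖f κ - f (trn n hn (t.sup Rk) κ)‖ ≤ η
    rw [Real.norm_eq_abs]
    have e3 := abs_lt.1 e1
    have e4 := abs_lt.1 e2
    rw [abs_le]
    constructor <;> linarith [e3.1, e3.2, e4.1, e4.2]
  · intro κ κ' h
    show f (trn n hn (t.sup Rk) κ) = f (trn n hn (t.sup Rk) κ')
    congr 1
    funext i
    show (if i < t.sup Rk then κ i else _) = (if i < t.sup Rk then κ' i else _)
    by_cases hi : i < t.sup Rk
    · rw [if_pos hi, if_pos hi, h i hi]
    · rw [if_neg hi, if_neg hi]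

end Pool.Agent.Helper86.Tri
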