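import Pool.Agent.Helper86.Tri.ProbDefs

set_option autoImplicit false

open Finset

namespace Pool.Agent.Helper86.Tri

theorem aux_crd_mul (n : ℕ → ℕ) (l : ℕ) (q q' : Fin (n l) × Bool → ℝ) :
    crd n l q * crd n l q' = crd n l (fun p => q p * q' p) := by
  ext κ
  rfl

theorem aux_psi_sum {n : ℕ → ℕ} (r : ℕ) (c : Fin (n r) → ℝ) :
    crd n r (fun p => c p.1 * (if p.2 then 1 else -1)) =
      ∑ s, c s • crd n r (fun p => if p.1 = s then (if p.2 then 1 else -1) else 0) := by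
  ext κ
  rw [ContinuousMap.sum_apply]
  simp only [ContinuousMap.smul_apply, smul_eq_mul]
  change c (κ r).1 * (if (κ r).2 then 1 else -1) =
    ∑ s, c s * (if (κ r).1 = s then (if (κ r).2 then 1 else -1) else 0)
  simp [Finset.sum_ite_eq]

theorem aux_avg_sq {m : ℕ} (c : Fin m → ℝ) :
    avg (fun p : Fin m × Bool => (c p.1 * (if p.2 then (1 : ℝ) else -1)) *
      (c p.1 * (if p.2 then (1 : ℝ) else -1))) = avg (fun s => c s ^ 2) := by
  unfold avg
  rw [Fintype.sum_prod_type]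
  simp only [Fintype.sum_bool, Fintype.card_prod, Fintype.card_bool, Fintype.card_fin, if_true,
    Bool.false_eq_true, if_false]
  have : ∀ s, c s * 1 * (c s * 1) + c s * -1 * (c s * -1) = 2 * (c s ^ 2) := fun s => by ring
  simp only [this]
  rw [← Finset.mul_sum]
  push_cast
  rw [mul_comm (m : ℝ) 2, mul_div_mul_left _ _ (two_ne_zero)]

theorem aux_avg_zero {m : ℕ} (c : Fin m → ℝ) :
    avg (fun p : Fin m × Bool => (c p.1 * (if p.2 then (1 : ℝ) else -1))) = 0 := by
  unfold avg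
  rw [Fintype.sum_prod_type]
  simp

theorem bessel_mean (n : ℕ → ℕ) (hn : ∀ r, 0 < n r) (I : C(Pt n, ℝ) →ₗ[ℝ] ℝ) (h1 : I 1 = 1)
    (hpos : ∀ f : C(Pt n, ℝ), (∀ κ, 0 ≤ f κ) → 0 ≤ I f)
    (hind : ∀ (l : ℕ) (h : C(Pt n, ℝ)) (q : Fin (n l) × Bool → ℝ),
        (∀ κ p, h (Function.update κ l p) = h κ) → I (h * crd n l q) = I h * avg q)
    (F : Finset ℕ) (f : C(Pt n, ℝ)) :
    ∑ r ∈ F, avg (fun s => (coI I r s f) ^ 2) ≤ ‖f‖ ^ 2 := by
  set ψ : ℕ → C(Pt n, ℝ) := fun r =>
    crd n r (fun p => coI I r p.1 f * (if p.2 then 1 else -1)) with hψ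
  have hcoI : ∀ r s, coI I r s f = n r * I (f * crd n r fun p =>
      if p.1 = s then (if p.2 then 1 else -1) else 0) := by
    intro r s
    simp [coI]
  have e1 : ∀ r, I (f * ψ r) = avg (fun s => (coI I r s f) ^ 2) := by
    intro r
    have hnr : (n r : ℝ) ≠ 0 := by exact_mod_cast (hn r).ne'
    rw [hψ]
    simp only
    rw [aux_psi_sum r (fun s => coI I r s f), Finset.mul_sum, map_sum]
    unfold avg
    rw [Fintype.card_fin, Finset.sum_div]
    refine Finset.sum_congr rfl fun s _ => ?_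
    rw [mul_smul_comm, map_smul, smul_eq_mul, eq_div_iff hnr, sq]
    conv_rhs => rw [hcoI r s]
    rw [hcoI r s]
    ring
  have e2 : ∀ r, I (ψ r * ψ r) = avg (fun s => (coI I r s f) ^ 2) := by
    intro r
    rw [hψ]
    simp only
    rw [aux_crd_mul]
    have := hind r 1 (fun p => (coI I r p.1 f * (if p.2 then (1 : ℝ) else -1)) *
      (coI I r p.1 f * (if p.2 then (1 : ℝ) else -1))) (fun _ _ => rfl)
    rw [one_mul, h1, one_mul] at this
    rw [this]
    exact aux_avg_sq (fun s => coI I r s f)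
  have e3 : ∀ r l, r ≠ l → I (ψ r * ψ l) = 0 := by
    intro r l hrl
    have := hind l (ψ r) (fun p => coI I l p.1 f * (if p.2 then 1 else -1)) (by
      intro κ p
      change coI I r ((Function.update κ l p) r).1 f * _ = coI I r (κ r).1 f * _
      rw [Function.update_of_ne hrl])
    rw [aux_avg_zero (fun s => coI I l s f), mul_zero] at this
    exact this
  have e4 : I ((f - ∑ r ∈ F, ψ r) * (f - ∑ r ∈ F, ψ r)) =
      I (f * f) - ∑ r ∈ F, avg (fun s => (coI I r s f) ^ 2) := by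
    have h2 : (f - ∑ r ∈ F, ψ r) * (f - ∑ r ∈ F, ψ r) =
        f * f - (∑ r ∈ F, f * ψ r + ∑ r ∈ F, f * ψ r) + ∑ r ∈ F, ∑ l ∈ F, ψ r * ψ l := by
      rw [← Finset.mul_sum, ← Finset.sum_mul_sum]
      ring
    rw [h2, map_add, map_sub, map_add, map_sum, map_sum]
    have h3 : ∀ r ∈ F, I (∑ l ∈ F, ψ r * ψ l) = avg (fun s => (coI I r s f) ^ 2) := by
      intro r hr
      rw [map_sum, Finset.sum_eq_single r (fun l _ hl => e3 r l hl.symm)
        (fun h => absurd hr h), e2]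
    rw [Finset.sum_congr rfl h3]
    simp only [e1]
    ring
  have e5 : 0 ≤ I ((f - ∑ r ∈ F, ψ r) * (f - ∑ r ∈ F, ψ r)) :=
    hpos _ fun κ => mul_self_nonneg _
  have e6 : I (f * f) ≤ ‖f‖ ^ 2 := by
    have h2 : 0 ≤ I ((‖f‖ ^ 2) • (1 : C(Pt n, ℝ)) - f * f) := by
      refine hpos _ fun κ => ?_
      have h3 := ContinuousMap.norm_coe_le_norm f κ
      rw [Real.norm_eq_abs] at h3
      have h4 : (f κ) * (f κ) ≤ ‖f‖ ^ 2 := by
        rw [← sq, ← sq_abs]
        exact pow_le_pow_left₀ (abs_nonneg _) h3 2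
      simp only [ContinuousMap.sub_apply, ContinuousMap.smul_apply, ContinuousMap.one_apply,
        ContinuousMap.mul_apply, smul_eq_mul, mul_one]
      linarith
    rw [map_sub, map_smul, h1, smul_eq_mul, mul_one] at h2
    linarith
  linarith

end Pool.Agent.Helper86.Tri
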