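import Pool.Agent.Helper86.Tri.B1
import Pool.Agent.Helper86.Tri.B2
import Pool.Agent.Helper86.Tri.B3

set_option autoImplicit false

open Finset

namespace Pool.Agent.Helper86.Tri

theorem avg_sgn {n : ℕ} (_hn : 0 < n) (s : Fin n) :
    avg (fun p : Fin n × Bool => if p.1 = s then (if p.2 then (1:ℝ) else -1) else 0) = 0 := by
  unfold avg
  rw [Fintype.sum_prod_type]
  simp

theorem avg_abs_sgn {n : ℕ} (hn : 0 < n) (s : Fin n) :
    avg (fun p : Fin n × Bool => |if p.1 = s then (if p.2 then (1:ℝ) else -1) else 0|) = 1 / n := by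
  unfold avg
  rw [Fintype.sum_prod_type]
  have : ∀ x : Fin n, ∑ y : Bool, |if ((x, y) : Fin n × Bool).1 = s then (if ((x, y) : Fin n × Bool).2 then (1:ℝ) else -1) else 0| = if x = s then 2 else 0 := by
    intro x
    by_cases h : x = s
    · simp [h]; norm_num
    · simp [h]
  rw [Finset.sum_congr rfl (fun x _ => this x)]
  simp
  have : (n : ℝ) ≠ 0 := by positivity
  field_simp

theorem avg_ind {n : ℕ} (_hn : 0 < n) (s : Fin n) :
    avg (fun p : Fin n × Bool => if p = (s, false) then (1:ℝ) else 0) = 1 / (2 * n) := by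
  unfold avg
  simp
  ring

theorem avg_abs_ind {n : ℕ} (hn : 0 < n) (s : Fin n) :
    avg (fun p : Fin n × Bool => |if p = (s, false) then (1:ℝ) else 0|) = 1 / (2 * n) := by
  rw [← avg_ind hn s]
  unfold avg
  congr 1
  apply Finset.sum_congr rfl
  intro p _
  show |if p = (s, false) then (1:ℝ) else 0| = if p = (s, false) then (1:ℝ) else 0
  split_ifs <;> simp

theorem ind_eq_crd (n : ℕ → ℕ) (r : ℕ) (s : Fin (n r)) :
    ind n r s = crd n r (fun p => if p = (s, false) then (1:ℝ) else 0) := by
  ext κ; rfl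

theorem exists_coeffs (n : ℕ → ℕ) (hn : ∀ r, 0 < n r) : Nonempty (Coeffs n) := by
  obtain ⟨I, h1, hpos, hind⟩ := exists_mean n hn
  have hcrd : ∀ (l : ℕ) (q : Fin (n l) × Bool → ℝ), I (crd n l q) = avg q := by
    intro l q
    have := hind l 1 q (fun κ p => rfl)
    rw [one_mul, h1, one_mul] at this
    exact this
  have hnn : ∀ r, (0:ℝ) < n r := fun r => by exact_mod_cast hn r
  -- main bound
  have hbd : ∀ (l : ℕ) (f : C(Pt n, ℝ)) (q : Fin (n l) × Bool → ℝ),
      |I (f * crd n l q)| ≤ ‖f‖ * avg (fun p => |q p|) := by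
    intro l f q
    have e1 : 0 ≤ I (‖f‖ • crd n l (fun p => |q p|) - f * crd n l q) := by
      apply hpos
      intro κ
      have h2 : |f κ| ≤ ‖f‖ := by
        have := f.norm_coe_le_norm κ
        simpa using this
      have h3 : f κ * q (κ l) ≤ ‖f‖ * |q (κ l)| := by
        calc f κ * q (κ l) ≤ |f κ * q (κ l)| := le_abs_self _
          _ = |f κ| * |q (κ l)| := abs_mul _ _
          _ ≤ ‖f‖ * |q (κ l)| := mul_le_mul_of_nonneg_right h2 (abs_nonneg _)
      show 0 ≤ ‖f‖ * |q (κ l)| - f κ * q (κ l)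
      linarith
    have e2 : 0 ≤ I (‖f‖ • crd n l (fun p => |q p|) + f * crd n l q) := by
      apply hpos
      intro κ
      have h2 : |f κ| ≤ ‖f‖ := by
        have := f.norm_coe_le_norm κ
        simpa using this
      have h3 : -(f κ * q (κ l)) ≤ ‖f‖ * |q (κ l)| := by
        calc -(f κ * q (κ l)) ≤ |f κ * q (κ l)| := neg_le_abs _
          _ = |f κ| * |q (κ l)| := abs_mul _ _
          _ ≤ ‖f‖ * |q (κ l)| := mul_le_mul_of_nonneg_right h2 (abs_nonneg _)
      show 0 ≤ ‖f‖ * |q (κ l)| + f κ * q (κ l)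
      linarith
    rw [map_sub, map_smul, hcrd, smul_eq_mul] at e1
    rw [map_add, map_smul, hcrd, smul_eq_mul] at e2
    rw [abs_le]
    constructor <;> linarith
  have hI_le : ∀ f, |I f| ≤ ‖f‖ := by
    intro f
    have h := hbd 0 f (fun _ => 1)
    have e : crd n 0 (fun _ => 1) = 1 := by ext κ; rfl
    rw [e, mul_one] at h
    have e' : avg (fun _ : Fin (n 0) × Bool => |(1:ℝ)|) = 1 := by
      have h3 := hcrd 0 (fun _ => |(1:ℝ)|)
      have e4 : crd n 0 (fun _ => |(1:ℝ)|) = 1 := by ext κ; show |(1:ℝ)| = 1; simp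
      rw [e4, h1] at h3
      exact h3.symm
    rw [e', mul_one] at h
    exact h
  have hco : ∀ (r : ℕ) (s : Fin (n r)) (f : C(Pt n, ℝ)), coI I r s f = n r * I (f * crd n r fun p =>
      if p.1 = s then (if p.2 then 1 else -1) else 0) := by
    intro r s f
    simp [coI]
  let cmI : ∀ r, Fin (n r) → (C(Pt n, ℝ) →ₗ[ℝ] ℝ) := fun r s =>
    (2 * (n r : ℝ)) • (I.comp (LinearMap.mulRight ℝ (ind n r s)))
  have hcm : ∀ (r : ℕ) (s : Fin (n r)) (f : C(Pt n, ℝ)), cmI r s f = 2 * n r * I (f * ind n r s) := by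
    intro r s f
    simp [cmI]
  refine ⟨⟨I, coI I, cmI, h1, hI_le, ?_, ?_, ?_, ?_, ?_, ?_⟩⟩
  · intro r s
    rw [hco, one_mul, hcrd, avg_sgn (hn r), mul_zero]
  · intro r s f
    rw [hco, abs_mul, abs_of_pos (hnn r)]
    have := hbd r f (fun p => if p.1 = s then (if p.2 then 1 else -1) else 0)
    rw [avg_abs_sgn (hn r)] at this
    calc (n r : ℝ) * _ ≤ (n r : ℝ) * (‖f‖ * (1 / n r)) :=
          mul_le_mul_of_nonneg_left this (hnn r).le
      _ = ‖f‖ := by have := (hnn r).ne'; field_simp
  · intro r s f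
    rw [hcm, abs_mul, abs_of_pos (by have := hnn r; positivity), ind_eq_crd]
    have := hbd r f (fun p => if p = (s, false) then (1:ℝ) else 0)
    rw [avg_abs_ind (hn r)] at this
    calc (2 * n r : ℝ) * _ ≤ (2 * n r : ℝ) * (‖f‖ * (1 / (2 * n r))) :=
          mul_le_mul_of_nonneg_left this (by have := hnn r; positivity)
      _ = ‖f‖ := by have := (hnn r).ne'; field_simp
  · intro F f
    exact bessel_mean n hn I h1 hpos hind F f
  · intro r s s' f
    rw [hco, hcm]
    by_cases h : s = s'
    · subst h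
      rw [if_pos rfl]
      have e : f * ind n r s * (crd n r fun p => if p.1 = s then (if p.2 then 1 else -1) else 0)
          = -(f * ind n r s) := by
        ext κ
        show f κ * (if κ r = (s, false) then (1:ℝ) else 0) *
          (if (κ r).1 = s then (if (κ r).2 then 1 else -1) else 0) =
          -(f κ * (if κ r = (s, false) then (1:ℝ) else 0))
        by_cases h2 : κ r = (s, false)
        · rw [h2]; simp
        · rw [if_neg h2]; simp
      rw [e, map_neg]; ring
    · rw [if_neg h]
      have e : f * ind n r s * (crd n r fun p => if p.1 = s' then (if p.2 then 1 else -1) else 0)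
          = 0 := by
        ext κ
        show f κ * (if κ r = (s, false) then (1:ℝ) else 0) *
          (if (κ r).1 = s' then (if (κ r).2 then 1 else -1) else 0) = 0
        by_cases h2 : κ r = (s, false)
        · rw [h2]; simp [h]
        · rw [if_neg h2]; simp
      rw [e, map_zero, mul_zero]
  · intro f η hη
    obtain ⟨R, g, hg, hdep⟩ := exists_trunc n hn f η hη
    have hupd : ∀ r, R ≤ r → ∀ κ p, g (Function.update κ r p) = g κ := by
      intro r hr κ p
      apply hdep
      intro i hi
      rw [Function.update_of_ne (by omega)]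
    refine ⟨R, g, hg, ?_, ?_⟩
    · intro r hr s
      constructor
      · rw [hco, hind r g _ (hupd r hr), avg_sgn (hn r), mul_zero, mul_zero]
      · rw [hcm, ind_eq_crd, hind r g _ (hupd r hr), avg_ind (hn r)]
        have := (hnn r).ne'
        field_simp
    · intro l r hl hlr s s'
      have hu : ∀ κ p, (g * ind n r s') (Function.update κ l p) = (g * ind n r s') κ := by
        intro κ p
        show g (Function.update κ l p) * (if (Function.update κ l p) r = (s', false) then (1:ℝ) else 0)
          = g κ * (if κ r = (s', false) then (1:ℝ) else 0)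
        rw [hupd l hl, Function.update_of_ne (Ne.symm hlr)]
      rw [hco, hind l _ _ hu, avg_sgn (hn l), mul_zero, mul_zero]

end Pool.Agent.Helper86.Tri
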