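import Mathlib

/-! # Trilinear forms on `C(K)`: basic definitions (MP_ce1e3b_an) -/

set_option autoImplicit false

namespace Pool.Agent.Helper86.Tri

/-- The average of a real function on a finite type. -/
noncomputable def avg {ι : Type*} [Fintype ι] (f : ι → ℝ) : ℝ := (∑ i, f i) / Fintype.card ι

/-- A fake measure: a finite kernel `K j s` (`j` a switch, `s` a point) which is almost an
`L¹`-contraction (`hK`), but gives mass at least `1/4` to a function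
`W j s = avg_i α i j * φ i s` with tiny entries (`hw`, `hU`). -/
structure Fake (δ a : ℝ) where
  n : ℕ
  hn : 0 < n
  m : ℕ
  hm : 0 < m
  N : ℕ
  hN : 0 < N
  K : Fin m → Fin n → ℝ
  α : Fin N → Fin m → ℝ
  φ : Fin N → Fin n → ℝ
  hα : ∀ i j, |α i j| ≤ 1
  hφ : ∀ i s, |φ i s| ≤ 1
  hK : ∀ g : Fin n → ℝ, (∀ s, |g s| ≤ 1) →
    avg (fun j => |avg fun s => K j s * g s|) ≤ avg (fun s => |g s|) + δ
  hw : ∀ j s, |avg fun i => α i j * φ i s| ≤ a
  hU : 1 / 4 ≤ avg fun j => avg fun s => K j s * avg fun i => α i j * φ i s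

/-- The Cantor-like product space. -/
abbrev Pt (n : ℕ → ℕ) : Type := ∀ r : ℕ, Fin (n r) × Bool

/-- The indicator function of `{κ : κ r = (s, false)}`. -/
noncomputable def ind (n : ℕ → ℕ) (r : ℕ) (s : Fin (n r)) : C(Pt n, ℝ) where
  toFun κ := if κ r = (s, false) then 1 else 0
  continuous_toFun := by
    have h : Continuous fun p : Fin (n r) × Bool => (if p = (s, false) then (1 : ℝ) else 0) :=
      continuous_of_discreteTopology
    exact h.comp (continuous_apply r)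

/-- The functionals on `C(∏ (G_r × {±1}))` used in the construction: `I f = ∫ f`,
`co r s f = E[f ε_r | κ_r = s]`, `cm r s f = E[f | κ_r = s, ε_r = -1]`. -/
structure Coeffs (n : ℕ → ℕ) where
  I : C(Pt n, ℝ) →ₗ[ℝ] ℝ
  co : ∀ r, Fin (n r) → (C(Pt n, ℝ) →ₗ[ℝ] ℝ)
  cm : ∀ r, Fin (n r) → (C(Pt n, ℝ) →ₗ[ℝ] ℝ)
  I_one : I 1 = 1
  I_le : ∀ f, |I f| ≤ ‖f‖
  co_one : ∀ r s, co r s 1 = 0
  co_le : ∀ r s f, |co r s f| ≤ ‖f‖
  cm_le : ∀ r s f, |cm r s f| ≤ ‖f‖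
  bessel : ∀ (F : Finset ℕ) (f : C(Pt n, ℝ)),
    ∑ r ∈ F, avg (fun s => (co r s f) ^ 2) ≤ ‖f‖ ^ 2
  loc : ∀ (r : ℕ) (s s' : Fin (n r)) (f : C(Pt n, ℝ)),
    co r s' (f * ind n r s) = if s = s' then -(cm r s f) / 2 else 0
  approx : ∀ (f : C(Pt n, ℝ)) (η : ℝ), 0 < η → ∃ (R : ℕ) (g : C(Pt n, ℝ)), ‖f - g‖ ≤ η ∧
    (∀ r, R ≤ r → ∀ s, co r s g = 0 ∧ cm r s g = I g) ∧
    (∀ l r, R ≤ l → l ≠ r → ∀ (s : Fin (n l)) (s' : Fin (n r)), co l s (g * ind n r s') = 0)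

/-- Trilinear functions of three arguments. -/
structure IsTri {E F G : Type*} [AddCommGroup E] [Module ℝ E] [AddCommGroup F] [Module ℝ F]
    [AddCommGroup G] [Module ℝ G] (b : E → F → G → ℝ) : Prop where
  add₁ : ∀ x x' y z, b (x + x') y z = b x y z + b x' y z
  smul₁ : ∀ (c : ℝ) x y z, b (c • x) y z = c * b x y z
  add₂ : ∀ x y y' z, b x (y + y') z = b x y z + b x y' z
  smul₂ : ∀ (c : ℝ) x y z, b x (c • y) z = c * b x y z
  add₃ : ∀ x y z z', b x y (z + z') = b x y z + b x y z'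
  smul₃ : ∀ (c : ℝ) x y z, b x y (c • z) = c * b x y z

/-- The switches: points `t r j` of `[0,1]` and bump functions `β r j`. -/
structure Switch (m : ℕ → ℕ) where
  t : ∀ r, Fin (m r) → unitInterval
  β : ∀ r, Fin (m r) → C(unitInterval, ℝ)
  U : ℕ → Set unitInterval
  dense : ∀ V : Set unitInterval, IsOpen V → V.Nonempty → ∀ R : ℕ, ∃ r, R ≤ r ∧ U r ⊆ V
  supp : ∀ r j x, x ∉ U r → β r j x = 0
  eval : ∀ r i j, β r j (t r i) = if i = j then 1 else 0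
  nonneg : ∀ r j x, 0 ≤ β r j x
  sum_le : ∀ r x, ∑ j, β r j x ≤ 1

end Pool.Agent.Helper86.Tri
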