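import Mathlib
import Pool.Agent.Helper86.Tri.Defs

set_option autoImplicit false

open Finset

namespace Pool.Agent.Helper86.Tri

section blocks

variable {δ a : ℕ → ℝ} (F : ∀ r, Fake (δ r) (a r)) (Cf : Coeffs fun r => (F r).n)
  (S : Switch fun r => (F r).m)

/-- The `r`-th block of the trilinear form. -/
noncomputable def T (r : ℕ) (x : C(unitInterval, ℝ)) (y z : C(Pt fun r => (F r).n, ℝ)) : ℝ :=
  avg fun j => x (S.t r j) * avg fun s => (F r).K j s * (Cf.co r s y * Cf.co r s z)

/-- The sum of all blocks. -/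
noncomputable def TT (x : C(unitInterval, ℝ)) (y z : C(Pt fun r => (F r).n, ℝ)) : ℝ :=
  ∑' r, T F Cf S r x y z

/-- The entries of the test function. -/
noncomputable def W (r : ℕ) (j : Fin (F r).m) (s : Fin (F r).n) : ℝ :=
  avg fun i => (F r).α i j * (F r).φ i s

end blocks

end Pool.Agent.Helper86.Tri
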