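import Pool.Agent.Helper86.Tri.Defs

set_option autoImplicit false

open Finset

namespace Pool.Agent.Helper86.Tri

/-- Bump functions in a nonempty open subset of `[0,1]`. -/
theorem exists_bumps (m : ℕ) (V : Set unitInterval) (hV : IsOpen V) (hne : V.Nonempty) :
    ∃ (t : Fin m → unitInterval) (β : Fin m → C(unitInterval, ℝ)),
      (∀ j x, x ∉ V → β j x = 0) ∧ (∀ i j, β j (t i) = if i = j then 1 else 0) ∧
      (∀ j x, 0 ≤ β j x) ∧ (∀ x, ∑ j, β j x ≤ 1) := by
  obtain ⟨x0, hx0⟩ := hne
  have hinf : V.Infinite := infinite_of_mem_nhds x0 (hV.mem_nhds hx0)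
  let t : Fin m → unitInterval := fun j => (hinf.natEmbedding V j : unitInterval)
  have htV : ∀ j, t j ∈ V := fun j => (hinf.natEmbedding V j).2
  have htinj : Function.Injective t := by
    intro i j hij
    exact Fin.ext ((hinf.natEmbedding V).injective (Subtype.ext hij))
  have hη : ∃ η : ℝ, 0 < η ∧ (∀ j, Metric.ball (t j) η ⊆ V) ∧
      ∀ i j, i ≠ j → 2 * η ≤ dist (t i) (t j) := by
    have h1 : ∀ j, ∀ᶠ η in nhdsWithin (0 : ℝ) (Set.Ioi 0), Metric.ball (t j) η ⊆ V := by
      intro j
      obtain ⟨ε, hε, h⟩ := Metric.isOpen_iff.1 hV (t j) (htV j)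
      filter_upwards [Ioo_mem_nhdsGT hε] with η hη
      exact (Metric.ball_subset_ball hη.2.le).trans h
    have h2 : ∀ i j, i ≠ j → ∀ᶠ η in nhdsWithin (0 : ℝ) (Set.Ioi 0),
        2 * η ≤ dist (t i) (t j) := by
      intro i j hij
      have hd : 0 < dist (t i) (t j) := dist_pos.2 (fun h => hij (htinj h))
      filter_upwards [Ioo_mem_nhdsGT (half_pos hd)] with η hη
      linarith [hη.2]
    have h2' : ∀ i j, ∀ᶠ η in nhdsWithin (0 : ℝ) (Set.Ioi 0), i ≠ j →
        2 * η ≤ dist (t i) (t j) := by
      intro i j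
      by_cases hij : i = j
      · exact Filter.Eventually.of_forall fun η h => absurd hij h
      · filter_upwards [h2 i j hij] with η hη _
        exact hη
    have h3 := (Filter.eventually_all.2 h1).and
      (Filter.eventually_all.2 fun i => Filter.eventually_all.2 (h2' i))
    have h4 : ∀ᶠ η in nhdsWithin (0 : ℝ) (Set.Ioi 0), η ∈ Set.Ioi (0 : ℝ) := self_mem_nhdsWithin
    obtain ⟨η, ha, hb⟩ := (h3.and h4).exists
    exact ⟨η, hb, ha.1, fun i j hij => ha.2 i j hij⟩
  obtain ⟨η, hη0, hηV, hηd⟩ := hη
  let β : Fin m → C(unitInterval, ℝ) := fun j =>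
    ⟨fun x => max 0 (1 - dist x (t j) / η), by fun_prop⟩
  have hβ : ∀ j x, β j x = max 0 (1 - dist x (t j) / η) := fun j x => rfl
  have hβ0 : ∀ j x, η ≤ dist x (t j) → β j x = 0 := by
    intro j x h
    rw [hβ]
    apply max_eq_left
    have : 1 ≤ dist x (t j) / η := by rw [le_div_iff₀ hη0]; linarith
    linarith
  refine ⟨t, β, ?_, ?_, ?_, ?_⟩
  · intro j x hx
    apply hβ0
    by_contra h
    push Not at h
    exact hx (hηV j h)
  · intro i j
    by_cases hij : i = j
    · subst hij
      simp [hβ]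
    · rw [if_neg hij]
      apply hβ0
      have := hηd i j hij
      linarith
  · intro j x
    exact le_max_left _ _
  · intro x
    by_cases h : ∃ j, dist x (t j) < η
    · obtain ⟨j, hj⟩ := h
      rw [Finset.sum_eq_single j]
      · rw [hβ]
        apply max_le zero_le_one
        have : 0 ≤ dist x (t j) / η := div_nonneg dist_nonneg hη0.le
        linarith
      · intro i _ hij
        apply hβ0
        have h1 := hηd i j hij
        have h2 := dist_triangle (t i) x (t j)
        rw [dist_comm (t i) x] at h2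
        linarith
      · intro h
        exact absurd (Finset.mem_univ j) h
    · push Not at h
      rw [Finset.sum_eq_zero fun j _ => hβ0 j x (h j)]
      exact zero_le_one

end Pool.Agent.Helper86.Tri
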