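import Pool.Agent.Helper86.Tri.C1

set_option autoImplicit false

open Finset

namespace Pool.Agent.Helper86.Tri

theorem exists_switch (m : ℕ → ℕ) : Nonempty (Switch m) := by
  classical
  obtain ⟨c, hc⟩ : ∃ c : ℕ → unitInterval, c = TopologicalSpace.denseSeq unitInterval := ⟨_, rfl⟩
  obtain ⟨U, hUdef⟩ : ∃ U : ℕ → Set unitInterval, U = fun r =>
      Metric.ball (c (Nat.unpair (Nat.unpair r).1).1)
        (1 / (((Nat.unpair (Nat.unpair r).1).2 : ℝ) + 1)) := ⟨_, rfl⟩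
  have hUo : ∀ r, IsOpen (U r) := by
    intro r; rw [hUdef]; exact Metric.isOpen_ball
  have hUn : ∀ r, (U r).Nonempty := by
    intro r
    rw [hUdef]
    exact ⟨_, Metric.mem_ball_self (by positivity)⟩
  choose t β h1 h2 h3 h4 using fun r => exists_bumps (m r) (U r) (hUo r) (hUn r)
  refine ⟨⟨t, β, U, ?_, h1, h2, h3, h4⟩⟩
  rintro V hV ⟨x, hx⟩ R
  obtain ⟨ε, hε, hb⟩ := Metric.isOpen_iff.1 hV x hx
  obtain ⟨q, hq⟩ := exists_nat_one_div_lt (half_pos hε)
  have hq0 : (0 : ℝ) < 1 / ((q : ℝ) + 1) := by positivity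
  obtain ⟨p, hp⟩ := (TopologicalSpace.denseRange_denseSeq unitInterval).exists_dist_lt x hq0
  rw [← hc] at hp
  refine ⟨Nat.pair (Nat.pair p q) R, Nat.right_le_pair _ _, ?_⟩
  rw [hUdef]
  simp only [Nat.unpair_pair]
  refine (Metric.ball_subset_ball' ?_).trans hb
  rw [dist_comm]
  linarith

end Pool.Agent.Helper86.Tri
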