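import Pool.Agent.Helper86.Tri.Space

set_option autoImplicit false

open Finset

namespace Pool.Agent.Helper86.Tri

section core

variable {δ a : ℕ → ℝ} (F : ∀ r, Fake (δ r) (a r)) (Cf : Coeffs fun r => (F r).n)
  (S : Switch fun r => (F r).m)

/-- the linear function `2t-1` -/
noncomputable def lin : C(unitInterval, ℝ) := ⟨fun t => 2 * (t : ℝ) - 1, by fun_prop⟩

theorem lin_le (t : unitInterval) : |lin t| ≤ 1 := by
  have h1 := t.2.1
  have h2 := t.2.2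
  show |2 * (t : ℝ) - 1| ≤ 1
  rw [abs_le]; constructor <;> linarith

theorem TT_one (x : C(unitInterval, ℝ)) : TT F Cf S x 1 1 = 0 := by
  unfold TT
  have : ∀ r, T F Cf S r x 1 1 = 0 := by
    intro r
    unfold T avg
    simp [Cf.co_one]
  simp [this]

theorem a0_lin : a0 F Cf S (mkS lin 0) 1 1 = 1 := by
  unfold a0
  rw [resL_mkS, resR_one, TT_one, Cf.I_one]
  have h1 : lin 1 = 1 := by show 2 * ((1 : unitInterval) : ℝ) - 1 = 1; norm_num
  have h0 : lin 0 = -1 := by show 2 * ((0 : unitInterval) : ℝ) - 1 = -1; norm_num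
  rw [h1, h0]; norm_num

/-- first consequences of attaining the norm near `a0` -/
theorem step1 (hδ1 : ∀ P : Finset ℕ, ∑ r ∈ P, δ r ≤ 1)
    (b : C(KK fun r => (F r).n, ℝ) → C(KK fun r => (F r).n, ℝ) → C(KK fun r => (F r).n, ℝ) → ℝ)
    (β : ℝ) (hβ : ∀ f g h, |b f g h| ≤ β * ‖f‖ * ‖g‖ * ‖h‖)
    (hclose : ∀ f g h, |a0 F Cf S f g h - b f g h| ≤ (1 / 2048) * ‖f‖ * ‖g‖ * ‖h‖)
    (f1 f2 f3 : C(KK fun r => (F r).n, ℝ)) (h1 : ‖f1‖ ≤ 1) (h2 : ‖f2‖ ≤ 1) (h3 : ‖f3‖ ≤ 1)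
    (hatt : b f1 f2 f3 = β) :
    0 ≤ β ∧ β ≤ 2 ∧ resL f1 0 ≠ resL f1 1 ∧
      1 / 2 ≤ |Cf.I (resR f2) * Cf.I (resR f3)| := by
  have hprod : ‖f1‖ * ‖f2‖ * ‖f3‖ ≤ 1 := by
    calc ‖f1‖ * ‖f2‖ * ‖f3‖ ≤ 1 * 1 * 1 := by gcongr
      _ = 1 := by norm_num
  have hprod0 : 0 ≤ ‖f1‖ * ‖f2‖ * ‖f3‖ := by positivity
  have hone : ‖(1 : C(KK fun r => (F r).n, ℝ))‖ ≤ 1 := by
    rw [ContinuousMap.norm_le _ zero_le_one]; intro x; simp
  have hone0 : 0 ≤ ‖(1 : C(KK fun r => (F r).n, ℝ))‖ := norm_nonneg _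
  have hx0 : ‖mkS (n := fun r => (F r).n) lin 0‖ ≤ 1 :=
    mkS_norm _ _ 1 zero_le_one lin_le (fun t => by simp)
  have hβ1 : 1 - 1 / 2048 ≤ β := by
    have e1 := hclose (mkS lin 0) 1 1
    rw [a0_lin] at e1
    have e2 := hβ (mkS lin 0) 1 1
    have e3 : ‖mkS (n := fun r => (F r).n) lin 0‖ * ‖(1 : C(KK fun r => (F r).n, ℝ))‖ *
        ‖(1 : C(KK fun r => (F r).n, ℝ))‖ ≤ 1 := by
      calc _ ≤ (1 : ℝ) * 1 * 1 := by gcongr
        _ = 1 := by norm_num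
    have e4 : (1 / 2048 : ℝ) * ‖mkS (n := fun r => (F r).n) lin 0‖ *
        ‖(1 : C(KK fun r => (F r).n, ℝ))‖ * ‖(1 : C(KK fun r => (F r).n, ℝ))‖ ≤ 1 / 2048 := by
      nlinarith
    have e5 : 1 - 1 / 2048 ≤ b (mkS lin 0) 1 1 := by
      have := (abs_le.mp (e1.trans e4)).2
      linarith
    have e6 : b (mkS lin 0) 1 1 ≤ β * ‖mkS (n := fun r => (F r).n) lin 0‖ *
        ‖(1 : C(KK fun r => (F r).n, ℝ))‖ * ‖(1 : C(KK fun r => (F r).n, ℝ))‖ :=
      (le_abs_self _).trans e2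
    by_contra hcon
    push Not at hcon
    rcases le_or_gt 0 β with h | h
    · nlinarith
    · have : β * ‖mkS (n := fun r => (F r).n) lin 0‖ *
        ‖(1 : C(KK fun r => (F r).n, ℝ))‖ * ‖(1 : C(KK fun r => (F r).n, ℝ))‖ ≤ 0 := by
        have h0 : 0 ≤ ‖mkS (n := fun r => (F r).n) lin 0‖ *
          ‖(1 : C(KK fun r => (F r).n, ℝ))‖ * ‖(1 : C(KK fun r => (F r).n, ℝ))‖ := by positivity
        nlinarith
      linarith
  have hβ0 : 0 ≤ β := by linarith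
  have ec := hclose f1 f2 f3
  rw [hatt] at ec
  have ec' : |a0 F Cf S f1 f2 f3 - β| ≤ 1 / 2048 := by
    refine ec.trans ?_
    nlinarith
  have hA : β - 1 / 2048 ≤ a0 F Cf S f1 f2 f3 := by linarith [(abs_le.mp ec').1]
  have hA' : β ≤ a0 F Cf S f1 f2 f3 + 1 / 2048 := by linarith
  have hTT := (T_summable F Cf S hδ1 (resL f1) (resR f2) (resR f3)).2
  have hTT' : |TT F Cf S (resL f1) (resR f2) (resR f3)| ≤ 2 := by
    refine hTT.trans ?_
    calc 2 * ‖resL f1‖ * ‖resR f2‖ * ‖resR f3‖ ≤ 2 * 1 * 1 * 1 := by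
          gcongr
          · exact (resL_norm f1).trans h1
          · exact (resR_norm f2).trans h2
          · exact (resR_norm f3).trans h3
      _ = 2 := by norm_num
  have hm : |((resL f1 1 - resL f1 0) / 2) * (Cf.I (resR f2) * Cf.I (resR f3))| ≤ 1 :=
    (main_bound F Cf f1 f2 f3).trans hprod
  have hdef : a0 F Cf S f1 f2 f3 = ((resL f1 1 - resL f1 0) / 2) *
    (Cf.I (resR f2) * Cf.I (resR f3)) + (1 / 8) * TT F Cf S (resL f1) (resR f2) (resR f3) := rfl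
  have hTT1 := (abs_le.mp hTT').1
  have hTT2 := (abs_le.mp hTT').2
  have hmain : 1 / 2 ≤ ((resL f1 1 - resL f1 0) / 2) * (Cf.I (resR f2) * Cf.I (resR f3)) := by
    rw [hdef] at hA; linarith
  have hm2 := (abs_le.mp hm).2
  refine ⟨hβ0, ?_, ?_, ?_⟩
  · rw [hdef] at hA'; linarith
  · intro heq
    rw [heq, sub_self, zero_div, zero_mul] at hmain
    norm_num at hmain
  · have hp : |(resL f1 1 - resL f1 0) / 2| ≤ 1 := by
      have a1 : |resL f1 1| ≤ 1 :=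
        ((ContinuousMap.norm_coe_le_norm (resL f1) 1).trans (resL_norm f1)).trans h1
      have a2 : |resL f1 0| ≤ 1 :=
        ((ContinuousMap.norm_coe_le_norm (resL f1) 0).trans (resL_norm f1)).trans h1
      rw [abs_le] at *
      constructor <;> linarith [a1.1, a1.2, a2.1, a2.2]
    have := hmain.trans (le_abs_self _)
    rw [abs_mul] at this
    have h0 := abs_nonneg (Cf.I (resR f2) * Cf.I (resR f3))
    nlinarith

/-- For `f : Fin m → ...` bumps: sup norm of a combination. -/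
theorem bump_norm {m : ℕ → ℕ} (S : Switch m) (r : ℕ) (c : Fin (m r) → ℝ) (C : ℝ)
    (hC : ∀ j, |c j| ≤ C) (hC0 : 0 ≤ C) (x : unitInterval) :
    |(∑ j, c j • S.β r j : C(unitInterval, ℝ)) x| ≤ C := by
  rw [ContinuousMap.sum_apply]
  calc |∑ j, (c j • S.β r j) x| ≤ ∑ j, |(c j • S.β r j) x| := Finset.abs_sum_le_sum_abs _ _
    _ ≤ ∑ j, C * S.β r j x := by
        refine Finset.sum_le_sum fun j _ => ?_
        rw [ContinuousMap.smul_apply, smul_eq_mul, abs_mul, abs_of_nonneg (S.nonneg r j x)]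
        exact mul_le_mul_of_nonneg_right (hC j) (S.nonneg r j x)
    _ = C * ∑ j, S.β r j x := by rw [Finset.mul_sum]
    _ ≤ C * 1 := mul_le_mul_of_nonneg_left (S.sum_le r x) hC0
    _ = C := mul_one C

theorem bump_eval {m : ℕ → ℕ} (S : Switch m) (r : ℕ) (c : Fin (m r) → ℝ) (i : Fin (m r)) :
    (∑ j, c j • S.β r j : C(unitInterval, ℝ)) (S.t r i) = c i := by
  rw [ContinuousMap.sum_apply]
  simp [S.eval, ContinuousMap.smul_apply]

theorem bump_off {m : ℕ → ℕ} (S : Switch m) (r : ℕ) (c : Fin (m r) → ℝ) (x : unitInterval)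
    (hx : x ∉ S.U r) : (∑ j, c j • S.β r j : C(unitInterval, ℝ)) x = 0 := by
  rw [ContinuousMap.sum_apply]
  simp [S.supp r _ x hx, ContinuousMap.smul_apply]

end core

end Pool.Agent.Helper86.Tri
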