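import Mathlib
import Pool.Agent.Helper86.Tri.Defs

set_option autoImplicit false

open Finset

namespace Pool.Agent.Helper86.Tri

/-- The cube. -/
abbrev Q (M : ℕ) : Type := Fin M → Bool

/-- `±1`. -/
noncomputable def sg (b : Bool) : ℝ := if b then 1 else -1

/-- Walsh functions. -/
noncomputable def chi {M : ℕ} (S : Finset (Fin M)) (u : Q M) : ℝ := ∏ i ∈ S, sg (u i)

/-- Fourier coefficients. -/
noncomputable def four {M : ℕ} (g : Q M → ℝ) (S : Finset (Fin M)) : ℝ :=
  avg fun s => g s * chi S s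

/-- Truncated Riesz kernel (`ρ = 1/2`). -/
noncomputable def Kk (M k : ℕ) (u s : Q M) : ℝ :=
  ∑ S ∈ univ.filter (fun S : Finset (Fin M) => S.card ≤ k), (1 / 2) ^ S.card * (chi S u * chi S s)

/-- Full Riesz kernel. -/
noncomputable def Rk (M : ℕ) (u s : Q M) : ℝ := ∏ i, (1 + (1 / 2) * (sg (u i) * sg (s i)))

end Pool.Agent.Helper86.Tri
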