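import Pool.Agent.Helper86.Tri.Defs

set_option autoImplicit false

open Finset

namespace Pool.Agent.Helper86.Tri

/-- Choice of signs: some signs make the off-diagonal part nonnegative. -/
theorem exists_signs {ι : Type} [Fintype ι] [DecidableEq ι] (β : ι → ι → ℝ) :
    ∃ ε : ι → ℝ, (∀ i, ε i = 1 ∨ ε i = -1) ∧ ∑ i, β i i ≤ ∑ i, ∑ j, ε i * ε j * β i j := by
  have key : ∀ s : Finset ι, ∃ ε : ι → ℝ, (∀ i, ε i = 1 ∨ ε i = -1) ∧
      ∑ i ∈ s, β i i ≤ ∑ i ∈ s, ∑ j ∈ s, ε i * ε j * β i j := by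
    intro s
    induction s using Finset.induction_on with
    | empty => exact ⟨fun _ => 1, fun _ => Or.inl rfl, by simp⟩
    | insert a s ha ih =>
      obtain ⟨ε, hε, hs⟩ := ih
      obtain ⟨σ, hσ, hσ2⟩ : ∃ σ : ℝ, (σ = 1 ∨ σ = -1) ∧
          0 ≤ σ * ∑ j ∈ s, ε j * (β a j + β j a) := by
        rcases le_total 0 (∑ j ∈ s, ε j * (β a j + β j a)) with h | h
        · exact ⟨1, Or.inl rfl, by rwa [one_mul]⟩
        · exact ⟨-1, Or.inr rfl, by linarith⟩
      refine ⟨Function.update ε a σ, ?_, ?_⟩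
      · intro i
        by_cases hi : i = a
        · subst hi; rw [Function.update_self]; exact hσ
        · rw [Function.update_of_ne hi]; exact hε i
      · have hne : ∀ j ∈ s, Function.update ε a σ j = ε j := by
          intro j hj
          rw [Function.update_of_ne]
          rintro rfl; exact ha hj
        rw [Finset.sum_insert ha, Finset.sum_insert ha, Finset.sum_insert ha]
        have e1 : ∑ j ∈ s, Function.update ε a σ a * Function.update ε a σ j * β a j
            = σ * ∑ j ∈ s, ε j * β a j := by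
          rw [Finset.mul_sum]
          refine Finset.sum_congr rfl fun j hj => ?_
          rw [Function.update_self, hne j hj]; ring
        have e2 : ∑ i ∈ s, ∑ j ∈ insert a s,
              Function.update ε a σ i * Function.update ε a σ j * β i j
            = σ * ∑ i ∈ s, ε i * β i a + ∑ i ∈ s, ∑ j ∈ s, ε i * ε j * β i j := by
          rw [Finset.mul_sum, ← Finset.sum_add_distrib]
          refine Finset.sum_congr rfl fun i hi => ?_
          rw [Finset.sum_insert ha, Function.update_self, hne i hi]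
          congr 1
          · ring
          · refine Finset.sum_congr rfl fun j hj => ?_
            rw [hne j hj]
        rw [e1, e2, Function.update_self]
        have e3 : ∑ j ∈ s, ε j * (β a j + β j a) = ∑ j ∈ s, ε j * β a j + ∑ j ∈ s, ε j * β j a := by
          rw [← Finset.sum_add_distrib]
          exact Finset.sum_congr rfl fun j _ => by ring
        rw [e3, mul_add] at hσ2
        have e4 : σ * σ = 1 := by rcases hσ with h | h <;> rw [h] <;> norm_num
        rw [e4, one_mul]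
        linarith
  obtain ⟨ε, h1, h2⟩ := key Finset.univ
  exact ⟨ε, h1, h2⟩

/-- If `b` attains its norm at `(f, g, h)` and `‖f ± x‖ ≤ 1` then `b x g h = 0`. -/
theorem attain_zero {K : Type} [TopologicalSpace K] [CompactSpace K]
    (b : C(K, ℝ) → C(K, ℝ) → C(K, ℝ) → ℝ) (hb : IsTri b) (β : ℝ)
    (hβ : ∀ f g h, |b f g h| ≤ β * ‖f‖ * ‖g‖ * ‖h‖) (f g h x : C(K, ℝ))
    (hg : ‖g‖ ≤ 1) (hh : ‖h‖ ≤ 1) (hfx : ‖f + x‖ ≤ 1) (hfx' : ‖f - x‖ ≤ 1)
    (hatt : b f g h = β) : b x g h = 0 := by
  have hβ0 : 0 ≤ β := by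
    by_contra hneg
    push Not at hneg
    have h1 := hβ f g h
    rw [hatt, abs_of_neg hneg] at h1
    have h2 : β * ‖f‖ * ‖g‖ * ‖h‖ ≤ 0 := by
      have h3 : 0 ≤ ‖f‖ * ‖g‖ * ‖h‖ := by positivity
      nlinarith
    linarith
  have hbd : ∀ y : C(K, ℝ), ‖y‖ ≤ 1 → b y g h ≤ β := by
    intro y hy
    have h1 := (le_abs_self _).trans (hβ y g h)
    refine h1.trans ?_
    have h2 : ‖y‖ * ‖g‖ * ‖h‖ ≤ 1 := by
      calc ‖y‖ * ‖g‖ * ‖h‖ ≤ 1 * 1 * 1 := by gcongr
        _ = 1 := by norm_num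
    calc β * ‖y‖ * ‖g‖ * ‖h‖ = β * (‖y‖ * ‖g‖ * ‖h‖) := by ring
      _ ≤ β * 1 := mul_le_mul_of_nonneg_left h2 hβ0
      _ = β := mul_one β
  have h1 := hbd (f + x) hfx
  have h2 := hbd (f - x) hfx'
  have e1 : b (f + x) g h = β + b x g h := by rw [hb.add₁, hatt]
  have e2 : b (f - x) g h = β - b x g h := by
    have : f - x = f + (-1 : ℝ) • x := by rw [neg_smul, one_smul, sub_eq_add_neg]
    rw [this, hb.add₁, hb.smul₁, hatt]; ring
  rw [e1] at h1
  rw [e2] at h2
  linarith

/-- A continuous function on `[0,1]` with different end values and `|f| ≤ 1` has `|f| < 1`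
somewhere. -/
theorem exists_lt_one (f : C(unitInterval, ℝ)) (hf : ∀ x, |f x| ≤ 1) (h : f 0 ≠ f 1) :
    ∃ x, |f x| < 1 := by
  by_contra hc
  push Not at hc
  have habs : ∀ x, f x = 1 ∨ f x = -1 := by
    intro x
    have h1 : |f x| = 1 := le_antisymm (hf x) (hc x)
    exact eq_or_eq_neg_of_abs_eq h1
  have hz : ∃ x, f x = 0 := by
    have hcont : Continuous f := f.continuous
    rcases habs 0 with h0 | h0 <;> rcases habs 1 with h1 | h1
    · exact absurd (h0.trans h1.symm) h
    · exact mem_range_of_exists_le_of_exists_ge hcont ⟨1, by rw [h1]; norm_num⟩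
        ⟨0, by rw [h0]; norm_num⟩
    · exact mem_range_of_exists_le_of_exists_ge hcont ⟨0, by rw [h0]; norm_num⟩
        ⟨1, by rw [h1]; norm_num⟩
    · exact absurd (h0.trans h1.symm) h
  obtain ⟨x, hx⟩ := hz
  have := hc x
  rw [hx, abs_zero] at this
  linarith

end Pool.Agent.Helper86.Tri
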