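import Pool.Agent.Helper86.Tri.D1

set_option autoImplicit false

open Finset

namespace Pool.Agent.Helper86.Tri

section sums

variable {E F G : Type*} [AddCommGroup E] [Module ℝ E] [AddCommGroup F] [Module ℝ F]
    [AddCommGroup G] [Module ℝ G] {b : E → F → G → ℝ}

theorem IsTri.sum₁ (hb : IsTri b) {ι : Type*} (s : Finset ι) (x : ι → E) (y : F) (z : G) :
    b (∑ i ∈ s, x i) y z = ∑ i ∈ s, b (x i) y z :=
  map_sum (AddMonoidHom.mk' (fun x => b x y z) (fun a c => hb.add₁ a c y z)) x s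

theorem IsTri.sum₂ (hb : IsTri b) {ι : Type*} (s : Finset ι) (x : E) (y : ι → F) (z : G) :
    b x (∑ i ∈ s, y i) z = ∑ i ∈ s, b x (y i) z :=
  map_sum (AddMonoidHom.mk' (fun y => b x y z) (fun a c => hb.add₂ x a c z)) y s

theorem IsTri.sum₃ (hb : IsTri b) {ι : Type*} (s : Finset ι) (x : E) (y : F) (z : ι → G) :
    b x y (∑ i ∈ s, z i) = ∑ i ∈ s, b x y (z i) :=
  map_sum (AddMonoidHom.mk' (fun z => b x y z) (fun a c => hb.add₃ x y a c)) z s

end sums

/-- The representation lemma. `e s` are functions with disjoint supports and values in `[0,1]`;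
`w s` is an average of the functions `φ i s • B i`. -/
theorem rep_lemma {K : Type} [TopologicalSpace K] [CompactSpace K]
    (b : C(K, ℝ) → C(K, ℝ) → C(K, ℝ) → ℝ) (hb : IsTri b) {n N : ℕ} (hN : 0 < N)
    (e : Fin n → C(K, ℝ)) (f g : C(K, ℝ)) (φ : Fin N → Fin n → ℝ) (hφ : ∀ i s, |φ i s| ≤ 1)
    (B : Fin N → C(K, ℝ)) (w : Fin n → C(K, ℝ))
    (hw : ∀ s, w s = ((1 : ℝ) / N) • ∑ i, φ i s • B i) (C : ℝ)
    (hC : ∀ i (u v : C(K, ℝ)),
      (u = 1 ∨ ∃ c : Fin n → ℝ, (∀ s, |c s| ≤ 1) ∧ u = ∑ s, c s • e s) →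
      (v = 1 ∨ ∃ c : Fin n → ℝ, (∀ s, |c s| ≤ 1) ∧ v = ∑ s, c s • e s) →
      |b (B i) (f * u) (g * v)| ≤ C) :
    |∑ s, (b (w s) f g - b (w s) (f * (1 - (2 : ℝ) • e s)) (g * (1 - (2 : ℝ) • e s)))| ≤ 8 * C := by
  have hexp : ∀ s, b (w s) f g - b (w s) (f * (1 - (2 : ℝ) • e s)) (g * (1 - (2 : ℝ) • e s)) =
      2 * b (w s) (f * e s) g + 2 * b (w s) f (g * e s) - 4 * b (w s) (f * e s) (g * e s) := by
    intro s
    have e1 : f * (1 - (2 : ℝ) • e s) = f + (-2 : ℝ) • (f * e s) := by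
      ext x; simp; ring
    have e2 : g * (1 - (2 : ℝ) • e s) = g + (-2 : ℝ) • (g * e s) := by
      ext x; simp; ring
    rw [e1, e2, hb.add₂, hb.add₃, hb.add₃, hb.smul₂, hb.smul₂, hb.smul₃, hb.smul₃]
    ring
  have hwb : ∀ s (y z : C(K, ℝ)), b (w s) y z = (1 / N : ℝ) * ∑ i, φ i s * b (B i) y z := by
    intro s y z
    rw [hw, hb.smul₁, hb.sum₁]
    simp only [hb.smul₁]
  have hNr : (0 : ℝ) < N := by exact_mod_cast hN
  -- averages
  have havg : ∀ S : Fin N → ℝ, (∀ i, |S i| ≤ C) → |(1 / N : ℝ) * ∑ i, S i| ≤ C := by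
    intro S hS
    rw [abs_mul, abs_of_pos (by positivity)]
    calc (1 / N : ℝ) * |∑ i, S i| ≤ (1 / N : ℝ) * ∑ i, |S i| :=
          mul_le_mul_of_nonneg_left (Finset.abs_sum_le_sum_abs _ _) (by positivity)
      _ ≤ (1 / N : ℝ) * ∑ i : Fin N, C :=
          mul_le_mul_of_nonneg_left (Finset.sum_le_sum (fun i _ => hS i)) (by positivity)
      _ = C := by
          rw [Finset.sum_const, Finset.card_univ, Fintype.card_fin, nsmul_eq_mul]
          field_simp
  have hswap : ∀ (y z : Fin n → C(K, ℝ)), ∑ s, b (w s) (y s) (z s) = (1 / N : ℝ) * ∑ i, ∑ s, φ i s * b (B i) (y s) (z s) := by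
    intro y z
    simp only [hwb]
    rw [← Finset.mul_sum, Finset.sum_comm]
  have hmulsum : ∀ (h : C(K, ℝ)) (c : Fin n → ℝ), h * ∑ s, c s • e s = ∑ s, c s • (h * e s) := by
    intro h c
    rw [Finset.mul_sum]
    simp only [mul_smul_comm]
  have hT2 : |∑ s, b (w s) (f * e s) g| ≤ C := by
    rw [hswap (fun s => f * e s) (fun _ => g)]
    apply havg
    intro i
    have h1 := hC i (∑ s, φ i s • e s) 1 (Or.inr ⟨φ i, hφ i, rfl⟩) (Or.inl rfl)
    rw [mul_one, hmulsum, hb.sum₂] at h1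
    simp only [hb.smul₂] at h1
    exact h1
  have hT1 : |∑ s, b (w s) f (g * e s)| ≤ C := by
    rw [hswap (fun _ => f) (fun s => g * e s)]
    apply havg
    intro i
    have h1 := hC i 1 (∑ s, φ i s • e s) (Or.inl rfl) (Or.inr ⟨φ i, hφ i, rfl⟩)
    rw [mul_one, hmulsum, hb.sum₃] at h1
    simp only [hb.smul₃] at h1
    exact h1
  have hT3 : |∑ s, b (w s) (f * e s) (g * e s)| ≤ C := by
    rw [hswap (fun s => f * e s) (fun s => g * e s)]
    apply havg
    intro i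
    -- bound for signs
    have hsg : ∀ ε : Fin n → ℝ, (∀ s, ε s = 1 ∨ ε s = -1) →
        |∑ s, ∑ s', ε s * ε s' * (φ i s * b (B i) (f * e s) (g * e s'))| ≤ C := by
      intro ε hε
      have habs : ∀ s, |ε s| = 1 := by
        intro s
        rcases hε s with h | h <;> rw [h] <;> simp
      have h1 := hC i (∑ s, (ε s * φ i s) • e s) (∑ s, ε s • e s)
        (Or.inr ⟨fun s => ε s * φ i s, fun s => by rw [abs_mul, habs, one_mul]; exact hφ i s, rfl⟩)
        (Or.inr ⟨ε, fun s => (habs s).le, rfl⟩)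
      rw [hmulsum f (fun s => ε s * φ i s), hmulsum, hb.sum₂] at h1
      simp only [hb.sum₃, hb.smul₂, hb.smul₃, Finset.mul_sum] at h1
      refine le_trans (le_of_eq ?_) h1
      congr 1
      apply Finset.sum_congr rfl
      intro s _
      apply Finset.sum_congr rfl
      intro s' _
      ring
    rw [abs_le]
    constructor
    · obtain ⟨ε, hε, h2⟩ := exists_signs (fun s s' => -(φ i s * b (B i) (f * e s) (g * e s')))
      have h3 := (abs_le.mp (hsg ε hε)).1
      simp only [mul_neg, Finset.sum_neg_distrib] at h2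
      linarith
    · obtain ⟨ε, hε, h2⟩ := exists_signs (fun s s' => φ i s * b (B i) (f * e s) (g * e s'))
      exact h2.trans (abs_le.mp (hsg ε hε)).2
  have hfin : ∑ s, (b (w s) f g - b (w s) (f * (1 - (2 : ℝ) • e s)) (g * (1 - (2 : ℝ) • e s))) =
      2 * (∑ s, b (w s) (f * e s) g) + 2 * (∑ s, b (w s) f (g * e s)) - 4 * ∑ s, b (w s) (f * e s) (g * e s) := by
    simp only [hexp]
    rw [Finset.sum_sub_distrib, Finset.sum_add_distrib, Finset.mul_sum, Finset.mul_sum, Finset.mul_sum]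
  rw [hfin]
  rw [abs_le] at *
  constructor <;> linarith [hT1.1, hT1.2, hT2.1, hT2.2, hT3.1, hT3.2]

end Pool.Agent.Helper86.Tri
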