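import Pool.Agent.Helper86.Tri.Defs

set_option autoImplicit false

open Finset

namespace Pool.Agent.Helper86.Tri

/-- Trilinear functions and continuous multilinear maps. -/
theorem exists_cmm {E : Type} [NormedAddCommGroup E] [NormedSpace ℝ E]
    (a : E → E → E → ℝ) (ha : IsTri a) (C : ℝ) (hC : ∀ f g h, |a f g h| ≤ C * ‖f‖ * ‖g‖ * ‖h‖) :
    ∃ A : ContinuousMultilinearMap ℝ (fun _ : Fin 3 => E) ℝ, ∀ f : Fin 3 → E,
      A f = a (f 0) (f 1) (f 2) := by
  let A0 : MultilinearMap ℝ (fun _ : Fin 3 => E) ℝ :=
    { toFun := fun f => a (f 0) (f 1) (f 2)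
      map_update_add' := by
        intro inst m i x y
        have h : inst = instDecidableEqFin 3 := Subsingleton.elim _ _
        subst h
        fin_cases i
        · simp [ha.add₁, Function.update_apply]
        · simp [ha.add₂, Function.update_apply]
        · simp [ha.add₃, Function.update_apply]
      map_update_smul' := by
        intro inst m i c x
        have h : inst = instDecidableEqFin 3 := Subsingleton.elim _ _
        subst h
        fin_cases i
        · simp [ha.smul₁, Function.update_apply]
        · simp [ha.smul₂, Function.update_apply]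
        · simp [ha.smul₃, Function.update_apply] }
  refine ⟨A0.mkContinuous C ?_, fun f => rfl⟩
  intro f
  rw [Real.norm_eq_abs, Fin.prod_univ_three]
  have h := hC (f 0) (f 1) (f 2)
  calc |A0 f| ≤ C * ‖f 0‖ * ‖f 1‖ * ‖f 2‖ := h
    _ = C * (‖f 0‖ * ‖f 1‖ * ‖f 2‖) := by ring

theorem cmm_isTri {E : Type} [NormedAddCommGroup E] [NormedSpace ℝ E]
    (A : ContinuousMultilinearMap ℝ (fun _ : Fin 3 => E) ℝ) :
    IsTri (fun f g h => A ![f, g, h]) ∧ (∀ f g h, |A ![f, g, h]| ≤ ‖A‖ * ‖f‖ * ‖g‖ * ‖h‖) := by
  have u0 : ∀ f f' g h : E, (![f, g, h] : Fin 3 → E) = Function.update ![f', g, h] 0 f := by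
    intro f f' g h
    ext i
    fin_cases i <;> simp [Function.update_apply]
  have u1 : ∀ f g g' h : E, (![f, g, h] : Fin 3 → E) = Function.update ![f, g', h] 1 g := by
    intro f g g' h
    ext i
    fin_cases i <;> simp [Function.update_apply]
  have u2 : ∀ f g h h' : E, (![f, g, h] : Fin 3 → E) = Function.update ![f, g, h'] 2 h := by
    intro f g h h'
    ext i
    fin_cases i <;> simp [Function.update_apply]
  constructor
  · constructor
    · intro x x' y z
      show A ![x + x', y, z] = A ![x, y, z] + A ![x', y, z]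
      rw [u0 (x + x') 0 y z, u0 x 0 y z, u0 x' 0 y z, A.map_update_add]
    · intro c x y z
      show A ![c • x, y, z] = c * A ![x, y, z]
      rw [u0 (c • x) 0 y z, u0 x 0 y z, A.map_update_smul, smul_eq_mul]
    · intro x y y' z
      show A ![x, y + y', z] = A ![x, y, z] + A ![x, y', z]
      rw [u1 x (y + y') 0 z, u1 x y 0 z, u1 x y' 0 z, A.map_update_add]
    · intro c x y z
      show A ![x, c • y, z] = c * A ![x, y, z]
      rw [u1 x (c • y) 0 z, u1 x y 0 z, A.map_update_smul, smul_eq_mul]
    · intro x y z z'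
      show A ![x, y, z + z'] = A ![x, y, z] + A ![x, y, z']
      rw [u2 x y (z + z') 0, u2 x y z 0, u2 x y z' 0, A.map_update_add]
    · intro c x y z
      show A ![x, y, c • z] = c * A ![x, y, z]
      rw [u2 x y (c • z) 0, u2 x y z 0, A.map_update_smul, smul_eq_mul]
  · intro f g h
    have h1 := A.le_opNorm ![f, g, h]
    rw [Fin.prod_univ_three, Real.norm_eq_abs] at h1
    refine h1.trans (le_of_eq ?_)
    simp [mul_assoc]

end Pool.Agent.Helper86.Tri
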