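import Pool.Agent.Helper86.Tri.BlockDefs

set_option autoImplicit false

open Finset

namespace Pool.Agent.Helper86.Tri

section blocks

variable {δ a : ℕ → ℝ} (F : ∀ r, Fake (δ r) (a r)) (Cf : Coeffs fun r => (F r).n)
  (S : Switch fun r => (F r).m)

end blocks

theorem avg_add_E1 {ι : Type*} [Fintype ι] (f g : ι → ℝ) :
    avg (fun i => f i + g i) = avg f + avg g := by
  unfold avg; rw [Finset.sum_add_distrib, add_div]

theorem avg_mul' {ι : Type*} [Fintype ι] (c : ℝ) (f : ι → ℝ) :
    avg (fun i => c * f i) = c * avg f := by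
  unfold avg; rw [← Finset.mul_sum, mul_div_assoc]

theorem avg_mono_E1 {ι : Type*} [Fintype ι] {f g : ι → ℝ} (h : ∀ i, f i ≤ g i) :
    avg f ≤ avg g := by
  unfold avg
  apply div_le_div_of_nonneg_right _ (Nat.cast_nonneg _)
  exact Finset.sum_le_sum fun i _ => h i

theorem abs_avg_le_E1 {ι : Type*} [Fintype ι] (f : ι → ℝ) :
    |avg f| ≤ avg (fun i => |f i|) := by
  unfold avg
  rw [abs_div, Nat.abs_cast]
  apply div_le_div_of_nonneg_right _ (Nat.cast_nonneg _)
  exact Finset.abs_sum_le_sum_abs _ _

theorem avg_congr' {ι : Type*} [Fintype ι] {f g : ι → ℝ} (h : ∀ i, f i = g i) :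
    avg f = avg g := by
  rw [funext h]

theorem T_tri {δ a : ℕ → ℝ} (F : ∀ r, Fake (δ r) (a r)) (Cf : Coeffs fun r => (F r).n)
    (S : Switch fun r => (F r).m) (r : ℕ) : IsTri (T F Cf S r) := by
  refine ⟨?_, ?_, ?_, ?_, ?_, ?_⟩
  · intro x x' y z
    unfold T
    rw [← avg_add_E1]
    apply avg_congr'
    intro j
    rw [ContinuousMap.add_apply]; ring
  · intro c x y z
    unfold T
    rw [← avg_mul']
    apply avg_congr'
    intro j
    rw [ContinuousMap.smul_apply, smul_eq_mul]; ring
  · intro x y y' z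
    unfold T
    rw [← avg_add_E1]
    apply avg_congr'
    intro j
    rw [← mul_add, ← avg_add_E1]
    congr 1
    apply avg_congr'
    intro s
    rw [map_add]; ring
  · intro c x y z
    unfold T
    rw [← avg_mul']
    apply avg_congr'
    intro j
    rw [mul_left_comm]
    congr 1
    rw [← avg_mul']
    apply avg_congr'
    intro s
    rw [map_smul, smul_eq_mul]; ring
  · intro x y z z'
    unfold T
    rw [← avg_add_E1]
    apply avg_congr'
    intro j
    rw [← mul_add, ← avg_add_E1]
    congr 1
    apply avg_congr'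
    intro s
    rw [map_add]; ring
  · intro c x y z
    unfold T
    rw [← avg_mul']
    apply avg_congr'
    intro j
    rw [mul_left_comm]
    congr 1
    rw [← avg_mul']
    apply avg_congr'
    intro s
    rw [map_smul, smul_eq_mul]; ring

theorem T_bound {δ a : ℕ → ℝ} (F : ∀ r, Fake (δ r) (a r)) (Cf : Coeffs fun r => (F r).n)
    (S : Switch fun r => (F r).m) (r : ℕ) (x : C(unitInterval, ℝ))
    (y z : C(Pt fun r => (F r).n, ℝ)) :
    |T F Cf S r x y z| ≤
      ‖x‖ * (avg (fun s => |Cf.co r s y| * |Cf.co r s z|) + δ r * (‖y‖ * ‖z‖)) := by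
  have h1 : |T F Cf S r x y z| ≤
      ‖x‖ * avg (fun j => |avg fun s => (F r).K j s * (Cf.co r s y * Cf.co r s z)|) := by
    unfold T
    refine (abs_avg_le_E1 _).trans ?_
    rw [← avg_mul']
    apply avg_mono_E1
    intro j
    rw [abs_mul]
    apply mul_le_mul_of_nonneg_right _ (abs_nonneg _)
    exact x.norm_coe_le_norm (S.t r j)
  refine h1.trans (mul_le_mul_of_nonneg_left ?_ (norm_nonneg x))
  have hbd : ∀ s, |Cf.co r s y * Cf.co r s z| ≤ ‖y‖ * ‖z‖ := by
    intro s
    rw [abs_mul]
    exact mul_le_mul (Cf.co_le r s y) (Cf.co_le r s z) (abs_nonneg _) (norm_nonneg _)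
  have hc0 : 0 ≤ ‖y‖ * ‖z‖ := mul_nonneg (norm_nonneg _) (norm_nonneg _)
  rcases hc0.eq_or_lt with hc | hc
  · have hz : ∀ s, Cf.co r s y * Cf.co r s z = 0 := by
      intro s
      have := hbd s
      rw [← hc] at this
      exact abs_eq_zero.1 (le_antisymm this (abs_nonneg _))
    rw [← hc, mul_zero, add_zero]
    have e1 : (fun j => |avg fun s => (F r).K j s * (Cf.co r s y * Cf.co r s z)|) =
        fun _ => (0 : ℝ) := by
      funext j
      have : (fun s => (F r).K j s * (Cf.co r s y * Cf.co r s z)) = fun _ => (0 : ℝ) := by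
        funext s; rw [hz s, mul_zero]
      rw [this]; simp [avg]
    have e2 : (fun s => |Cf.co r s y| * |Cf.co r s z|) = fun _ => (0 : ℝ) := by
      funext s; rw [← abs_mul, hz s, abs_zero]
    rw [e1, e2]; simp [avg]
  · set c := ‖y‖ * ‖z‖ with hcdef
    have hg := (F r).hK (fun s => Cf.co r s y * Cf.co r s z / c) (by
      intro s
      rw [abs_div, abs_of_pos hc, div_le_one hc]
      exact hbd s)
    have e1 : avg (fun j => |avg fun s => (F r).K j s * (Cf.co r s y * Cf.co r s z)|) =
        c * avg (fun j => |avg fun s => (F r).K j s * (Cf.co r s y * Cf.co r s z / c)|) := by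
      rw [← avg_mul']
      apply avg_congr'
      intro j
      have e3 : avg (fun s => (F r).K j s * (Cf.co r s y * Cf.co r s z)) =
          c * avg (fun s => (F r).K j s * (Cf.co r s y * Cf.co r s z / c)) := by
        rw [← avg_mul']
        apply avg_congr'
        intro s
        field_simp
      rw [e3, abs_mul, abs_of_pos hc]
    have e2 : avg (fun s => |Cf.co r s y| * |Cf.co r s z|) =
        c * avg (fun s => |Cf.co r s y * Cf.co r s z / c|) := by
      rw [← avg_mul']
      apply avg_congr'
      intro s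
      rw [abs_div, abs_of_pos hc, abs_mul]
      field_simp
    rw [e1, e2]
    have := mul_le_mul_of_nonneg_left hg hc.le
    linarith

end Pool.Agent.Helper86.Tri
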