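import Pool.Agent.Helper86.Tri.E1

set_option autoImplicit false

open Finset

namespace Pool.Agent.Helper86.Tri

section blocks

variable {δ a : ℕ → ℝ} (F : ∀ r, Fake (δ r) (a r)) (Cf : Coeffs fun r => (F r).n)
  (S : Switch fun r => (F r).m)

end blocks

theorem avg_cs {n : ℕ → ℕ} (P : Finset ℕ) (a b : ∀ r, Fin (n r) → ℝ) (Y Z : ℝ) (hY : 0 ≤ Y) (hZ : 0 ≤ Z)
    (hy : ∑ r ∈ P, avg (fun s => (a r s) ^ 2) ≤ Y ^ 2)
    (hz : ∑ r ∈ P, avg (fun s => (b r s) ^ 2) ≤ Z ^ 2) :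
    ∑ r ∈ P, avg (fun s => |a r s| * |b r s|) ≤ Y * Z := by
  classical
  have h := Finset.sum_mul_sq_le_sq_mul_sq (P.sigma (fun r => (Finset.univ : Finset (Fin (n r)))))
    (fun q => |a q.1 q.2| / Real.sqrt (n q.1)) (fun q => |b q.1 q.2| / Real.sqrt (n q.1))
  rw [Finset.sum_sigma, Finset.sum_sigma, Finset.sum_sigma] at h
  have hs : ∀ r, Real.sqrt (n r) * Real.sqrt (n r) = n r := fun r => Real.mul_self_sqrt (Nat.cast_nonneg _)
  have e1 : ∑ r ∈ P, ∑ s, |a r s| / Real.sqrt (n r) * (|b r s| / Real.sqrt (n r))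
      = ∑ r ∈ P, avg (fun s => |a r s| * |b r s|) := by
    refine Finset.sum_congr rfl fun r _ => ?_
    unfold avg
    rw [Finset.sum_div]
    refine Finset.sum_congr rfl fun s _ => ?_
    rw [div_mul_div_comm, hs, Fintype.card_fin]
  have e2 : ∑ r ∈ P, ∑ s, (|a r s| / Real.sqrt (n r)) ^ 2 = ∑ r ∈ P, avg (fun s => (a r s) ^ 2) := by
    refine Finset.sum_congr rfl fun r _ => ?_
    unfold avg
    rw [Finset.sum_div]
    refine Finset.sum_congr rfl fun s _ => ?_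
    rw [div_pow, sq_abs, pow_two (Real.sqrt _), hs, Fintype.card_fin]
  have e3 : ∑ r ∈ P, ∑ s, (|b r s| / Real.sqrt (n r)) ^ 2 = ∑ r ∈ P, avg (fun s => (b r s) ^ 2) := by
    refine Finset.sum_congr rfl fun r _ => ?_
    unfold avg
    rw [Finset.sum_div]
    refine Finset.sum_congr rfl fun s _ => ?_
    rw [div_pow, sq_abs, pow_two (Real.sqrt _), hs, Fintype.card_fin]
  simp only at h
  rw [e1, e2, e3] at h
  have h0 : 0 ≤ ∑ r ∈ P, avg (fun s => (b r s) ^ 2) :=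
    Finset.sum_nonneg fun r _ => div_nonneg (Finset.sum_nonneg fun s _ => sq_nonneg _) (Nat.cast_nonneg _)
  have h1 : (∑ r ∈ P, avg (fun s => |a r s| * |b r s|)) ^ 2 ≤ (Y * Z) ^ 2 := by
    rw [mul_pow]
    exact h.trans (mul_le_mul hy hz h0 (sq_nonneg _))
  by_contra hno
  rw [not_le] at hno
  exact absurd h1 (not_le.2 (pow_lt_pow_left₀ hno (mul_nonneg hY hZ) two_ne_zero))

theorem T_sum_bound {δ a : ℕ → ℝ} (F : ∀ r, Fake (δ r) (a r)) (Cf : Coeffs fun r => (F r).n)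
    (S : Switch fun r => (F r).m) (P : Finset ℕ) (x : C(unitInterval, ℝ))
    (y z : C(Pt fun r => (F r).n, ℝ)) (Y Z : ℝ) (hY : 0 ≤ Y) (hZ : 0 ≤ Z)
    (hy : ∑ r ∈ P, avg (fun s => (Cf.co r s y) ^ 2) ≤ Y ^ 2)
    (hz : ∑ r ∈ P, avg (fun s => (Cf.co r s z) ^ 2) ≤ Z ^ 2) :
    ∑ r ∈ P, |T F Cf S r x y z| ≤ ‖x‖ * (Y * Z + (∑ r ∈ P, δ r) * (‖y‖ * ‖z‖)) := by
  calc ∑ r ∈ P, |T F Cf S r x y z|
      ≤ ∑ r ∈ P, ‖x‖ * (avg (fun s => |Cf.co r s y| * |Cf.co r s z|) + δ r * (‖y‖ * ‖z‖)) :=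
        Finset.sum_le_sum fun r _ => T_bound F Cf S r x y z
    _ = ‖x‖ * (∑ r ∈ P, avg (fun s => |Cf.co r s y| * |Cf.co r s z|) + (∑ r ∈ P, δ r) * (‖y‖ * ‖z‖)) := by
        rw [← Finset.mul_sum, Finset.sum_add_distrib, Finset.sum_mul]
    _ ≤ _ := by
        apply mul_le_mul_of_nonneg_left _ (norm_nonneg x)
        have := avg_cs P (fun r s => Cf.co r s y) (fun r s => Cf.co r s z) Y Z hY hZ hy hz
        linarith

end Pool.Agent.Helper86.Tri
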