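import Pool.Agent.Helper86.Tri.E2

set_option autoImplicit false

open Finset

namespace Pool.Agent.Helper86.Tri

section blocks

variable {δ a : ℕ → ℝ} (F : ∀ r, Fake (δ r) (a r)) (Cf : Coeffs fun r => (F r).n)
  (S : Switch fun r => (F r).m)

end blocks

theorem T_summable {δ a : ℕ → ℝ} (F : ∀ r, Fake (δ r) (a r)) (Cf : Coeffs fun r => (F r).n)
    (S : Switch fun r => (F r).m) (hδ1 : ∀ P : Finset ℕ, ∑ r ∈ P, δ r ≤ 1)
    (x : C(unitInterval, ℝ)) (y z : C(Pt fun r => (F r).n, ℝ)) :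
    Summable (fun r => T F Cf S r x y z) ∧ |TT F Cf S x y z| ≤ 2 * ‖x‖ * ‖y‖ * ‖z‖ := by
  have hb : ∀ P : Finset ℕ, ∑ r ∈ P, |T F Cf S r x y z| ≤ 2 * ‖x‖ * ‖y‖ * ‖z‖ := by
    intro P
    have h := T_sum_bound F Cf S P x y z ‖y‖ ‖z‖ (norm_nonneg _) (norm_nonneg _)
      (Cf.bessel P y) (Cf.bessel P z)
    refine h.trans ?_
    have h1 : (∑ r ∈ P, δ r) * (‖y‖ * ‖z‖) ≤ 1 * (‖y‖ * ‖z‖) :=
      mul_le_mul_of_nonneg_right (hδ1 P) (mul_nonneg (norm_nonneg _) (norm_nonneg _))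
    have h2 : ‖x‖ * (‖y‖ * ‖z‖ + (∑ r ∈ P, δ r) * (‖y‖ * ‖z‖)) ≤
        ‖x‖ * (‖y‖ * ‖z‖ + 1 * (‖y‖ * ‖z‖)) :=
      mul_le_mul_of_nonneg_left (by linarith) (norm_nonneg _)
    linarith
  have hs : Summable (fun r => |T F Cf S r x y z|) :=
    summable_of_sum_le (fun r => abs_nonneg _) hb
  refine ⟨hs.of_abs, ?_⟩
  have hs' : Summable (fun r => ‖T F Cf S r x y z‖) := hs
  have h1 : |TT F Cf S x y z| ≤ ∑' r, |T F Cf S r x y z| := by
    have := norm_tsum_le_tsum_norm hs'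
    exact this
  exact h1.trans (hs.tsum_le_of_sum_le hb)

theorem TT_tri {δ a : ℕ → ℝ} (F : ∀ r, Fake (δ r) (a r)) (Cf : Coeffs fun r => (F r).n)
    (S : Switch fun r => (F r).m) (hδ1 : ∀ P : Finset ℕ, ∑ r ∈ P, δ r ≤ 1) :
    IsTri (TT F Cf S) := by
  have hs := fun x y z => (T_summable F Cf S hδ1 x y z).1
  constructor
  · intro x x' y z
    unfold TT
    rw [← (hs x y z).tsum_add (hs x' y z)]
    exact tsum_congr (fun r => (T_tri F Cf S r).add₁ x x' y z)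
  · intro c x y z
    unfold TT
    rw [← tsum_mul_left]
    exact tsum_congr (fun r => (T_tri F Cf S r).smul₁ c x y z)
  · intro x y y' z
    unfold TT
    rw [← (hs x y z).tsum_add (hs x y' z)]
    exact tsum_congr (fun r => (T_tri F Cf S r).add₂ x y y' z)
  · intro c x y z
    unfold TT
    rw [← tsum_mul_left]
    exact tsum_congr (fun r => (T_tri F Cf S r).smul₂ c x y z)
  · intro x y z z'
    unfold TT
    rw [← (hs x y z).tsum_add (hs x y z')]
    exact tsum_congr (fun r => (T_tri F Cf S r).add₃ x y z z')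
  · intro c x y z
    unfold TT
    rw [← tsum_mul_left]
    exact tsum_congr (fun r => (T_tri F Cf S r).smul₃ c x y z)

end Pool.Agent.Helper86.Tri
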