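import Pool.Agent.Helper86.Tri.E1

set_option autoImplicit false

open Finset

namespace Pool.Agent.Helper86.Tri

section blocks

variable {δ a : ℕ → ℝ} (F : ∀ r, Fake (δ r) (a r)) (Cf : Coeffs fun r => (F r).n)
  (S : Switch fun r => (F r).m)

end blocks

theorem avg_sub_E4 {ι : Type*} [Fintype ι] (f g : ι → ℝ) :
    avg f - avg g = avg fun i => f i - g i := by
  unfold avg
  rw [Finset.sum_sub_distrib, sub_div]

theorem block_value {δ a : ℕ → ℝ} (F : ∀ r, Fake (δ r) (a r)) (Cf : Coeffs fun r => (F r).n)
    (S : Switch fun r => (F r).m) (r : ℕ) (w : Fin (F r).n → C(unitInterval, ℝ))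
    (hw : ∀ s j, w s (S.t r j) = W F r j s) (y z : C(Pt fun r => (F r).n, ℝ)) :
    ∑ s, (T F Cf S r (w s) y z - T F Cf S r (w s) (y * (1 - (2 : ℝ) • ind (fun r => (F r).n) r s))
      (z * (1 - (2 : ℝ) • ind (fun r => (F r).n) r s))) =
    - avg (fun s => (Cf.cm r s y * Cf.co r s z + Cf.co r s y * Cf.cm r s z +
        Cf.cm r s y * Cf.cm r s z) * avg fun j => W F r j s * (F r).K j s) := by
  have hc : ∀ (y : C(Pt fun r => (F r).n, ℝ)) (s s' : Fin (F r).n),
      Cf.co r s' (y * (1 - (2 : ℝ) • ind (fun r => (F r).n) r s)) =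
        Cf.co r s' y + (if s = s' then Cf.cm r s y else 0) := by
    intro y s s'
    rw [mul_sub, mul_one, mul_smul_comm, map_sub, map_smul, Cf.loc, smul_eq_mul]
    by_cases h : s = s'
    · rw [if_pos h, if_pos h]; ring
    · rw [if_neg h, if_neg h]; ring
  have key : ∀ s : Fin (F r).n,
      T F Cf S r (w s) y z - T F Cf S r (w s) (y * (1 - (2 : ℝ) • ind (fun r => (F r).n) r s))
        (z * (1 - (2 : ℝ) • ind (fun r => (F r).n) r s)) =
      -(((Cf.cm r s y * Cf.co r s z + Cf.co r s y * Cf.cm r s z +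
        Cf.cm r s y * Cf.cm r s z) * avg fun j => W F r j s * (F r).K j s) /
          Fintype.card (Fin (F r).n)) := by
    intro s
    set X : ℝ := Cf.cm r s y * Cf.co r s z + Cf.co r s y * Cf.cm r s z +
        Cf.cm r s y * Cf.cm r s z with hX
    unfold T
    rw [avg_sub_E4]
    have h1 : ∀ j, w s (S.t r j) * (avg fun s' => (F r).K j s' *
          (Cf.co r s' y * Cf.co r s' z)) -
        w s (S.t r j) * (avg fun s' => (F r).K j s' *
          (Cf.co r s' (y * (1 - (2 : ℝ) • ind (fun r => (F r).n) r s)) *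
            Cf.co r s' (z * (1 - (2 : ℝ) • ind (fun r => (F r).n) r s)))) =
        (W F r j s * (F r).K j s) * (-X / Fintype.card (Fin (F r).n)) := by
      intro j
      rw [hw, ← mul_sub, avg_sub_E4]
      have h2 : ∀ s', (F r).K j s' * (Cf.co r s' y * Cf.co r s' z) - (F r).K j s' *
          (Cf.co r s' (y * (1 - (2 : ℝ) • ind (fun r => (F r).n) r s)) *
            Cf.co r s' (z * (1 - (2 : ℝ) • ind (fun r => (F r).n) r s))) =
          if s = s' then -((F r).K j s * X) else 0 := by
        intro s'
        rw [hc y s s', hc z s s']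
        by_cases h : s = s'
        · subst h
          rw [if_pos rfl, if_pos rfl, if_pos rfl, hX]
          ring
        · rw [if_neg h, if_neg h, if_neg h]
          ring
      have h3 : (avg fun s' => (F r).K j s' * (Cf.co r s' y * Cf.co r s' z) - (F r).K j s' *
          (Cf.co r s' (y * (1 - (2 : ℝ) • ind (fun r => (F r).n) r s)) *
            Cf.co r s' (z * (1 - (2 : ℝ) • ind (fun r => (F r).n) r s)))) =
          -((F r).K j s * X) / Fintype.card (Fin (F r).n) := by
        unfold avg
        rw [Finset.sum_congr rfl fun s' _ => h2 s', Finset.sum_ite_eq,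
          if_pos (Finset.mem_univ _)]
      rw [h3]
      ring
    have h4 : (avg fun j => w s (S.t r j) * (avg fun s' => (F r).K j s' *
          (Cf.co r s' y * Cf.co r s' z)) -
        w s (S.t r j) * (avg fun s' => (F r).K j s' *
          (Cf.co r s' (y * (1 - (2 : ℝ) • ind (fun r => (F r).n) r s)) *
            Cf.co r s' (z * (1 - (2 : ℝ) • ind (fun r => (F r).n) r s))))) =
        (avg fun j => W F r j s * (F r).K j s) * (-X / Fintype.card (Fin (F r).n)) := by
      unfold avg at h1 ⊢
      rw [Finset.sum_congr rfl fun j _ => h1 j, ← Finset.sum_mul]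
      ring
    rw [h4]
    ring
  rw [Finset.sum_congr rfl fun s _ => key s, Finset.sum_neg_distrib]
  congr 1
  conv_rhs => unfold avg
  rw [← Finset.sum_div]
  rfl

end Pool.Agent.Helper86.Tri
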