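import Pool.Agent.Helper86.Tri.BlockDefs

set_option autoImplicit false

open Finset

namespace Pool.Agent.Helper86.Tri

section blocks

variable {δ a : ℕ → ℝ} (F : ∀ r, Fake (δ r) (a r)) (Cf : Coeffs fun r => (F r).n)
  (S : Switch fun r => (F r).m)

end blocks

section avgl

variable {ι κ : Type*} [Fintype ι] [Fintype κ]

theorem avg_comm_E5 (f : ι → κ → ℝ) : avg (fun i => avg fun j => f i j) = avg (fun j => avg fun i => f i j) := by
  unfold avg
  rw [← Finset.sum_div, ← Finset.sum_div, Finset.sum_comm]
  ring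

theorem avg_mul_left_E5 (c : ℝ) (f : ι → ℝ) : avg (fun i => c * f i) = c * avg f := by
  unfold avg
  rw [← Finset.mul_sum, mul_div_assoc]

theorem avg_mono_E5 {f g : ι → ℝ} (h : ∀ i, f i ≤ g i) : avg f ≤ avg g := by
  unfold avg
  exact div_le_div_of_nonneg_right (Finset.sum_le_sum fun i _ => h i) (Nat.cast_nonneg _)

theorem abs_avg_le_E5 (f : ι → ℝ) : |avg f| ≤ avg (fun i => |f i|) := by
  unfold avg
  rw [abs_div, abs_of_nonneg (Nat.cast_nonneg (α := ℝ) (Fintype.card ι))]
  exact div_le_div_of_nonneg_right (Finset.abs_sum_le_sum_abs _ _) (Nat.cast_nonneg _)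

theorem avg_le_const' {f : ι → ℝ} {c : ℝ} (hc : 0 ≤ c) (h : ∀ i, f i ≤ c) : avg f ≤ c := by
  unfold avg
  rcases isEmpty_or_nonempty ι with he | he
  · simp [hc]
  · rw [div_le_iff₀ (by exact_mod_cast Fintype.card_pos)]
    refine (Finset.sum_le_sum fun i _ => h i).trans ?_
    simp [mul_comm]

end avgl

theorem V_bound {δ a : ℝ} (G : Fake δ a) (i : Fin G.N) :
    avg (fun s => |avg fun j => G.α i j * G.K j s|) ≤ 1 + δ := by
  let g : Fin G.n → ℝ := fun s => SignType.sign (avg fun j => G.α i j * G.K j s)
  have hg : ∀ s, |g s| ≤ 1 := by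
    intro s
    simp only [g]
    rcases lt_trichotomy (avg fun j => G.α i j * G.K j s) 0 with h | h | h
    · simp [sign_neg h]
    · simp [h]
    · simp [sign_pos h]
  have h1 : ∀ s, |avg fun j => G.α i j * G.K j s| = avg fun j => G.α i j * (G.K j s * g s) := by
    intro s
    have h2 : |avg fun j => G.α i j * G.K j s| = g s * (avg fun j => G.α i j * G.K j s) := by
      simp only [g]
      exact (sign_mul_self _).symm
    rw [h2, ← avg_mul_left_E5]
    congr 1
    ext j; ring
  simp_rw [h1]
  rw [avg_comm_E5]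
  have h3 : ∀ j, (avg fun s => G.α i j * (G.K j s * g s)) ≤ |avg fun s => G.K j s * g s| := by
    intro j
    rw [avg_mul_left_E5]
    refine (le_abs_self _).trans ?_
    rw [abs_mul]
    exact mul_le_of_le_one_left (abs_nonneg _) (G.hα i j)
  refine (avg_mono_E5 h3).trans ((G.hK g hg).trans ?_)
  have := avg_le_const' zero_le_one hg
  linarith

theorem U_bound {δ a : ℕ → ℝ} (F : ∀ r, Fake (δ r) (a r)) (r : ℕ) (hδ : δ r ≤ 1) :
    avg (fun s => |avg fun j => W F r j s * (F r).K j s|) ≤ 2 ∧
      1 / 4 ≤ avg (fun s => avg fun j => W F r j s * (F r).K j s) := by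
  constructor
  · have h1 : ∀ s, (avg fun j => W F r j s * (F r).K j s) =
        avg fun i => (F r).φ i s * avg fun j => (F r).α i j * (F r).K j s := by
      intro s
      have h2 : ∀ j, W F r j s * (F r).K j s =
          avg fun i => (F r).φ i s * ((F r).α i j * (F r).K j s) := by
        intro j
        unfold W
        rw [mul_comm, ← avg_mul_left_E5]
        congr 1
        ext i; ring
      simp_rw [h2]
      rw [avg_comm_E5]
      congr 1
      ext i
      rw [avg_mul_left_E5]
    have h3 : ∀ s, |avg fun j => W F r j s * (F r).K j s| ≤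
        avg fun i => |avg fun j => (F r).α i j * (F r).K j s| := by
      intro s
      rw [h1]
      refine (abs_avg_le_E5 _).trans (avg_mono_E5 fun i => ?_)
      rw [abs_mul]
      exact mul_le_of_le_one_left (abs_nonneg _) ((F r).hφ i s)
    refine (avg_mono_E5 h3).trans ?_
    rw [avg_comm_E5]
    refine avg_le_const' (by norm_num) fun i => ?_
    exact (V_bound (F r) i).trans (by linarith)
  · refine (F r).hU.trans (le_of_eq ?_)
    rw [avg_comm_E5]
    congr 1
    ext s
    congr 1
    ext j
    unfold W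
    ring

end Pool.Agent.Helper86.Tri
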