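import Pool.Agent.Helper86.Tri.E5

set_option autoImplicit false

open Finset

namespace Pool.Agent.Helper86.Tri

section blocks

variable {δ a : ℕ → ℝ} (F : ∀ r, Fake (δ r) (a r)) (Cf : Coeffs fun r => (F r).n)
  (S : Switch fun r => (F r).m)

end blocks

theorem blk_avg_add {ι : Type*} [Fintype ι] (f g : ι → ℝ) :
    avg (fun i => f i + g i) = avg f + avg g := by
  unfold avg
  rw [Finset.sum_add_distrib, add_div]

theorem blk_avg_mul {ι : Type*} [Fintype ι] (c : ℝ) (f : ι → ℝ) :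
    avg (fun i => c * f i) = c * avg f := by
  unfold avg
  rw [← Finset.mul_sum, mul_div_assoc]

theorem blk_abs_avg {ι : Type*} [Fintype ι] (f g : ι → ℝ) (h : ∀ i, |f i| ≤ g i) :
    |avg f| ≤ avg g := by
  unfold avg
  rw [abs_div, Nat.abs_cast]
  exact div_le_div_of_nonneg_right ((Finset.abs_sum_le_sum_abs _ _).trans
    (Finset.sum_le_sum fun i _ => h i)) (Nat.cast_nonneg _)

theorem block_lower {δ a : ℕ → ℝ} (F : ∀ r, Fake (δ r) (a r)) (Cf : Coeffs fun r => (F r).n)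
    (r : ℕ) (hδ : δ r ≤ 1) (y z : C(Pt fun r => (F r).n, ℝ)) (hy : ‖y‖ ≤ 1) (hz : ‖z‖ ≤ 1)
    (η : ℝ) (hη : 0 ≤ η) (hy1 : ∀ s, |Cf.co r s y| ≤ η) (hz1 : ∀ s, |Cf.co r s z| ≤ η)
    (hy2 : ∀ s, |Cf.cm r s y - Cf.I y| ≤ 2 * η) (hz2 : ∀ s, |Cf.cm r s z - Cf.I z| ≤ 2 * η)
    (τ : ℝ) (hτ : τ = 1 ∨ τ = -1) (hnn : 1 / 2 ≤ τ * (Cf.I y * Cf.I z)) :
    1 / 8 - 12 * η ≤ τ * avg (fun s => (Cf.cm r s y * Cf.co r s z + Cf.co r s y * Cf.cm r s z +
        Cf.cm r s y * Cf.cm r s z) * avg fun j => W F r j s * (F r).K j s) := by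
  obtain ⟨hU1, hU2⟩ := U_bound F r hδ
  obtain ⟨U, hU⟩ : ∃ U : Fin (F r).n → ℝ, ∀ s, (avg fun j => W F r j s * (F r).K j s) = U s :=
    ⟨_, fun s => rfl⟩
  simp only [hU] at hU1 hU2 ⊢
  have hP : ∀ s, |(Cf.cm r s y * Cf.co r s z + Cf.co r s y * Cf.cm r s z +
        Cf.cm r s y * Cf.cm r s z) - Cf.I y * Cf.I z| ≤ 6 * η := by
    intro s
    have a1 : |Cf.cm r s y| ≤ 1 := (Cf.cm_le r s y).trans hy
    have a2 : |Cf.cm r s z| ≤ 1 := (Cf.cm_le r s z).trans hz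
    have a3 : |Cf.I z| ≤ 1 := (Cf.I_le z).trans hz
    have e : (Cf.cm r s y * Cf.co r s z + Cf.co r s y * Cf.cm r s z +
        Cf.cm r s y * Cf.cm r s z) - Cf.I y * Cf.I z =
        Cf.cm r s y * Cf.co r s z + Cf.co r s y * Cf.cm r s z +
        (Cf.cm r s y * (Cf.cm r s z - Cf.I z) + (Cf.cm r s y - Cf.I y) * Cf.I z) := by ring
    rw [e]
    have b1 : |Cf.cm r s y * Cf.co r s z| ≤ 1 * η := by
      rw [abs_mul]
      exact mul_le_mul a1 (hz1 s) (abs_nonneg _) zero_le_one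
    have b2 : |Cf.co r s y * Cf.cm r s z| ≤ η * 1 := by
      rw [abs_mul]
      exact mul_le_mul (hy1 s) a2 (abs_nonneg _) hη
    have b3 : |Cf.cm r s y * (Cf.cm r s z - Cf.I z)| ≤ 1 * (2 * η) := by
      rw [abs_mul]
      exact mul_le_mul a1 (hz2 s) (abs_nonneg _) zero_le_one
    have b4 : |(Cf.cm r s y - Cf.I y) * Cf.I z| ≤ (2 * η) * 1 := by
      rw [abs_mul]
      exact mul_le_mul (hy2 s) a3 (abs_nonneg _) (by linarith)
    refine (abs_add_le _ _).trans ?_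
    have c1 := abs_add_le (Cf.cm r s y * Cf.co r s z) (Cf.co r s y * Cf.cm r s z)
    have c2 := abs_add_le (Cf.cm r s y * (Cf.cm r s z - Cf.I z))
      ((Cf.cm r s y - Cf.I y) * Cf.I z)
    linarith
  have hsplit : avg (fun s => (Cf.cm r s y * Cf.co r s z + Cf.co r s y * Cf.cm r s z +
        Cf.cm r s y * Cf.cm r s z) * U s) = (Cf.I y * Cf.I z) * avg U +
      avg (fun s => ((Cf.cm r s y * Cf.co r s z + Cf.co r s y * Cf.cm r s z +
        Cf.cm r s y * Cf.cm r s z) - Cf.I y * Cf.I z) * U s) := by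
    rw [← blk_avg_mul, ← blk_avg_add]
    congr 1
    funext s
    ring
  have herr : |avg (fun s => ((Cf.cm r s y * Cf.co r s z + Cf.co r s y * Cf.cm r s z +
        Cf.cm r s y * Cf.cm r s z) - Cf.I y * Cf.I z) * U s)| ≤ 6 * η * avg (fun s => |U s|) := by
    rw [← blk_avg_mul]
    refine blk_abs_avg _ _ (fun s => ?_)
    rw [abs_mul]
    exact mul_le_mul_of_nonneg_right (hP s) (abs_nonneg _)
  have herr2 : |avg (fun s => ((Cf.cm r s y * Cf.co r s z + Cf.co r s y * Cf.cm r s z +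
        Cf.cm r s y * Cf.cm r s z) - Cf.I y * Cf.I z) * U s)| ≤ 12 * η := by
    refine herr.trans ?_
    have : 6 * η * avg (fun s => |U s|) ≤ 6 * η * 2 :=
      mul_le_mul_of_nonneg_left hU1 (by linarith)
    linarith
  have hmain : 1 / 8 ≤ τ * (Cf.I y * Cf.I z) * avg U := by
    have : (1 / 2 : ℝ) * (1 / 4) ≤ τ * (Cf.I y * Cf.I z) * avg U :=
      mul_le_mul hnn hU2 (by norm_num) (by linarith)
    linarith
  rw [hsplit, mul_add, ← mul_assoc]
  have habs := abs_le.1 herr2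
  rcases hτ with rfl | rfl
  · linarith [habs.1]
  · linarith [habs.2]

end Pool.Agent.Helper86.Tri
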