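import Pool.Agent.Helper86.Tri.E3

set_option autoImplicit false

open Finset

namespace Pool.Agent.Helper86.Tri

section blocks

variable {δ a : ℕ → ℝ} (F : ∀ r, Fake (δ r) (a r)) (Cf : Coeffs fun r => (F r).n)
  (S : Switch fun r => (F r).m)

end blocks

theorem bessel_aux {δ a : ℕ → ℝ} (F : ∀ r, Fake (δ r) (a r)) (Cf : Coeffs fun r => (F r).n)
    (P : Finset ℕ) (η : ℝ) (y g u : C(Pt fun r => (F r).n, ℝ))
    (hyg : ‖y - g‖ ≤ η) (hu : ‖u‖ ≤ 1)
    (hgu : ∀ l ∈ P, ∀ s, Cf.co l s (g * u) = 0) :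
    ∑ l ∈ P, avg (fun s => (Cf.co l s (y * u)) ^ 2) ≤ η ^ 2 := by
  have h1 : ∀ l ∈ P, avg (fun s => (Cf.co l s (y * u)) ^ 2) =
      avg (fun s => (Cf.co l s ((y - g) * u)) ^ 2) := by
    intro l hl
    congr 1
    funext s
    have h2 : y * u = (y - g) * u + g * u := by rw [sub_mul, sub_add_cancel]
    rw [h2, map_add, hgu l hl s, add_zero]
  rw [Finset.sum_congr rfl h1]
  refine (Cf.bessel P _).trans ?_
  have h3 : ‖(y - g) * u‖ ≤ η := by
    refine (norm_mul_le _ _).trans ?_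
    have h0 : 0 ≤ ‖y - g‖ := norm_nonneg _
    have h4 : 0 ≤ ‖u‖ := norm_nonneg _
    nlinarith
  exact pow_le_pow_left₀ (norm_nonneg _) h3 2

/-- The other blocks are small on the test functions. -/
theorem tail_small {δ a : ℕ → ℝ} (F : ∀ r, Fake (δ r) (a r)) (Cf : Coeffs fun r => (F r).n)
    (S : Switch fun r => (F r).m) (hδ0 : ∀ r, 0 ≤ δ r) (hδ1 : ∀ P : Finset ℕ, ∑ r ∈ P, δ r ≤ 1)
    (R r : ℕ) (hr : R ≤ r) (η : ℝ) (hη : 0 ≤ η) (hη1 : η ≤ 1)
    (hδR : ∀ P : Finset ℕ, (∀ l ∈ P, R ≤ l) → ∑ l ∈ P, δ l ≤ η)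
    (x : C(unitInterval, ℝ)) (hx : ‖x‖ ≤ 1) (hx0 : ∀ l, l < R → ∀ j, x (S.t l j) = 0)
    (y z g g' u v : C(Pt fun r => (F r).n, ℝ)) (hy : ‖y‖ ≤ 1) (hz : ‖z‖ ≤ 1)
    (hyg : ‖y - g‖ ≤ η) (hzg : ‖z - g'‖ ≤ η) (hu : ‖u‖ ≤ 1) (hv : ‖v‖ ≤ 1)
    (hgu : ∀ l, R ≤ l → l ≠ r → ∀ s, Cf.co l s (g * u) = 0)
    (hgv : ∀ l, R ≤ l → l ≠ r → ∀ s, Cf.co l s (g' * v) = 0) :
    |TT F Cf S x (y * u) (z * v) - T F Cf S r x (y * u) (z * v)| ≤ 2 * η := by
  obtain ⟨hsum, _⟩ := T_summable F Cf S hδ1 x (y * u) (z * v)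
  set f : ℕ → ℝ := fun l => T F Cf S l x (y * u) (z * v) with hf
  have hTT : TT F Cf S x (y * u) (z * v) = ∑' l, f l := rfl
  have hfr : T F Cf S r x (y * u) (z * v) = f r := rfl
  rw [hTT, hfr, hsum.tsum_eq_add_tsum_ite r, add_sub_cancel_left]
  have hsg : Summable (fun l => if l = r then 0 else f l) := by
    have h1 : (fun l => if l = r then 0 else f l) = fun l => f l - (if l = r then f r else 0) := by
      funext l
      split_ifs with h
      · rw [h, sub_self]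
      · rw [sub_zero]
    rw [h1]
    apply hsum.sub
    exact (hasSum_ite_eq r (f r)).summable
  have key : ∀ P : Finset ℕ, |∑ l ∈ P, (if l = r then 0 else f l)| ≤ 2 * η := by
    intro P
    refine (Finset.abs_sum_le_sum_abs _ _).trans ?_
    have h1 : ∑ l ∈ P, |if l = r then 0 else f l| ≤
        ∑ l ∈ P.filter (fun l => R ≤ l ∧ l ≠ r), |f l| := by
      rw [Finset.sum_filter]
      apply Finset.sum_le_sum
      intro l _
      by_cases h : l = r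
      · rw [if_pos h, if_neg (fun hc => hc.2 h), abs_zero]
      · rw [if_neg h]
        by_cases h2 : R ≤ l
        · rw [if_pos ⟨h2, h⟩]
        · rw [if_neg (fun hc => h2 hc.1)]
          have h3 : f l = 0 := by
            simp only [hf, T]
            have : ∀ j, x (S.t l j) = 0 := hx0 l (not_le.1 h2)
            simp [this, avg]
          rw [h3, abs_zero]
    refine h1.trans ?_
    have hP1 : ∀ l ∈ P.filter (fun l => R ≤ l ∧ l ≠ r), R ≤ l ∧ l ≠ r := by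
      intro l hl
      exact (Finset.mem_filter.1 hl).2
    have h2 := T_sum_bound F Cf S (P.filter (fun l => R ≤ l ∧ l ≠ r)) x (y * u) (z * v) η η hη hη
      (bessel_aux F Cf _ η y g u hyg hu (fun l hl s => hgu l (hP1 l hl).1 (hP1 l hl).2 s))
      (bessel_aux F Cf _ η z g' v hzg hv (fun l hl s => hgv l (hP1 l hl).1 (hP1 l hl).2 s))
    refine h2.trans ?_
    have h3 := hδR (P.filter (fun l => R ≤ l ∧ l ≠ r)) (fun l hl => (hP1 l hl).1)
    have h4 : 0 ≤ ∑ l ∈ P.filter (fun l => R ≤ l ∧ l ≠ r), δ l :=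
      Finset.sum_nonneg (fun l _ => hδ0 l)
    have h5 : ‖y * u‖ ≤ 1 := by
      refine (norm_mul_le _ _).trans ?_
      exact mul_le_one₀ hy (norm_nonneg _) hu
    have h6 : ‖z * v‖ ≤ 1 := by
      refine (norm_mul_le _ _).trans ?_
      exact mul_le_one₀ hz (norm_nonneg _) hv
    have h7 : ‖y * u‖ * ‖z * v‖ ≤ 1 := mul_le_one₀ h5 (norm_nonneg _) h6
    have h8 : 0 ≤ ‖y * u‖ * ‖z * v‖ := by positivity
    have h9 : (∑ l ∈ P.filter (fun l => R ≤ l ∧ l ≠ r), δ l) * (‖y * u‖ * ‖z * v‖) ≤ η * 1 := by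
      gcongr
    have h10 : η * η ≤ η * 1 := by gcongr
    have h11 : 0 ≤ η * η + (∑ l ∈ P.filter (fun l => R ≤ l ∧ l ≠ r), δ l) *
        (‖y * u‖ * ‖z * v‖) := by positivity
    calc ‖x‖ * (η * η + (∑ l ∈ P.filter (fun l => R ≤ l ∧ l ≠ r), δ l) * (‖y * u‖ * ‖z * v‖))
        ≤ 1 * (η * η + (∑ l ∈ P.filter (fun l => R ≤ l ∧ l ≠ r), δ l) *
          (‖y * u‖ * ‖z * v‖)) := by gcongr
      _ ≤ 2 * η := by linarith
  have ht := hsg.hasSum
  exact le_of_tendsto (Filter.Tendsto.abs ht) (Filter.Eventually.of_forall key)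

end Pool.Agent.Helper86.Tri
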