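import Pool.Agent.Helper86.Tri.Select

set_option autoImplicit false

open Finset

namespace Pool.Agent.Helper86.Tri

theorem IsTri.sub' {E F G : Type*} [AddCommGroup E] [Module ℝ E] [AddCommGroup F] [Module ℝ F]
    [AddCommGroup G] [Module ℝ G] {b c : E → F → G → ℝ} (hb : IsTri b) (hc : IsTri c) :
    IsTri (fun x y z => b x y z - c x y z) where
  add₁ x x' y z := by simp only [hb.add₁, hc.add₁]; ring
  smul₁ t x y z := by simp only [hb.smul₁, hc.smul₁]; ring
  add₂ x y y' z := by simp only [hb.add₂, hc.add₂]; ring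
  smul₂ t x y z := by simp only [hb.smul₂, hc.smul₂]; ring
  add₃ x y z z' := by simp only [hb.add₃, hc.add₃]; ring
  smul₃ t x y z := by simp only [hb.smul₃, hc.smul₃]; ring

theorem IsTri.res {n : ℕ → ℕ} {b : C(unitInterval, ℝ) → C(Pt n, ℝ) → C(Pt n, ℝ) → ℝ}
    (hb : IsTri b) :
    IsTri (fun x y z : C(KK n, ℝ) => b (resL x) (resR y) (resR z)) where
  add₁ x x' y z := by simp only [resL_add, hb.add₁]
  smul₁ t x y z := by simp only [resL_smul, hb.smul₁]
  add₂ x y y' z := by simp only [resR_add, hb.add₂]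
  smul₂ t x y z := by simp only [resR_smul, hb.smul₂]
  add₃ x y z z' := by simp only [resR_add, hb.add₃]
  smul₃ t x y z := by simp only [resR_smul, hb.smul₃]

/-- combinations of the indicators have norm at most one -/
theorem comb_norm {n : ℕ → ℕ} (r : ℕ) (c : Fin (n r) → ℝ) (hc : ∀ s, |c s| ≤ 1) :
    ‖∑ s, c s • ind n r s‖ ≤ 1 := by
  rw [ContinuousMap.norm_le _ zero_le_one]
  intro κ
  have : (∑ s, c s • ind n r s : C(Pt n, ℝ)) κ = if (κ r).2 = false then c (κ r).1 else 0 := by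
    rw [ContinuousMap.sum_apply]
    have h1 : ∀ s, (c s • ind n r s) κ =
        if s = (κ r).1 then (if (κ r).2 = false then c s else 0) else 0 := by
      intro s
      show c s * (if κ r = (s, false) then (1 : ℝ) else 0) = _
      by_cases h : s = (κ r).1
      · by_cases h' : (κ r).2 = false
        · have : κ r = (s, false) := Prod.ext h.symm h'
          simp [this]
        · have : κ r ≠ (s, false) := fun h'' => h' (by rw [h''])
          simp [this, h']
      · have : κ r ≠ (s, false) := fun h'' => h (by rw [h''])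
        simp [this, h]
    rw [Finset.sum_congr rfl fun s _ => h1 s]
    simp
  rw [this]
  split_ifs
  · exact hc _
  · simp

section final

variable {δ a : ℕ → ℝ} (F : ∀ r, Fake (δ r) (a r)) (Cf : Coeffs fun r => (F r).n)
  (S : Switch fun r => (F r).m)

theorem core_false (hδ0 : ∀ r, 0 ≤ δ r) (hδ1 : ∀ P : Finset ℕ, ∑ r ∈ P, δ r ≤ 1)
    (hδt : ∀ η > 0, ∃ R : ℕ, ∀ P : Finset ℕ, (∀ l ∈ P, R ≤ l) → ∑ l ∈ P, δ l ≤ η)
    (ha0 : ∀ r, 0 < a r) (hat : ∀ η > 0, ∃ R : ℕ, ∀ r, R ≤ r → a r ≤ η)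
    (b : C(KK fun r => (F r).n, ℝ) → C(KK fun r => (F r).n, ℝ) → C(KK fun r => (F r).n, ℝ) → ℝ)
    (hb : IsTri b) (β : ℝ) (hβ : ∀ f g h, |b f g h| ≤ β * ‖f‖ * ‖g‖ * ‖h‖)
    (hclose : ∀ f g h, |a0 F Cf S f g h - b f g h| ≤ (1 / 2048) * ‖f‖ * ‖g‖ * ‖h‖)
    (f1 f2 f3 : C(KK fun r => (F r).n, ℝ)) (h1 : ‖f1‖ ≤ 1) (h2 : ‖f2‖ ≤ 1) (h3 : ‖f3‖ ≤ 1)
    (hatt : b f1 f2 f3 = β) : False := by
  obtain ⟨hβ0, hβ2, h01, hII⟩ := step1 F Cf S hδ1 b β hβ hclose f1 f2 f3 h1 h2 h3 hatt
  have hf1 : ∀ x, |resL f1 x| ≤ 1 := fun x =>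
    ((ContinuousMap.norm_coe_le_norm (resL f1) x).trans (resL_norm f1)).trans h1
  set η : ℝ := 1 / 4096 with hηdef
  have hη : 0 < η := by rw [hηdef]; norm_num
  obtain ⟨θ, R, r, g2, g3, hθ, hRr, har, hUθ, h0U, h1U, hlU, hδR, hg2, hg3, hco2, hco3, hloc2,
    hloc3⟩ := select F Cf S hδt hat (resL f1) (resR f2) (resR f3) hf1 h01 η hη
  obtain ⟨τ, hτ, hτII⟩ : ∃ τ : ℝ, (τ = 1 ∨ τ = -1) ∧
      1 / 2 ≤ τ * (Cf.I (resR f2) * Cf.I (resR f3)) := by
    rcases le_total 0 (Cf.I (resR f2) * Cf.I (resR f3)) with h | h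
    · exact ⟨1, Or.inl rfl, by rw [one_mul]; rwa [abs_of_nonneg h] at hII⟩
    · exact ⟨-1, Or.inr rfl, by rw [abs_of_nonpos h] at hII; linarith⟩
  have h2' : ‖resR f2‖ ≤ 1 := (resR_norm f2).trans h2
  have h3' : ‖resR f3‖ ≤ 1 := (resR_norm f3).trans h3
  have har0 := ha0 r
  set e : Fin (F r).n → C(KK fun r => (F r).n, ℝ) := fun s => mkS 0 (ind (fun r => (F r).n) r s)
    with he
  set w : Fin (F r).n → C(unitInterval, ℝ) := fun s => ∑ j, W F r j s • S.β r j with hw
  set wK : Fin (F r).n → C(KK fun r => (F r).n, ℝ) := fun s => mkS (w s) 0 with hwK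
  set B : Fin (F r).N → C(KK fun r => (F r).n, ℝ) :=
    fun i => mkS (∑ j, (F r).α i j • S.β r j) 0 with hB
  have hNpos : (0 : ℝ) < (F r).N := by exact_mod_cast (F r).hN
  -- bounds
  have hWle : ∀ j s, |W F r j s| ≤ a r := fun j s => (F r).hw j s
  have hwle : ∀ s t, |w s t| ≤ a r := fun s t =>
    bump_norm S r (fun j => W F r j s) (a r) (fun j => hWle j s) har0.le t
  have hwoff : ∀ s t, t ∉ S.U r → w s t = 0 := fun s t ht => bump_off S r _ t ht
  have hBle : ∀ i, ‖B i‖ ≤ 1 := fun i =>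
    mkS_norm _ _ 1 zero_le_one (fun t => bump_norm S r _ 1 (fun j => (F r).hα i j) zero_le_one t)
      (fun t => by simp)
  have hwB : ∀ s, wK s = ((1 : ℝ) / (F r).N) • ∑ i, (F r).φ i s • B i := by
    intro s
    ext x
    rcases x with t | κ
    · have l1 : (wK s) (Sum.inl t) = ∑ j, W F r j s * S.β r j t := by
        show (∑ j, W F r j s • S.β r j : C(unitInterval, ℝ)) t = _
        rw [ContinuousMap.sum_apply]; rfl
      have l2 : (((1 : ℝ) / (F r).N) • ∑ i, (F r).φ i s • B i : C(KK fun r => (F r).n, ℝ))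
          (Sum.inl t) = (1 / (F r).N) * ∑ i, (F r).φ i s * ∑ j, (F r).α i j * S.β r j t := by
        rw [ContinuousMap.smul_apply, ContinuousMap.sum_apply, smul_eq_mul]
        congr 1
        refine Finset.sum_congr rfl fun i _ => ?_
        rw [ContinuousMap.smul_apply, smul_eq_mul]
        congr 1
        show (∑ j, (F r).α i j • S.β r j : C(unitInterval, ℝ)) t = _
        rw [ContinuousMap.sum_apply]; rfl
      rw [l1, l2]
      have l3 : ∀ j, W F r j s = (1 / (F r).N) * ∑ i, (F r).α i j * (F r).φ i s := by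
        intro j
        unfold W avg
        rw [Fintype.card_fin]; ring
      simp_rw [l3, Finset.mul_sum, Finset.sum_mul]
      rw [Finset.sum_comm]
      refine Finset.sum_congr rfl fun i _ => Finset.sum_congr rfl fun j _ => ?_
      ring
    · have l1 : (wK s) (Sum.inr κ) = 0 := rfl
      rw [l1, ContinuousMap.smul_apply, ContinuousMap.sum_apply]
      have : ∀ i, ((F r).φ i s • B i) (Sum.inr κ) = 0 := by
        intro i
        rw [ContinuousMap.smul_apply]
        show (F r).φ i s • (0 : ℝ) = 0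
        simp
      simp [this]
  have hv : ∀ s, ‖(1 : C(KK fun r => (F r).n, ℝ)) - (2 : ℝ) • e s‖ ≤ 1 := by
    intro s
    rw [ContinuousMap.norm_le _ zero_le_one]
    rintro (t | κ)
    · show ‖(1 : ℝ) - 2 * (0 : ℝ)‖ ≤ 1
      norm_num
    · show ‖(1 : ℝ) - 2 * (if κ r = (s, false) then (1 : ℝ) else 0)‖ ≤ 1
      split_ifs <;> norm_num
  -- classes of multipliers
  have hclass : ∀ u : C(KK fun r => (F r).n, ℝ),
      (u = 1 ∨ ∃ c : Fin (F r).n → ℝ, (∀ s, |c s| ≤ 1) ∧ u = ∑ s, c s • e s) →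
      ‖u‖ ≤ 1 ∧ ‖resR u‖ ≤ 1 ∧
      (∀ l, R ≤ l → l ≠ r → ∀ s, Cf.co l s (g2 * resR u) = 0) ∧
      (∀ l, R ≤ l → l ≠ r → ∀ s, Cf.co l s (g3 * resR u) = 0) := by
    intro u hu
    rcases hu with rfl | ⟨c, hc, rfl⟩
    · refine ⟨?_, ?_, ?_, ?_⟩
      · rw [ContinuousMap.norm_le _ zero_le_one]; intro x; simp
      · rw [resR_one, ContinuousMap.norm_le _ zero_le_one]; intro x; simp
      · intro l hl _ s; rw [resR_one, mul_one]; exact (hco2 l hl s).1
      · intro l hl _ s; rw [resR_one, mul_one]; exact (hco3 l hl s).1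
    · have hres : resR (∑ s, c s • e s) = ∑ s, c s • ind (fun r => (F r).n) r s := by
        rw [resR_sum]; rfl
      have hn := comb_norm (n := fun r => (F r).n) r c hc
      refine ⟨?_, ?_, ?_, ?_⟩
      · rw [ContinuousMap.norm_le _ zero_le_one]
        rintro (t | κ)
        · rw [ContinuousMap.sum_apply]
          have : ∀ s, (c s • e s) (Sum.inl t) = 0 := by
            intro s
            rw [ContinuousMap.smul_apply]
            show c s • (0 : ℝ) = 0
            simp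
          simp [this]
        · have := (ContinuousMap.norm_coe_le_norm (resR (∑ s, c s • e s)) κ)
          rw [hres] at this
          have h' : (∑ s, c s • e s) (Sum.inr κ) = (∑ s, c s • ind (fun r => (F r).n) r s) κ := by
            rw [← hres]; rfl
          rw [h']
          exact this.trans hn
      · rw [hres]; exact hn
      · intro l hl hne s
        rw [hres, Finset.mul_sum, map_sum]
        refine Finset.sum_eq_zero fun s' _ => ?_
        rw [mul_smul_comm, map_smul, hloc2 l hl hne s s', smul_zero]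
      · intro l hl hne s
        rw [hres, Finset.mul_sum, map_sum]
        refine Finset.sum_eq_zero fun s' _ => ?_
        rw [mul_smul_comm, map_smul, hloc3 l hl hne s s', smul_zero]
  have hprod : ∀ x y z : C(KK fun r => (F r).n, ℝ), ‖x‖ ≤ 1 → ‖y‖ ≤ 1 → ‖z‖ ≤ 1 →
      ‖x‖ * ‖y‖ * ‖z‖ ≤ 1 := by
    intro x y z hx hy hz
    calc ‖x‖ * ‖y‖ * ‖z‖ ≤ 1 * 1 * 1 := by gcongr
      _ = 1 := by norm_num
  have hmul : ∀ x y : C(KK fun r => (F r).n, ℝ), ‖x‖ ≤ 1 → ‖y‖ ≤ 1 → ‖x * y‖ ≤ 1 := by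
    intro x y hx hy
    calc ‖x * y‖ ≤ ‖x‖ * ‖y‖ := norm_mul_le _ _
      _ ≤ 1 * 1 := by gcongr
      _ = 1 := by norm_num
  -- (A) the difference form
  have hA := rep_lemma (fun x y z => a0 F Cf S x y z - b x y z) ((a0_tri F Cf S hδ1).sub' hb)
    (F r).hN e f2 f3 (F r).φ (F r).hφ B wK hwB (1 / 2048) (by
      intro i u v hu hv'
      refine (hclose _ _ _).trans ?_
      have := hprod (B i) (f2 * u) (f3 * v) (hBle i) (hmul _ _ h2 (hclass u hu).1)
        (hmul _ _ h3 (hclass v hv').1)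
      nlinarith)
  -- (B) the `f1` part
  have hBB := rep_lemma b hb (N := 1) one_pos e f2 f3 (fun _ _ => 1) (by intro i s; simp)
    (fun _ => f1) (fun _ => f1) (by intro s; simp) β (by
      intro i u v hu hv'
      refine (hβ _ _ _).trans ?_
      have := hprod f1 (f2 * u) (f3 * v) h1 (hmul _ _ h2 (hclass u hu).1)
        (hmul _ _ h3 (hclass v hv').1)
      have h0 : 0 ≤ ‖f1‖ * ‖f2 * u‖ * ‖f3 * v‖ := by positivity
      nlinarith)
  -- (C) the other blocks
  have hC := rep_lemma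
    (fun x y z => TT F Cf S (resL x) (resR y) (resR z) - T F Cf S r (resL x) (resR y) (resR z))
    ((TT_tri F Cf S hδ1).res.sub' (T_tri F Cf S r).res)
    (F r).hN e f2 f3 (F r).φ (F r).hφ B wK hwB (2 * η) (by
      intro i u v hu hv'
      obtain ⟨_, hu1, hu2, _⟩ := hclass u hu
      obtain ⟨_, hv1, _, hv3⟩ := hclass v hv'
      rw [resR_mul, resR_mul]
      refine tail_small F Cf S hδ0 hδ1 R r hRr η hη.le (by rw [hηdef]; norm_num) hδR (resL (B i))
        ((resL_norm _).trans (hBle i)) ?_ (resR f2) (resR f3) g2 g3 (resR u) (resR v) h2' h3' hg2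
        hg3 hu1 hv1 hu2 hv3
      intro l hl j
      exact bump_off S r _ _ (hlU l hl j))
  -- (D) the block `r`
  have hD := block_value F Cf S r w (fun s j => bump_eval S r _ j) (resR f2) (resR f3)
  have hlow := block_lower F Cf r ((hδ1 {r}).trans' (by simp)) (resR f2) (resR f3) h2' h3' η hη.le
    (by
      intro s
      have : Cf.co r s (resR f2) = Cf.co r s (resR f2 - g2) := by
        rw [map_sub, (hco2 r hRr s).1, sub_zero]
      rw [this]; exact (Cf.co_le r s _).trans hg2)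
    (by
      intro s
      have : Cf.co r s (resR f3) = Cf.co r s (resR f3 - g3) := by
        rw [map_sub, (hco3 r hRr s).1, sub_zero]
      rw [this]; exact (Cf.co_le r s _).trans hg3)
    (by
      intro s
      have : Cf.cm r s (resR f2) - Cf.I (resR f2) =
          Cf.cm r s (resR f2 - g2) - Cf.I (resR f2 - g2) := by
        rw [map_sub, map_sub, (hco2 r hRr s).2]; ring
      rw [this]
      have q1 := (Cf.cm_le r s (resR f2 - g2)).trans hg2
      have q2 := (Cf.I_le (resR f2 - g2)).trans hg2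
      rw [abs_le] at *
      constructor <;> linarith [q1.1, q1.2, q2.1, q2.2])
    (by
      intro s
      have : Cf.cm r s (resR f3) - Cf.I (resR f3) =
          Cf.cm r s (resR f3 - g3) - Cf.I (resR f3 - g3) := by
        rw [map_sub, map_sub, (hco3 r hRr s).2]; ring
      rw [this]
      have q1 := (Cf.cm_le r s (resR f3 - g3)).trans hg3
      have q2 := (Cf.I_le (resR f3 - g3)).trans hg3
      rw [abs_le] at *
      constructor <;> linarith [q1.1, q1.2, q2.1, q2.2])
    τ hτ hτII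
  set AV := avg (fun s => (Cf.cm r s (resR f2) * Cf.co r s (resR f3) +
    Cf.co r s (resR f2) * Cf.cm r s (resR f3) + Cf.cm r s (resR f2) * Cf.cm r s (resR f3)) *
      avg fun j => W F r j s * (F r).K j s) with hAV
  -- decomposition of the `b`-sum
  set D2 := ∑ s, (b (wK s) f2 f3 - b (wK s) (f2 * (1 - (2 : ℝ) • e s)) (f3 * (1 - (2 : ℝ) • e s)))
    with hD2
  set DA := ∑ s, ((a0 F Cf S (wK s) f2 f3 - b (wK s) f2 f3) -
    (a0 F Cf S (wK s) (f2 * (1 - (2 : ℝ) • e s)) (f3 * (1 - (2 : ℝ) • e s)) -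
      b (wK s) (f2 * (1 - (2 : ℝ) • e s)) (f3 * (1 - (2 : ℝ) • e s)))) with hDA
  set DC := ∑ s, ((TT F Cf S (resL (wK s)) (resR f2) (resR f3) -
      T F Cf S r (resL (wK s)) (resR f2) (resR f3)) -
    (TT F Cf S (resL (wK s)) (resR (f2 * (1 - (2 : ℝ) • e s))) (resR (f3 * (1 - (2 : ℝ) • e s))) -
      T F Cf S r (resL (wK s)) (resR (f2 * (1 - (2 : ℝ) • e s)))
        (resR (f3 * (1 - (2 : ℝ) • e s))))) with hDC
  have hw1 : ∀ s, w s 1 = 0 := fun s => hwoff s 1 h1U
  have hw0 : ∀ s, w s 0 = 0 := fun s => hwoff s 0 h0U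
  have ha0w : ∀ s y z, a0 F Cf S (wK s) y z = (1 / 8) * TT F Cf S (w s) (resR y) (resR z) := by
    intro s y z
    unfold a0
    rw [hwK]
    simp only [resL_mkS]
    rw [hw1, hw0]; ring
  have hdec : D2 = (1 / 8) * (DC - AV) - DA := by
    have e1 : ∑ s, (T F Cf S r (w s) (resR f2) (resR f3) -
        T F Cf S r (w s) (resR (f2 * (1 - (2 : ℝ) • e s))) (resR (f3 * (1 - (2 : ℝ) • e s))))
        = - AV := hD
    rw [sub_eq_add_neg DC AV, ← e1, hDC, hDA, hD2, ← Finset.sum_add_distrib, Finset.mul_sum,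
      ← Finset.sum_sub_distrib]
    refine Finset.sum_congr rfl fun s _ => ?_
    rw [ha0w, ha0w]
    have hl : resL (wK s) = w s := rfl
    rw [hl]
    ring
  -- the attaining inequality
  have hkey : ∀ s, 0 ≤ (b f1 f2 f3 - b f1 (f2 * (1 - (2 : ℝ) • e s)) (f3 * (1 - (2 : ℝ) • e s))) +
      (τ * θ / a r) * (b (wK s) f2 f3 -
        b (wK s) (f2 * (1 - (2 : ℝ) • e s)) (f3 * (1 - (2 : ℝ) • e s))) := by
    intro s
    have hxle : ∀ (c : ℝ), |c| ≤ θ / a r → ‖f1 + c • wK s‖ ≤ 1 := by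
      intro c hc
      rw [ContinuousMap.norm_le _ zero_le_one]
      rintro (t | κ)
      · show |f1 (Sum.inl t) + c * w s t| ≤ 1
        by_cases ht : t ∈ S.U r
        · have q1 : |f1 (Sum.inl t)| ≤ 1 - θ := hUθ t ht
          have q2 : |c * w s t| ≤ θ := by
            rw [abs_mul]
            calc |c| * |w s t| ≤ (θ / a r) * a r := by
                  gcongr
                  exact hwle s t
              _ = θ := by field_simp
          calc |f1 (Sum.inl t) + c * w s t| ≤ |f1 (Sum.inl t)| + |c * w s t| := abs_add_le _ _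
            _ ≤ 1 := by linarith
        · rw [hwoff s t ht, mul_zero, add_zero]
          exact hf1 t
      · show |f1 (Sum.inr κ) + c * 0| ≤ 1
        rw [mul_zero, add_zero]
        exact (ContinuousMap.norm_coe_le_norm f1 (Sum.inr κ)).trans h1
    have habs : |τ * θ / a r| ≤ θ / a r := by
      rw [abs_div, abs_mul, abs_of_pos har0, abs_of_pos hθ]
      rcases hτ with h | h <;> rw [h] <;> simp
    have hx1 := hxle (τ * θ / a r) habs
    have hx2 := hxle (-(τ * θ / a r)) (by rwa [abs_neg])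
    have hz := attain_zero b hb β hβ f1 f2 f3 ((τ * θ / a r) • wK s) h2 h3 hx1
      (by rw [neg_smul, ← sub_eq_add_neg] at hx2; exact hx2) hatt
    have hle := (le_abs_self _).trans (hβ (f1 + (τ * θ / a r) • wK s)
      (f2 * (1 - (2 : ℝ) • e s)) (f3 * (1 - (2 : ℝ) • e s)))
    have hp := hprod (f1 + (τ * θ / a r) • wK s)
      (f2 * (1 - (2 : ℝ) • e s)) (f3 * (1 - (2 : ℝ) • e s)) hx1 (hmul _ _ h2 (hv s))
      (hmul _ _ h3 (hv s))
    have hp0 : 0 ≤ ‖f1 + (τ * θ / a r) • wK s‖ * ‖f2 * (1 - (2 : ℝ) • e s)‖ *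
      ‖f3 * (1 - (2 : ℝ) • e s)‖ := by positivity
    have hle2 : b (f1 + (τ * θ / a r) • wK s) (f2 * (1 - (2 : ℝ) • e s))
        (f3 * (1 - (2 : ℝ) • e s)) ≤ β := by
      refine hle.trans ?_
      nlinarith
    rw [hb.add₁, hb.smul₁] at hle2
    rw [hb.smul₁] at hz
    have hexp : (τ * θ / a r) * (b (wK s) f2 f3 -
        b (wK s) (f2 * (1 - (2 : ℝ) • e s)) (f3 * (1 - (2 : ℝ) • e s))) =
        τ * θ / a r * b (wK s) f2 f3 -
        τ * θ / a r * b (wK s) (f2 * (1 - (2 : ℝ) • e s)) (f3 * (1 - (2 : ℝ) • e s)) := by ring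
    rw [hatt, hexp, hz]
    linarith
  have hsum : 0 ≤ ∑ s, (b f1 f2 f3 -
      b f1 (f2 * (1 - (2 : ℝ) • e s)) (f3 * (1 - (2 : ℝ) • e s))) + (τ * θ / a r) * D2 := by
    rw [hD2, Finset.mul_sum, ← Finset.sum_add_distrib]
    exact Finset.sum_nonneg fun s _ => hkey s
  set D1 := ∑ s, (b f1 f2 f3 -
      b f1 (f2 * (1 - (2 : ℝ) • e s)) (f3 * (1 - (2 : ℝ) • e s))) with hD1
  have hD1le : |D1| ≤ 8 * β := hBB
  have hDAle : |DA| ≤ 8 * (1 / 2048) := hA
  have hDCle : |DC| ≤ 8 * (2 * η) := hC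
  have hfin : - (16 * η) ≤ τ * D2 := by
    have q1 : 0 ≤ (a r / θ) * D1 + τ * D2 := by
      have := mul_nonneg (div_pos har0 hθ).le hsum
      have q : a r / θ * (D1 + τ * θ / a r * D2) = a r / θ * D1 + τ * D2 := by
        field_simp
      linarith
    have q2 : a r / θ ≤ η := by
      rw [div_le_iff₀ hθ]; linarith
    have q3 : D1 ≤ 16 := by
      have := (abs_le.mp hD1le).2
      linarith
    have q4 : (a r / θ) * D1 ≤ η * 16 := by
      rcases le_total 0 D1 with h | h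
      · exact mul_le_mul q2 q3 h hη.le
      · have : (a r / θ) * D1 ≤ 0 := mul_nonpos_of_nonneg_of_nonpos (div_pos har0 hθ).le h
        nlinarith
    have q5 : 0 ≤ η * 16 + τ * D2 := q1.trans (by gcongr)
    linarith
  have hτDA : |τ * DA| ≤ 8 * (1 / 2048) := by
    rw [abs_mul]; rcases hτ with h | h <;> rw [h] <;> simpa using hDAle
  have hτDC : |τ * DC| ≤ 8 * (2 * η) := by
    rw [abs_mul]; rcases hτ with h | h <;> rw [h] <;> simpa using hDCle
  have e2 : τ * D2 = (1 / 8) * (τ * DC - τ * AV) - τ * DA := by rw [hdec]; ring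
  have q5 := (abs_le.mp hτDA).1
  have q6 := (abs_le.mp hτDC).2
  rw [e2] at hfin
  rw [hηdef] at *
  linarith

end final

end Pool.Agent.Helper86.Tri
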