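import Mathlib
import Pool.Agent.Helper86.Tri.Defs

set_option autoImplicit false

open Finset

namespace Pool.Agent.Helper86.Tri

/-- A function of the coordinate `l`, as a continuous function. -/
noncomputable def crd (n : ℕ → ℕ) (l : ℕ) (q : Fin (n l) × Bool → ℝ) : C(Pt n, ℝ) where
  toFun κ := q (κ l)
  continuous_toFun := by
    have h : Continuous q := continuous_of_discreteTopology
    exact h.comp (continuous_apply l)

/-- conditional expectation of `f ε_r` given `κ_r.1 = s`. -/
noncomputable def coI {n : ℕ → ℕ} (I : C(Pt n, ℝ) →ₗ[ℝ] ℝ) (r : ℕ) (s : Fin (n r)) :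
    C(Pt n, ℝ) →ₗ[ℝ] ℝ :=
  (n r : ℝ) • (I.comp (LinearMap.mulRight ℝ (crd n r fun p =>
    if p.1 = s then (if p.2 then 1 else -1) else 0)))

end Pool.Agent.Helper86.Tri
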