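import Pool.Agent.Helper86.Tri.Core

set_option autoImplicit false

open Finset

namespace Pool.Agent.Helper86.Tri

section select

variable {δ a : ℕ → ℝ} (F : ∀ r, Fake (δ r) (a r)) (Cf : Coeffs fun r => (F r).n)
  (S : Switch fun r => (F r).m)

theorem open_avoid (V0 : Set unitInterval) (hV : IsOpen V0) (hne : V0.Nonempty)
    (Z : Set unitInterval) (hZ : Z.Finite) :
    ∃ V : Set unitInterval, IsOpen V ∧ V.Nonempty ∧ V ⊆ V0 ∧ ∀ x ∈ Z, x ∉ V := by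
  refine ⟨V0 \ Z, hV.sdiff hZ.isClosed, ?_, Set.diff_subset, fun x hx h => h.2 hx⟩
  obtain ⟨x0, hx0⟩ := hne
  have hinf : V0.Infinite := infinite_of_mem_nhds x0 (hV.mem_nhds hx0)
  exact (hinf.diff hZ).nonempty

theorem select
    (hδt : ∀ η > 0, ∃ R : ℕ, ∀ P : Finset ℕ, (∀ l ∈ P, R ≤ l) → ∑ l ∈ P, δ l ≤ η)
    (hat : ∀ η > 0, ∃ R : ℕ, ∀ r, R ≤ r → a r ≤ η)
    (f1 : C(unitInterval, ℝ)) (f2 f3 : C(Pt fun r => (F r).n, ℝ)) (hf1 : ∀ x, |f1 x| ≤ 1)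
    (h01 : f1 0 ≠ f1 1) (η : ℝ) (hη : 0 < η) :
    ∃ (θ : ℝ) (R r : ℕ) (g2 g3 : C(Pt fun r => (F r).n, ℝ)), 0 < θ ∧ R ≤ r ∧
      a r ≤ θ * η ∧ (∀ x ∈ S.U r, |f1 x| ≤ 1 - θ) ∧ (0 : unitInterval) ∉ S.U r ∧
      (1 : unitInterval) ∉ S.U r ∧ (∀ l, l < R → ∀ j, S.t l j ∉ S.U r) ∧
      (∀ P : Finset ℕ, (∀ l ∈ P, R ≤ l) → ∑ l ∈ P, δ l ≤ η) ∧
      ‖f2 - g2‖ ≤ η ∧ ‖f3 - g3‖ ≤ η ∧
      (∀ l, R ≤ l → ∀ s, Cf.co l s g2 = 0 ∧ Cf.cm l s g2 = Cf.I g2) ∧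
      (∀ l, R ≤ l → ∀ s, Cf.co l s g3 = 0 ∧ Cf.cm l s g3 = Cf.I g3) ∧
      (∀ l, R ≤ l → l ≠ r → ∀ s s', Cf.co l s (g2 * ind (fun r => (F r).n) r s') = 0) ∧
      (∀ l, R ≤ l → l ≠ r → ∀ s s', Cf.co l s (g3 * ind (fun r => (F r).n) r s') = 0) := by
  obtain ⟨x0, hx0⟩ := exists_lt_one f1 hf1 h01
  set θ : ℝ := (1 - |f1 x0|) / 2 with hθ
  have hθ0 : 0 < θ := by rw [hθ]; linarith
  obtain ⟨R2, g2, hg2, hg2', hg2''⟩ := Cf.approx f2 η hη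
  obtain ⟨R3, g3, hg3, hg3', hg3''⟩ := Cf.approx f3 η hη
  obtain ⟨R4, hR4⟩ := hδt η hη
  obtain ⟨R5, hR5⟩ := hat (θ * η) (by positivity)
  set R := max (max R2 R3) (max R4 R5) with hR
  have hR2 : R2 ≤ R := (le_max_left _ _).trans (le_max_left _ _)
  have hR3 : R3 ≤ R := (le_max_right _ _).trans (le_max_left _ _)
  have hR4' : R4 ≤ R := (le_max_left _ _).trans (le_max_right _ _)
  have hR5' : R5 ≤ R := (le_max_right _ _).trans (le_max_right _ _)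
  have hVopen : IsOpen {x : unitInterval | |f1 x| < 1 - θ} :=
    isOpen_lt (continuous_abs.comp f1.continuous) continuous_const
  have hVne : {x : unitInterval | |f1 x| < 1 - θ}.Nonempty := ⟨x0, by
    show |f1 x0| < 1 - θ
    rw [hθ]; linarith⟩
  have hZ : ({0, 1} ∪ ⋃ l ∈ Finset.range R, Set.range (S.t l) : Set unitInterval).Finite := by
    refine Set.Finite.union (by simp) ?_
    exact Set.Finite.biUnion (Finset.finite_toSet _) fun l _ => Set.finite_range _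
  obtain ⟨V, hV, hVn, hVs, hVZ⟩ := open_avoid _ hVopen hVne _ hZ
  obtain ⟨r, hr, hUr⟩ := S.dense V hV hVn R
  refine ⟨θ, R, r, g2, g3, hθ0, hr, hR5 r (hR5'.trans hr), ?_, ?_, ?_, ?_, ?_, hg2, hg3, ?_, ?_,
    ?_, ?_⟩
  · intro x hx
    exact (hVs (hUr hx)).le
  · intro h
    exact hVZ 0 (Or.inl (by simp)) (hUr h)
  · intro h
    exact hVZ 1 (Or.inl (by simp)) (hUr h)
  · intro l hl j h
    refine hVZ (S.t l j) (Or.inr ?_) (hUr h)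
    simp only [Set.mem_iUnion, Finset.mem_range]
    exact ⟨l, hl, j, rfl⟩
  · intro P hP
    exact hR4 P fun l hl => hR4'.trans (hP l hl)
  · intro l hl s
    exact hg2' l (hR2.trans hl) s
  · intro l hl s
    exact hg3' l (hR3.trans hl) s
  · intro l hl hne s s'
    exact hg2'' l r (hR2.trans hl) hne s s'
  · intro l hl hne s s'
    exact hg3'' l r (hR3.trans hl) hne s s'

end select

end Pool.Agent.Helper86.Tri
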