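import Pool.Agent.Helper86.Tri.BlockDefs
import Pool.Agent.Helper86.Tri.D1
import Pool.Agent.Helper86.Tri.D2
import Pool.Agent.Helper86.Tri.E3
import Pool.Agent.Helper86.Tri.E4
import Pool.Agent.Helper86.Tri.E6
import Pool.Agent.Helper86.Tri.E7

set_option autoImplicit false

open Finset

namespace Pool.Agent.Helper86.Tri

/-- The compact space `[0,1] ⊔ ∏ (G_r × {±1})`. -/
abbrev KK (n : ℕ → ℕ) : Type := unitInterval ⊕ Pt n

/-- restriction to `[0,1]` -/
noncomputable def resL {n : ℕ → ℕ} (f : C(KK n, ℝ)) : C(unitInterval, ℝ) :=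
  f.comp ⟨Sum.inl, continuous_inl⟩

/-- restriction to the Cantor part -/
noncomputable def resR {n : ℕ → ℕ} (f : C(KK n, ℝ)) : C(Pt n, ℝ) :=
  f.comp ⟨Sum.inr, continuous_inr⟩

/-- gluing -/
noncomputable def mkS {n : ℕ → ℕ} (x : C(unitInterval, ℝ)) (y : C(Pt n, ℝ)) : C(KK n, ℝ) :=
  ⟨Sum.elim x y, by
    rw [continuous_sum_dom]
    exact ⟨x.continuous, y.continuous⟩⟩

section res
variable {n : ℕ → ℕ}

@[simp] theorem resL_mkS (x : C(unitInterval, ℝ)) (y : C(Pt n, ℝ)) : resL (mkS x y) = x := rfl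
@[simp] theorem resR_mkS (x : C(unitInterval, ℝ)) (y : C(Pt n, ℝ)) : resR (mkS x y) = y := rfl
@[simp] theorem resL_add (f g : C(KK n, ℝ)) : resL (f + g) = resL f + resL g := rfl
@[simp] theorem resR_add (f g : C(KK n, ℝ)) : resR (f + g) = resR f + resR g := rfl
@[simp] theorem resL_sub (f g : C(KK n, ℝ)) : resL (f - g) = resL f - resL g := rfl
@[simp] theorem resR_sub (f g : C(KK n, ℝ)) : resR (f - g) = resR f - resR g := rfl
@[simp] theorem resL_smul (c : ℝ) (f : C(KK n, ℝ)) : resL (c • f) = c • resL f := rfl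
@[simp] theorem resR_smul (c : ℝ) (f : C(KK n, ℝ)) : resR (c • f) = c • resR f := rfl
@[simp] theorem resL_mul (f g : C(KK n, ℝ)) : resL (f * g) = resL f * resL g := rfl
@[simp] theorem resR_mul (f g : C(KK n, ℝ)) : resR (f * g) = resR f * resR g := rfl
@[simp] theorem resL_one : resL (1 : C(KK n, ℝ)) = 1 := rfl
@[simp] theorem resR_one : resR (1 : C(KK n, ℝ)) = 1 := rfl
@[simp] theorem resR_zero : resR (0 : C(KK n, ℝ)) = 0 := rfl

theorem resR_sum {ι : Type} (s : Finset ι) (f : ι → C(KK n, ℝ)) :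
    resR (∑ i ∈ s, f i) = ∑ i ∈ s, resR (f i) := by
  classical
  induction s using Finset.induction_on with
  | empty => rfl
  | insert a s ha ih => rw [Finset.sum_insert ha, Finset.sum_insert ha, resR_add, ih]

theorem resL_norm (f : C(KK n, ℝ)) : ‖resL f‖ ≤ ‖f‖ := by
  rw [ContinuousMap.norm_le _ (norm_nonneg _)]
  intro x
  exact f.norm_coe_le_norm (Sum.inl x)

theorem resR_norm (f : C(KK n, ℝ)) : ‖resR f‖ ≤ ‖f‖ := by
  rw [ContinuousMap.norm_le _ (norm_nonneg _)]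
  intro x
  exact f.norm_coe_le_norm (Sum.inr x)

theorem mkS_norm (x : C(unitInterval, ℝ)) (y : C(Pt n, ℝ)) (c : ℝ) (hc : 0 ≤ c)
    (hx : ∀ t, |x t| ≤ c) (hy : ∀ t, |y t| ≤ c) : ‖mkS x y‖ ≤ c := by
  rw [ContinuousMap.norm_le _ hc]
  rintro (t | t)
  · exact hx t
  · exact hy t

end res

section form

variable {δ a : ℕ → ℝ} (F : ∀ r, Fake (δ r) (a r)) (Cf : Coeffs fun r => (F r).n)
  (S : Switch fun r => (F r).m)

/-- The trilinear form. -/
noncomputable def a0 (f g h : C(KK fun r => (F r).n, ℝ)) : ℝ :=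
  ((resL f 1 - resL f 0) / 2) * (Cf.I (resR g) * Cf.I (resR h)) +
    (1 / 8) * TT F Cf S (resL f) (resR g) (resR h)

theorem a0_tri (hδ1 : ∀ P : Finset ℕ, ∑ r ∈ P, δ r ≤ 1) : IsTri (a0 F Cf S) := by
  have ht := TT_tri F Cf S hδ1
  constructor
  · intro x x' y z
    simp only [a0, resL_add, ContinuousMap.add_apply, ht.add₁]; ring
  · intro c x y z
    simp only [a0, resL_smul, ContinuousMap.smul_apply, ht.smul₁, smul_eq_mul]; ring
  · intro x y y' z
    simp only [a0, resR_add, map_add, ht.add₂]; ring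
  · intro c x y z
    simp only [a0, resR_smul, map_smul, ht.smul₂, smul_eq_mul]; ring
  · intro x y z z'
    simp only [a0, resR_add, map_add, ht.add₃]; ring
  · intro c x y z
    simp only [a0, resR_smul, map_smul, ht.smul₃, smul_eq_mul]; ring

theorem main_bound (f g h : C(KK fun r => (F r).n, ℝ)) :
    |((resL f 1 - resL f 0) / 2) * (Cf.I (resR g) * Cf.I (resR h))| ≤ ‖f‖ * ‖g‖ * ‖h‖ := by
  have h1 : |(resL f 1 - resL f 0) / 2| ≤ ‖f‖ := by
    have a1 : |resL f 1| ≤ ‖f‖ := (ContinuousMap.norm_coe_le_norm (resL f) 1).trans (resL_norm f)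
    have a2 : |resL f 0| ≤ ‖f‖ := (ContinuousMap.norm_coe_le_norm (resL f) 0).trans (resL_norm f)
    rw [abs_le] at *
    constructor <;> linarith [a1.1, a1.2, a2.1, a2.2]
  have h2 : |Cf.I (resR g)| ≤ ‖g‖ := (Cf.I_le _).trans (resR_norm g)
  have h3 : |Cf.I (resR h)| ≤ ‖h‖ := (Cf.I_le _).trans (resR_norm h)
  rw [abs_mul, abs_mul, mul_assoc]
  gcongr

theorem a0_bound (hδ1 : ∀ P : Finset ℕ, ∑ r ∈ P, δ r ≤ 1) (f g h : C(KK fun r => (F r).n, ℝ)) :
    |a0 F Cf S f g h| ≤ 2 * ‖f‖ * ‖g‖ * ‖h‖ := by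
  have h1 := main_bound F Cf f g h
  have h2 := (T_summable F Cf S hδ1 (resL f) (resR g) (resR h)).2
  have h3 : 2 * ‖resL f‖ * ‖resR g‖ * ‖resR h‖ ≤ 2 * ‖f‖ * ‖g‖ * ‖h‖ := by
    gcongr
    · exact resL_norm f
    · exact resR_norm g
    · exact resR_norm h
  unfold a0
  calc |((resL f 1 - resL f 0) / 2) * (Cf.I (resR g) * Cf.I (resR h)) +
      (1 / 8) * TT F Cf S (resL f) (resR g) (resR h)|
      ≤ |((resL f 1 - resL f 0) / 2) * (Cf.I (resR g) * Cf.I (resR h))| +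
        |(1 / 8) * TT F Cf S (resL f) (resR g) (resR h)| := abs_add_le _ _
    _ ≤ ‖f‖ * ‖g‖ * ‖h‖ + (1 / 8) * (2 * ‖f‖ * ‖g‖ * ‖h‖) := by
        rw [abs_mul (1 / 8 : ℝ), abs_of_pos (by norm_num : (0:ℝ) < 1 / 8)]
        gcongr
        exact h2.trans h3
    _ ≤ 2 * ‖f‖ * ‖g‖ * ‖h‖ := by
        have : 0 ≤ ‖f‖ * ‖g‖ * ‖h‖ := by positivity
        nlinarith

end form

end Pool.Agent.Helper86.Tri
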